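import Pool.Agent.Q83.Rst.System

/-! Completeness of the root system. -/

set_option autoImplicit false

open MeasureTheory Set Filter
open scoped Interval InnerProductSpace ENNReal

namespace Pool.Agent.Q83.Rst

theorem exp_CS (T : ℝ) (n : ℤ) : ∃ ε : ℂ, ∀ x : ℝ,
    Complex.exp (2 * Real.pi * Complex.I * n * x / T)
      = (C T n.natAbs x : ℂ) + ε * (S T n.natAbs x : ℂ) := by
  obtain ⟨m, rfl | rfl⟩ := n.eq_nat_or_neg
  · refine ⟨Complex.I, fun x => ?_⟩
    have e : (2 * Real.pi * Complex.I * ((m : ℤ) : ℂ) * x / T : ℂ)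
        = ((2 * Real.pi * m * x / T : ℝ) : ℂ) * Complex.I := by
      push_cast; ring
    rw [e, Complex.exp_mul_I, Int.natAbs_natCast]
    unfold C S
    push_cast
    ring
  · refine ⟨-Complex.I, fun x => ?_⟩
    have e : (2 * Real.pi * Complex.I * ((-(m : ℤ) : ℤ) : ℂ) * x / T : ℂ)
        = ((-(2 * Real.pi * m * x / T) : ℝ) : ℂ) * Complex.I := by
      push_cast; ring
    rw [e, Complex.exp_mul_I, Int.natAbs_neg, Int.natAbs_natCast, ← Complex.ofReal_cos,
      ← Complex.ofReal_sin, Real.cos_neg, Real.sin_neg]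
    unfold C S
    push_cast
    ring

theorem memLp_intv {F : ℝ → ℂ} (hF : MemLp F 2 volume) (a b : ℝ) :
    IntervalIntegrable F volume a b := by
  rw [intervalIntegrable_iff]
  exact (hF.restrict (Ioc (min a b) (max a b))).integrable (by norm_num)

theorem memLp_shift {F : ℝ → ℂ} (hF : MemLp F 2 volume) (d : ℝ) :
    MemLp (fun y => F (y + d)) 2 volume :=
  hF.comp_measurePreserving (measurePreserving_add_right volume d)

theorem memLp_neg {F : ℝ → ℂ} (hF : MemLp F 2 volume) :
    MemLp (fun y => F (-y)) 2 volume :=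
  hF.comp_measurePreserving (Measure.measurePreserving_neg volume)

theorem fold_zero {T : ℝ} (hT : 0 < T) {L : ℕ} (hL : Real.pi / 2 ≤ -(Real.pi / 2) + L * T)
    {F : ℝ → ℂ} (hF : MemLp F 2 volume) (h0 : ∀ x, Real.pi / 2 ≤ x → F x = 0)
    (hC : ∀ m : ℕ, ∫ x in (-(Real.pi / 2))..(Real.pi / 2), (C T m x : ℂ) * F x = 0)
    (hS : ∀ m : ℕ, ∫ x in (-(Real.pi / 2))..(Real.pi / 2), (S T m x : ℂ) * F x = 0) :
    ∀ᵐ y : ℝ, y ∈ Ioc (-(Real.pi / 2)) (-(Real.pi / 2) + T) →
      ∑ l ∈ Finset.range L, F (y + l * T) = 0 := by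
  have hab : -(Real.pi / 2) < -(Real.pi / 2) + T := by linarith
  have hsum : MemLp (fun y => ∑ l ∈ Finset.range L, F (y + l * T)) 2 volume :=
    memLp_finsetSum _ fun l _ => memLp_shift hF _
  have key := fourier_zero_ae hab (hsum.restrict (Ioc (-(Real.pi / 2)) (-(Real.pi / 2) + T))) ?_
  · have := (ae_restrict_iff' measurableSet_Ioc).1 key
    filter_upwards [this] with y hy hy2
    exact hy hy2
  · intro n
    have e0 : ∀ x : ℝ, (2 * Real.pi * Complex.I * n * x / ((-(Real.pi / 2) + T - -(Real.pi / 2) : ℝ)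
        : ℂ)) = 2 * Real.pi * Complex.I * n * x / T := by
      intro x
      congr 2
      ring
    simp_rw [e0]
    obtain ⟨ε, hε⟩ := exp_CS T n
    have hint : ∀ (φ : ℝ → ℂ), Continuous φ → ∀ a b : ℝ,
        IntervalIntegrable (fun x => φ x * F x) volume a b := fun φ hφ a b =>
      (memLp_intv hF a b).continuousOn_mul hφ.continuousOn
    have hcexp : Continuous (fun x : ℝ => Complex.exp (2 * Real.pi * Complex.I * n * x / T)) := by
      fun_prop
    have h1 := fold (fun x : ℝ => Complex.exp (2 * Real.pi * Complex.I * n * x / T) * F x)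
      (hint _ hcexp) (-(Real.pi / 2)) T L
    have h2 : ∀ (x : ℝ) (l : ℕ),
        Complex.exp (2 * Real.pi * Complex.I * n * ((x + l * T : ℝ) : ℂ) / T)
        = Complex.exp (2 * Real.pi * Complex.I * n * x / T) := by
      intro x l
      have hT' : (T : ℂ) ≠ 0 := by exact_mod_cast hT.ne'
      have : (2 * Real.pi * Complex.I * n * ((x + l * T : ℝ) : ℂ) / T)
          = 2 * Real.pi * Complex.I * n * x / T
            + ((n * l : ℤ) : ℂ) * (2 * Real.pi * Complex.I) := by
        push_cast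
        field_simp
      rw [this, Complex.exp_add, Complex.exp_int_mul_two_pi_mul_I, mul_one]
    have h3 : ∀ x : ℝ, ∑ l ∈ Finset.range L,
        Complex.exp (2 * Real.pi * Complex.I * n * ((x + l * T : ℝ) : ℂ) / T) * F (x + l * T)
        = Complex.exp (2 * Real.pi * Complex.I * n * x / T)
          * ∑ l ∈ Finset.range L, F (x + l * T) := by
      intro x
      rw [Finset.mul_sum]
      exact Finset.sum_congr rfl fun l _ => by rw [h2]
    simp_rw [h3] at h1
    rw [← h1, ← intervalIntegral.integral_add_adjacent_intervals (b := Real.pi / 2)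
      (hint _ hcexp _ _) (hint _ hcexp _ _)]
    have h4 : ∫ x in (Real.pi / 2)..(-(Real.pi / 2) + L * T),
        Complex.exp (2 * Real.pi * Complex.I * n * x / T) * F x = 0 := by
      rw [intervalIntegral.integral_of_le hL]
      refine setIntegral_eq_zero_of_forall_eq_zero fun x hx => ?_
      rw [h0 x hx.1.le, mul_zero]
    rw [h4, add_zero]
    simp_rw [hε, add_mul]
    rw [intervalIntegral.integral_add (hint _ (ofReal_cont (C_cont _ _)) _ _), hC, zero_add]
    · simp_rw [mul_assoc]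
      rw [intervalIntegral.integral_const_mul, hS, mul_zero]
    · exact hint _ ((ofReal_cont (S_cont _ _)).const_mul _) _ _

/-- translating almost-everywhere statements -/
theorem ae_shift {P : ℝ → Prop} (h : ∀ᵐ y : ℝ, P y) (d : ℝ) : ∀ᵐ y : ℝ, P (y + d) :=
  (measurePreserving_add_right volume d).quasiMeasurePreserving.ae h

/-- fibrewise argument -/
theorem fibre {r s : ℕ} (hr : 0 < r) (hs : 0 < s) (hc : Nat.Coprime r s) {F : ℝ → ℂ}
    (h0 : ∀ x, Real.pi / 2 ≤ x → F x = 0)
    (h1 : ∀ᵐ y : ℝ, y ∈ Ioc (-(Real.pi / 2)) (-(Real.pi / 2) + r * hh r s) →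
      ∑ l ∈ Finset.range (r + s), F (y + l * (r * hh r s)) = 0)
    (h2 : ∀ᵐ y : ℝ, y ∈ Ioc (-(Real.pi / 2)) (-(Real.pi / 2) + s * hh r s) →
      ∑ l ∈ Finset.range (r + s), F (y + l * (s * hh r s)) = 0)
    (h3 : ∀ᵐ y : ℝ, y ∈ Ioc (-(Real.pi / 2)) (-(Real.pi / 2) + hh r s) →
      ∑ l ∈ Finset.range (r + s), ((y + l * hh r s : ℝ) : ℂ) * F (y + l * hh r s) = 0) :
    ∀ᵐ x : ℝ, x ∈ Ioc (-(Real.pi / 2)) (Real.pi / 2) → F x = 0 := by
  have hh0 := hh_pos (s := s) hr
  have hmul := hh_mul (s := s) hr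
  set h := hh r s
  have k1 : ∀ᵐ y : ℝ, ∀ i : ℕ, y + i * h ∈ Ioc (-(Real.pi / 2)) (-(Real.pi / 2) + r * h) →
      ∑ l ∈ Finset.range (r + s), F (y + i * h + l * (r * h)) = 0 := by
    rw [ae_all_iff]
    intro i
    exact ae_shift h1 (i * h)
  have k2 : ∀ᵐ y : ℝ, ∀ i : ℕ, y + i * h ∈ Ioc (-(Real.pi / 2)) (-(Real.pi / 2) + s * h) →
      ∑ l ∈ Finset.range (r + s), F (y + i * h + l * (s * h)) = 0 := by
    rw [ae_all_iff]
    intro i
    exact ae_shift h2 (i * h)
  have k4 : ∀ᵐ y : ℝ, y ∈ Ioc (-(Real.pi / 2)) (-(Real.pi / 2) + h) → ∀ j : ℕ,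
      F (y + j * h) = 0 := by
    filter_upwards [k1, k2, h3] with y q1 q2 q3 hy
    refine orth_zero hr hs hc (x := y) hh0.ne' (L := r + s) le_rfl (fun j => F (y + j * h)) ?_ ?_ ?_
      (q3 hy)
    · intro j hj
      refine h0 _ ?_
      have : ((r : ℝ) + s) ≤ j := by exact_mod_cast hj
      nlinarith [hy.1]
    · intro i hi
      have hi' : ((i : ℝ) + 1) ≤ r := by exact_mod_cast hi
      have := q1 i ⟨by nlinarith [hy.1], by nlinarith [hy.2]⟩
      rw [← this]
      refine Finset.sum_congr rfl fun l _ => ?_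
      congr 1
      push_cast
      ring
    · intro i hi
      have hi' : ((i : ℝ) + 1) ≤ s := by exact_mod_cast hi
      have := q2 i ⟨by nlinarith [hy.1], by nlinarith [hy.2]⟩
      rw [← this]
      refine Finset.sum_congr rfl fun l _ => ?_
      congr 1
      push_cast
      ring
  have k5 : ∀ᵐ x : ℝ, ∀ j : ℕ, x + -(j * h) ∈ Ioc (-(Real.pi / 2)) (-(Real.pi / 2) + h) →
      ∀ i : ℕ, F (x + -(j * h) + i * h) = 0 := by
    rw [ae_all_iff]
    intro j
    exact ae_shift k4 (-(j * h))
  filter_upwards [k5] with x hx hx2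
  set u := (x + Real.pi / 2) / h with hu
  have hu0 : 0 < u := div_pos (by linarith [hx2.1]) hh0
  obtain ⟨j, hj1, hj2⟩ : ∃ j : ℕ, (j : ℝ) < u ∧ u ≤ j + 1 := by
    refine ⟨⌈u⌉₊ - 1, ?_, ?_⟩
    · have h1 := Nat.ceil_lt_add_one hu0.le
      have h2 : 0 < ⌈u⌉₊ := Nat.ceil_pos.2 hu0
      have : ((⌈u⌉₊ - 1 : ℕ) : ℝ) = (⌈u⌉₊ : ℝ) - 1 := by
        rw [Nat.cast_sub h2]; simp
      linarith
    · have h1 := Nat.le_ceil u
      have h2 : 0 < ⌈u⌉₊ := Nat.ceil_pos.2 hu0
      have : ((⌈u⌉₊ - 1 : ℕ) : ℝ) = (⌈u⌉₊ : ℝ) - 1 := by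
        rw [Nat.cast_sub h2]; simp
      linarith
  have hj1' : j * h < x + Real.pi / 2 := by rwa [hu, lt_div_iff₀ hh0] at hj1
  have hj2' : x + Real.pi / 2 ≤ (j + 1) * h := by rwa [hu, div_le_iff₀ hh0] at hj2
  have := hx j ⟨by linarith, by linarith⟩ j
  rwa [neg_add_cancel_right] at this

theorem complete {r s : ℕ} (hr : 0 < r) (hs : 0 < s) (hc : Nat.Coprime r s) (f : L2I)
    (hf : ∀ i : IX s, ⟪Fam r s i, f⟫_ℂ = 0) : f = 0 := by
  have hh0 := hh_pos (s := s) hr
  have hmul := hh_mul (s := s) hr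
  have hr1 : (1 : ℝ) ≤ r := by exact_mod_cast hr
  have hs1 : (1 : ℝ) ≤ s := by exact_mod_cast hs
  set h := hh r s with hhdef
  have hrp : 0 < r * h := by positivity
  have hsp : 0 < s * h := by positivity
  set g : ℝ → ℂ := II.indicator f with hgdef
  have hg : MemLp g 2 volume :=
    (memLp_indicator_iff_restrict measurableSet_Ioo).2 (Lp.memLp f)
  have hgf : g =ᵐ[volume.restrict II] f := indicator_ae_eq_restrict measurableSet_Ioo
  have H : ∀ i : IX s, ∫ x in (-(Real.pi / 2))..(Real.pi / 2), (fam r s i x : ℂ) * g x = 0 := by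
    intro i
    have h1 := hf i
    rw [Fam, EE_inner] at h1
    rw [← h1, intervalIntegral.integral_of_le pi_le, intervalIntegral.integral_of_le pi_le,
      restrict_Ioc_eq]
    refine integral_congr_ae ?_
    filter_upwards [hgf] with x hx
    rw [hx]
    change _ = (starRingEnd ℂ) ((fam r s i x : ℝ) : ℂ) * _
    rw [Complex.conj_ofReal]
  have gi : ∀ (φ : ℝ → ℝ), Continuous φ → ∀ a b : ℝ,
      IntervalIntegrable (fun x => (φ x : ℂ) * g x) volume a b := fun φ hφ a b =>
    (memLp_intv hg a b).continuousOn_mul (ofReal_cont hφ).continuousOn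
  have gi' : ∀ (φ : ℝ → ℝ), Continuous φ → ∀ a b : ℝ,
      IntervalIntegrable (fun x => (φ x : ℂ) * g (-x)) volume a b := fun φ hφ a b =>
    (memLp_intv (memLp_neg hg) a b).continuousOn_mul (ofReal_cont hφ).continuousOn
  set F : ℝ → ℂ := fun x => g x + g (-x) with hFdef
  have hF : MemLp F 2 volume := hg.add (memLp_neg hg)
  have h0 : ∀ x, Real.pi / 2 ≤ x → F x = 0 := by
    intro x hx
    have n1 : x ∉ II := fun h' => absurd h'.2 (not_lt.2 hx)
    have n2 : -x ∉ II := fun h' => absurd h'.1 (not_lt.2 (by linarith))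
    rw [hFdef, hgdef]
    beta_reduce
    rw [indicator_of_notMem n1, indicator_of_notMem n2, add_zero]
  have hsplit : ∀ φ : ℝ → ℝ, Continuous φ →
      ∫ x in (-(Real.pi / 2))..(Real.pi / 2), (φ x : ℂ) * F x
      = (∫ x in (-(Real.pi / 2))..(Real.pi / 2), (φ x : ℂ) * g x)
        + ∫ x in (-(Real.pi / 2))..(Real.pi / 2), (φ (-x) : ℂ) * g x := by
    intro φ hφ
    have e1 := intervalIntegral.integral_comp_neg (a := -(Real.pi / 2)) (b := Real.pi / 2)
      (fun x => (φ (-x) : ℂ) * g x)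
    rw [neg_neg] at e1
    rw [← e1, ← intervalIntegral.integral_add (gi φ hφ _ _)]
    · refine intervalIntegral.integral_congr fun x _ => ?_
      beta_reduce
      rw [neg_neg, hFdef]
      ring
    · have := gi' φ hφ (-(Real.pi / 2)) (Real.pi / 2)
      simpa using this
  have heven : ∀ φ : ℝ → ℝ, Continuous φ → (∀ x, φ (-x) = φ x) →
      ∫ x in (-(Real.pi / 2))..(Real.pi / 2), (φ x : ℂ) * F x
      = 2 * ∫ x in (-(Real.pi / 2))..(Real.pi / 2), (φ x : ℂ) * g x := by
    intro φ hφ he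
    rw [hsplit φ hφ]
    simp_rw [he]
    ring
  have hodd : ∀ φ : ℝ → ℝ, Continuous φ → (∀ x, φ (-x) = -φ x) →
      ∫ x in (-(Real.pi / 2))..(Real.pi / 2), (φ x : ℂ) * F x = 0 := by
    intro φ hφ he
    rw [hsplit φ hφ]
    simp_rw [he]
    have : ∀ x, ((-φ x : ℝ) : ℂ) * g x = -((φ x : ℂ) * g x) := fun x => by push_cast; ring
    simp_rw [this]
    rw [intervalIntegral.integral_neg]
    ring
  have hN : ((r + s : ℕ) : ℝ) = (r : ℝ) + s := by push_cast; ring
  have z1 := fold_zero (T := r * h) hrp (L := r + s) (by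
      rw [hN]; nlinarith [Real.pi_pos]) hF h0
    (fun m => by
      rw [heven _ (C_cont _ _) (C_even _ _)]
      have := H (Sum.inl (Sum.inl m))
      change ∫ x in (-(Real.pi / 2))..(Real.pi / 2), (C (r * h) m x : ℂ) * g x = 0 at this
      rw [this, mul_zero])
    (fun m => hodd _ (S_cont _ _) (S_odd _ _))
  have z2 := fold_zero (T := s * h) hsp (L := r + s) (by
      rw [hN]; nlinarith [Real.pi_pos]) hF h0
    (fun m => by
      rw [heven _ (C_cont _ _) (C_even _ _)]
      by_cases hm : s ∣ m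
      · obtain ⟨k, rfl⟩ := hm
        have := H (Sum.inl (Sum.inl (r * k)))
        change ∫ x in (-(Real.pi / 2))..(Real.pi / 2), (C (r * h) (r * k) x : ℂ) * g x = 0 at this
        have e : ∀ x, C (s * h) (s * k) x = C (r * h) (r * k) x := by
          intro x
          unfold C
          congr 1
          have : (r : ℝ) ≠ 0 := by positivity
          have : (s : ℝ) ≠ 0 := by positivity
          push_cast
          field_simp
        simp_rw [e]
        rw [this, mul_zero]
      · have := H (Sum.inl (Sum.inr ⟨m, hm⟩))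
        change ∫ x in (-(Real.pi / 2))..(Real.pi / 2), (C (s * h) m x : ℂ) * g x = 0 at this
        rw [this, mul_zero])
    (fun m => hodd _ (S_cont _ _) (S_odd _ _))
  have hxF : MemLp (fun x : ℝ => (x : ℂ) * F x) 2 volume := by
    refine MemLp.of_le_mul (c := Real.pi) hF
      ((Complex.continuous_ofReal.aestronglyMeasurable).mul hF.1) (Eventually.of_forall fun x => ?_)
    rw [norm_mul, Complex.norm_real]
    by_cases hx : |x| ≤ Real.pi
    · exact mul_le_mul_of_nonneg_right hx (norm_nonneg _)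
    · have hx' : Real.pi < |x| := not_le.1 hx
      have n1 : x ∉ II := fun h' => hx (abs_le.2 ⟨by linarith [h'.1, Real.pi_pos],
        by linarith [h'.2, Real.pi_pos]⟩)
      have n2 : -x ∉ II := fun h' => hx (abs_le.2 ⟨by linarith [h'.2, Real.pi_pos],
        by linarith [h'.1, Real.pi_pos]⟩)
      have : F x = 0 := by
        rw [hFdef, hgdef]
        beta_reduce
        rw [indicator_of_notMem n1, indicator_of_notMem n2, add_zero]
      rw [this, norm_zero, mul_zero, mul_zero]
  have z3 := fold_zero (T := h) hh0 (L := r + s) (F := fun x : ℝ => (x : ℂ) * F x) (by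
      rw [hN]; linarith) hxF (fun x hx => by rw [h0 x hx, mul_zero])
    (fun m => by
      have e : ∀ x : ℝ, (C h m x : ℂ) * ((x : ℂ) * F x) = ((x * C h m x : ℝ) : ℂ) * F x :=
        fun x => by push_cast; ring
      simp_rw [e]
      refine hodd (fun x => x * C h m x) (continuous_id.mul (C_cont _ _)) fun x => ?_
      rw [C_even]
      ring)
    (fun m => by
      have e : ∀ x : ℝ, (S h m x : ℂ) * ((x : ℂ) * F x) = ((x * S h m x : ℝ) : ℂ) * F x :=
        fun x => by push_cast; ring
      simp_rw [e]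
      rw [heven (fun x => x * S h m x) (continuous_id.mul (S_cont _ _)) (fun x => by
        rw [S_odd]; ring)]
      rcases m with _ | n
      · have : ∀ x, S h 0 x = 0 := fun x => by unfold S; simp
        simp_rw [this]
        simp
      · have := H (Sum.inr (Sum.inl n))
        change ∫ x in (-(Real.pi / 2))..(Real.pi / 2), ((x * S h (n + 1) x : ℝ) : ℂ) * g x = 0
          at this
        rw [this, mul_zero])
  have hz := fibre hr hs hc h0 z1 z2 z3
  have hCz : ∀ m : ℕ, ∫ x in (-(Real.pi / 2))..(Real.pi / 2), (C Real.pi m x : ℂ) * g x = 0 := by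
    intro m
    have e1 := heven _ (C_cont Real.pi m) (C_even _ _)
    have e2 : ∫ x in (-(Real.pi / 2))..(Real.pi / 2), (C Real.pi m x : ℂ) * F x = 0 := by
      rw [intervalIntegral.integral_of_le pi_le]
      have : (fun x => (C Real.pi m x : ℂ) * F x)
          =ᵐ[volume.restrict (Ioc (-(Real.pi / 2)) (Real.pi / 2))] 0 := by
        refine (ae_restrict_iff' measurableSet_Ioc).2 ?_
        filter_upwards [hz] with x hx hx2
        rw [hx hx2, mul_zero]
        rfl
      rw [integral_congr_ae this]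
      simp
    rw [e2] at e1
    have : (2 : ℂ) ≠ 0 := by norm_num
    rcases mul_eq_zero.1 e1.symm with h' | h'
    · exact absurd h' this
    · exact h'
  have hSz : ∀ m : ℕ, ∫ x in (-(Real.pi / 2))..(Real.pi / 2), (S Real.pi m x : ℂ) * g x = 0 := by
    intro m
    rcases m with _ | n
    · have : ∀ x, S Real.pi 0 x = 0 := fun x => by unfold S; simp
      simp_rw [this]
      simp
    · have h1 := H (Sum.inr (Sum.inr n))
      have e : ∀ x, (fam r s (Sum.inr (Sum.inr n)) x : ℂ) * g x = (S Real.pi (n + 1) x : ℂ) * g x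
          + (BB (aa r s) (n + 1) : ℂ) * ((C Real.pi (n + 1) x : ℂ) * g x) := by
        intro x
        unfold fam
        push_cast
        ring
      simp_rw [e] at h1
      rw [intervalIntegral.integral_add (gi _ (S_cont _ _) _ _)
        ((gi _ (C_cont _ _) _ _).const_mul _), intervalIntegral.integral_const_mul, hCz, mul_zero,
        add_zero] at h1
      exact h1
  have hfin := fourier_zero_ae pi_lt (F := g) (hg.restrict _) (fun n => by
    have e0 : ∀ x : ℝ, (2 * Real.pi * Complex.I * n * x / ((Real.pi / 2 - -(Real.pi / 2) : ℝ)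
        : ℂ)) = 2 * Real.pi * Complex.I * n * x / Real.pi := by
      intro x
      have : (Real.pi / 2 - -(Real.pi / 2) : ℝ) = Real.pi := by ring
      rw [this]
    simp_rw [e0]
    obtain ⟨ε, hε⟩ := exp_CS Real.pi n
    simp_rw [hε, add_mul]
    rw [intervalIntegral.integral_add (gi _ (C_cont _ _) _ _), hCz, zero_add]
    · simp_rw [mul_assoc]
      rw [intervalIntegral.integral_const_mul, hSz, mul_zero]
    · simp_rw [mul_assoc]
      exact (gi _ (S_cont _ _) _ _).const_mul _)
  rw [restrict_Ioc_eq] at hfin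
  refine Lp.ext ?_
  filter_upwards [hfin, hgf, Lp.coeFn_zero ℂ 2 (volume.restrict II)] with x hx hx2 hx3
  rw [← hx2, hx, hx3]

end Pool.Agent.Q83.Rst
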