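import Mathlib

/-! Folding of integrals, Fourier uniqueness, orthogonality of cosines. -/

set_option autoImplicit false

open MeasureTheory Set Filter
open scoped Interval

namespace Pool.Agent.Q83.Rst

theorem fold {E : Type*} [NormedAddCommGroup E] [NormedSpace ℝ E] (f : ℝ → E)
    (hf : ∀ a b : ℝ, IntervalIntegrable f volume a b) (c T : ℝ) (L : ℕ) :
    ∫ y in c..c + L * T, f y = ∫ y in c..c + T, ∑ l ∈ Finset.range L, f (y + l * T) := by
  have hsh : ∀ (d a b : ℝ), IntervalIntegrable (fun y => f (y + d)) volume a b := fun d a b => by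
    have := (hf (a + d) (b + d)).comp_add_right d
    simpa using this
  induction L with
  | zero => simp
  | succ L ih =>
    have e1 : ∫ y in c + L * T..c + ((L + 1 : ℕ) : ℝ) * T, f y
        = ∫ y in c..c + T, f (y + L * T) := by
      rw [intervalIntegral.integral_comp_add_right (fun y => f y)]
      congr 1
      push_cast
      ring
    rw [← intervalIntegral.integral_add_adjacent_intervals (hf c (c + L * T)) (hf _ _), ih, e1]
    simp_rw [Finset.sum_range_succ]
    rw [intervalIntegral.integral_add]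
    · have := IntervalIntegrable.sum (Finset.range L)
        (f := fun l y => f (y + l * T)) (fun l _ => hsh (l * T) c (c + T))
      have e : (∑ l ∈ Finset.range L, fun y => f (y + l * T))
          = fun y => ∑ l ∈ Finset.range L, f (y + l * T) := by
        funext y; rw [Finset.sum_apply]
      rw [e] at this
      exact this
    · exact hsh _ _ _

/-- Fourier uniqueness on an interval -/
theorem fourier_zero_ae {a b : ℝ} (hab : a < b) {F : ℝ → ℂ}
    (hF : MemLp F 2 (volume.restrict (Ioc a b)))
    (h : ∀ n : ℤ, ∫ x in a..b, Complex.exp (2 * Real.pi * Complex.I * n * x / (b - a : ℝ)) * F x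
      = 0) : F =ᵐ[volume.restrict (Ioc a b)] 0 := by
  have h1 := hasSum_sq_fourierCoeffOn hab hF
  have h2 : ∀ n, fourierCoeffOn hab F n = 0 := by
    intro n
    rw [fourierCoeffOn_eq_integral]
    have := h (-n)
    have e : ∀ x : ℝ, (fourier (-n) (x : AddCircle (b - a)) : ℂ) • F x
        = Complex.exp (2 * Real.pi * Complex.I * (-n : ℤ) * x / (b - a : ℝ)) * F x := by
      intro x
      rw [fourier_coe_apply, smul_eq_mul]
    simp_rw [e, this, smul_zero]
  simp_rw [h2] at h1
  have h3 : (b - a)⁻¹ • ∫ x in a..b, ‖F x‖ ^ 2 = 0 := by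
    refine h1.unique ?_
    simpa using (hasSum_zero : HasSum (fun _ : ℤ => (0 : ℝ)) 0)
  have h4 : ∫ x in a..b, ‖F x‖ ^ 2 = 0 := by
    rcases smul_eq_zero.1 h3 with h5 | h5
    · exact absurd h5 (inv_ne_zero (sub_pos.2 hab).ne')
    · exact h5
  rw [intervalIntegral.integral_of_le hab.le] at h4
  have hint : Integrable (fun x => ‖F x‖ ^ 2) (volume.restrict (Ioc a b)) := by
    have := hF.integrable_norm_rpow (by norm_num) (by norm_num)
    simpa using this
  rw [integral_eq_zero_iff_of_nonneg (fun x => by positivity) hint] at h4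
  filter_upwards [h4] with x hx
  simpa using hx

/-- cosine and sine with period `T` -/
noncomputable def C (T : ℝ) (m : ℕ) (x : ℝ) : ℝ := Real.cos (2 * Real.pi * m * x / T)
noncomputable def S (T : ℝ) (m : ℕ) (x : ℝ) : ℝ := Real.sin (2 * Real.pi * m * x / T)

theorem C_cont (T : ℝ) (m : ℕ) : Continuous (C T m) := by unfold C; fun_prop
theorem S_cont (T : ℝ) (m : ℕ) : Continuous (S T m) := by unfold S; fun_prop

theorem int_cos_zero {T : ℝ} (hT : 0 < T) (c : ℝ) {k : ℤ} (hk : k ≠ 0) :
    ∫ x in c..c + T, Real.cos (2 * Real.pi * k * x / T) = 0 := by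
  have hω : 2 * Real.pi * k / T ≠ 0 := by
    have : (k : ℝ) ≠ 0 := by exact_mod_cast hk
    positivity
  have h1 : ∀ x, HasDerivAt (fun x : ℝ => Real.sin (2 * Real.pi * k * x / T)
      / (2 * Real.pi * k / T)) (Real.cos (2 * Real.pi * k * x / T)) x := by
    intro x
    have h2 : HasDerivAt (fun x : ℝ => 2 * Real.pi * k * x / T) (2 * Real.pi * k / T) x := by
      have := ((hasDerivAt_id x).const_mul (2 * Real.pi * k)).div_const T
      simpa using this
    have h3 := (h2.sin).div_const (2 * Real.pi * k / T)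
    have e : Real.cos (2 * Real.pi * k * x / T) * (2 * Real.pi * k / T) / (2 * Real.pi * k / T)
        = Real.cos (2 * Real.pi * k * x / T) := mul_div_cancel_right₀ _ hω
    rwa [e] at h3
  rw [intervalIntegral.integral_eq_sub_of_hasDerivAt (fun x _ => h1 x)
    (Continuous.intervalIntegrable (by fun_prop) _ _)]
  have e : 2 * Real.pi * k * (c + T) / T = 2 * Real.pi * k * c / T + k * (2 * Real.pi) := by
    field_simp
  rw [e, Real.sin_add_int_mul_two_pi, sub_self]

theorem int_CC {T : ℝ} (hT : 0 < T) (c : ℝ) {m n : ℕ} (hmn : m ≠ n) :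
    ∫ x in c..c + T, C T m x * C T n x = 0 := by
  have e : ∀ x, C T m x * C T n x = (1 / 2) * Real.cos (2 * Real.pi * ((m - n : ℤ) : ℝ) * x / T)
      + (1 / 2) * Real.cos (2 * Real.pi * ((m + n : ℤ) : ℝ) * x / T) := by
    intro x
    unfold C
    have e1 : 2 * Real.pi * ((m - n : ℤ) : ℝ) * x / T = 2 * Real.pi * m * x / T
      - 2 * Real.pi * n * x / T := by push_cast; ring
    have e2 : 2 * Real.pi * ((m + n : ℤ) : ℝ) * x / T = 2 * Real.pi * m * x / T
      + 2 * Real.pi * n * x / T := by push_cast; ring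
    rw [e1, e2, Real.cos_sub, Real.cos_add]
    ring
  simp_rw [e]
  rw [intervalIntegral.integral_add (Continuous.intervalIntegrable (by fun_prop) _ _)
    (Continuous.intervalIntegrable (by fun_prop) _ _), intervalIntegral.integral_const_mul,
    intervalIntegral.integral_const_mul, int_cos_zero hT c (k := (m - n : ℤ)) (by omega),
    int_cos_zero hT c (k := (m + n : ℤ)) (by omega)]
  ring

theorem int_SS {T : ℝ} (hT : 0 < T) (c : ℝ) {m n : ℕ} (hmn : m ≠ n) :
    ∫ x in c..c + T, S T m x * S T n x = 0 := by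
  have e : ∀ x, S T m x * S T n x = (1 / 2) * Real.cos (2 * Real.pi * ((m - n : ℤ) : ℝ) * x / T)
      - (1 / 2) * Real.cos (2 * Real.pi * ((m + n : ℤ) : ℝ) * x / T) := by
    intro x
    unfold S
    have e1 : 2 * Real.pi * ((m - n : ℤ) : ℝ) * x / T = 2 * Real.pi * m * x / T
      - 2 * Real.pi * n * x / T := by push_cast; ring
    have e2 : 2 * Real.pi * ((m + n : ℤ) : ℝ) * x / T = 2 * Real.pi * m * x / T
      + 2 * Real.pi * n * x / T := by push_cast; ring
    rw [e1, e2, Real.cos_sub, Real.cos_add]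
    ring
  simp_rw [e]
  rw [intervalIntegral.integral_sub (Continuous.intervalIntegrable (by fun_prop) _ _)
    (Continuous.intervalIntegrable (by fun_prop) _ _), intervalIntegral.integral_const_mul,
    intervalIntegral.integral_const_mul, int_cos_zero hT c (k := (m - n : ℤ)) (by omega),
    int_cos_zero hT c (k := (m + n : ℤ)) (by omega)]
  ring

theorem int_C2 {T : ℝ} (hT : 0 < T) (c : ℝ) (m : ℕ) :
    T / 2 ≤ ∫ x in c..c + T, C T m x ^ 2 ∧ ∫ x in c..c + T, C T m x ^ 2 ≤ T := by
  rcases Nat.eq_zero_or_pos m with hm | hm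
  · subst hm
    have e : ∀ x, C T 0 x ^ 2 = 1 := fun x => by unfold C; simp
    simp_rw [e]
    rw [intervalIntegral.integral_const]
    constructor <;> simp <;> linarith
  · have e : ∀ x, C T m x ^ 2 = 1 / 2
        + (1 / 2) * Real.cos (2 * Real.pi * ((2 * m : ℤ) : ℝ) * x / T) := by
      intro x
      unfold C
      have e1 : 2 * Real.pi * ((2 * m : ℤ) : ℝ) * x / T = 2 * (2 * Real.pi * m * x / T) := by
        push_cast; ring
      rw [e1, Real.cos_two_mul]
      ring
    simp_rw [e]
    rw [intervalIntegral.integral_add (Continuous.intervalIntegrable (by fun_prop) _ _)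
      (Continuous.intervalIntegrable (by fun_prop) _ _), intervalIntegral.integral_const_mul,
      int_cos_zero hT c (k := (2 * m : ℤ)) (by omega), intervalIntegral.integral_const]
    constructor <;> simp <;> linarith

theorem int_S2 {T : ℝ} (hT : 0 < T) (c : ℝ) {m : ℕ} (hm : 0 < m) :
    ∫ x in c..c + T, S T m x ^ 2 = T / 2 := by
  have e : ∀ x, S T m x ^ 2 = 1 / 2
      - (1 / 2) * Real.cos (2 * Real.pi * ((2 * m : ℤ) : ℝ) * x / T) := by
    intro x
    unfold S
    have e1 : 2 * Real.pi * ((2 * m : ℤ) : ℝ) * x / T = 2 * (2 * Real.pi * m * x / T) := by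
      push_cast; ring
    rw [e1, Real.cos_two_mul']
    have := Real.sin_sq_add_cos_sq (2 * Real.pi * m * x / T)
    linarith
  simp_rw [e]
  rw [intervalIntegral.integral_sub (Continuous.intervalIntegrable (by fun_prop) _ _)
    (Continuous.intervalIntegrable (by fun_prop) _ _), intervalIntegral.integral_const_mul,
    int_cos_zero hT c (k := (2 * m : ℤ)) (by omega), intervalIntegral.integral_const]
  simp
  ring

/-- orthogonal families of real functions -/
theorem orth_sum {ι : Type*} (s : Finset ι) (φ : ι → ℝ → ℝ) (hφ : ∀ i, Continuous (φ i))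
    {a b : ℝ} (horth : ∀ i ∈ s, ∀ j ∈ s, i ≠ j → ∫ x in a..b, φ i x * φ j x = 0) (c : ι → ℂ) :
    ∫ x in a..b, ‖∑ i ∈ s, c i * (φ i x : ℂ)‖ ^ 2
      = ∑ i ∈ s, ‖c i‖ ^ 2 * ∫ x in a..b, φ i x ^ 2 := by
  have h1 : ((∫ x in a..b, ‖∑ i ∈ s, c i * (φ i x : ℂ)‖ ^ 2 : ℝ) : ℂ)
      = ((∑ i ∈ s, ‖c i‖ ^ 2 * ∫ x in a..b, φ i x ^ 2 : ℝ) : ℂ) := by
    rw [← intervalIntegral.integral_ofReal]
    have e : ∀ x : ℝ, ((‖∑ i ∈ s, c i * (φ i x : ℂ)‖ ^ 2 : ℝ) : ℂ)
        = ∑ i ∈ s, ∑ j ∈ s, (c i * (starRingEnd ℂ) (c j)) * ((φ i x * φ j x : ℝ) : ℂ) := by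
      intro x
      rw [Complex.ofReal_pow, ← Complex.mul_conj', map_sum, Finset.sum_mul_sum]
      refine Finset.sum_congr rfl fun i _ => Finset.sum_congr rfl fun j _ => ?_
      rw [map_mul, Complex.conj_ofReal]
      push_cast
      ring
    simp_rw [e]
    have hc : ∀ i j, Continuous (fun x => (c i * (starRingEnd ℂ) (c j))
        * ((φ i x * φ j x : ℝ) : ℂ)) := fun i j => by
      have := hφ i
      have := hφ j
      fun_prop
    rw [intervalIntegral.integral_finsetSum (fun i _ => (continuous_finsetSum s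
      (fun j _ => hc i j)).intervalIntegrable _ _)]
    have e2 : ∀ i ∈ s, ∫ x in a..b, ∑ j ∈ s, (c i * (starRingEnd ℂ) (c j))
        * ((φ i x * φ j x : ℝ) : ℂ) = ((‖c i‖ ^ 2 * ∫ x in a..b, φ i x ^ 2 : ℝ) : ℂ) := by
      intro i hi
      rw [intervalIntegral.integral_finsetSum (fun j _ => (hc i j).intervalIntegrable _ _)]
      rw [Finset.sum_eq_single i]
      · rw [intervalIntegral.integral_const_mul, intervalIntegral.integral_ofReal,
          Complex.mul_conj']
        push_cast
        congr 3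
        funext x
        ring
      · intro j hj hji
        rw [intervalIntegral.integral_const_mul, intervalIntegral.integral_ofReal,
          horth i hi j hj (Ne.symm hji)]
        simp
      · intro h
        exact absurd hi h
    rw [Finset.sum_congr rfl e2]
    push_cast
    rfl
  exact_mod_cast h1

end Pool.Agent.Q83.Rst
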