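import Pool.Agent.Q83.Rst.Lin
import Pool.Agent.Q83.Rst.Fold

/-! The two-sided inequality for `g₁ + g₂ + x g₃`. -/

set_option autoImplicit false

open MeasureTheory Set Filter
open scoped Interval

namespace Pool.Agent.Q83.Rst

theorem per_nat {g : ℝ → ℂ} {T : ℝ} (h : ∀ x, g (x + T) = g x) (n : ℕ) (x : ℝ) :
    g (x + n * T) = g x := by
  induction n with
  | zero => simp
  | succ n ih =>
    have : x + ((n + 1 : ℕ) : ℝ) * T = (x + n * T) + T := by push_cast; ring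
    rw [this, h, ih]

theorem per_mod {g : ℝ → ℂ} {h : ℝ} {r : ℕ} (hg : ∀ x, g (x + r * h) = g x) (j : ℕ) (x : ℝ) :
    g (x + j * h) = g (x + ((j % r : ℕ) : ℝ) * h) := by
  have e : x + j * h = (x + ((j % r : ℕ) : ℝ) * h) + ((j / r : ℕ) : ℝ) * (r * h) := by
    have : (j : ℝ) = ((j % r : ℕ) : ℝ) + r * ((j / r : ℕ) : ℝ) := by
      exact_mod_cast (Nat.mod_add_div j r).symm
    linear_combination h * this
  rw [e, per_nat hg]

variable {r s : ℕ}

/-- the length of the pieces -/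
noncomputable def hh (r s : ℕ) : ℝ := Real.pi / (r + s)

theorem hh_pos (hr : 0 < r) : 0 < hh r s := by
  unfold hh
  have : (0 : ℝ) < r := by exact_mod_cast hr
  have : (0 : ℝ) ≤ s := by positivity
  positivity

theorem hh_mul (hr : 0 < r) : ((r : ℝ) + s) * hh r s = Real.pi := by
  unfold hh
  have : (0 : ℝ) < r := by exact_mod_cast hr
  have : (0 : ℝ) ≤ s := by positivity
  field_simp

theorem lower (hr : 0 < r) (hs : 0 < s) (hc : Nat.Coprime r s) : ∃ c : ℝ, 0 < c ∧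
    ∀ g₁ g₂ g₃ : ℝ → ℂ, Continuous g₁ → Continuous g₂ → Continuous g₃ →
    (∀ x, g₁ (x + r * hh r s) = g₁ x) → (∀ x, g₂ (x + s * hh r s) = g₂ x) →
    (∀ x, g₃ (x + hh r s) = g₃ x) → (∀ x, ∑ i ∈ Finset.range s, g₂ (x + i * hh r s) = 0) →
    c * (∫ x in (-(Real.pi / 2))..(-(Real.pi / 2) + r * hh r s), ‖g₁ x‖ ^ 2)
      + c * (∫ x in (-(Real.pi / 2))..(-(Real.pi / 2) + s * hh r s), ‖g₂ x‖ ^ 2)
      + c * (∫ x in (-(Real.pi / 2))..(-(Real.pi / 2) + hh r s), ‖g₃ x‖ ^ 2)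
    ≤ ∫ x in (-(Real.pi / 2))..(Real.pi / 2), ‖g₁ x + g₂ x + x * g₃ x‖ ^ 2 := by
  have hh0 := hh_pos (s := s) hr
  obtain ⟨c, hc0, hcc⟩ := vec_lower hr hs hc hh0.ne' Real.pi
  refine ⟨c, hc0, fun g₁ g₂ g₃ k₁ k₂ k₃ p₁ p₂ p₃ hz => ?_⟩
  have e0 : Real.pi / 2 = -(Real.pi / 2) + ((r + s : ℕ) : ℝ) * hh r s := by
    push_cast
    rw [hh_mul hr]
    ring
  have q : ∀ g : ℝ → ℝ, Continuous g → ∀ a b : ℝ, IntervalIntegrable g volume a b :=
    fun g hg a b => hg.intervalIntegrable a b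
  have F1 := fold (fun x => ‖g₁ x‖ ^ 2) (q _ (by fun_prop)) (-(Real.pi / 2)) (hh r s) r
  have F2 := fold (fun x => ‖g₂ x‖ ^ 2) (q _ (by fun_prop)) (-(Real.pi / 2)) (hh r s) s
  have F3 := fold (fun x : ℝ => ‖g₁ x + g₂ x + x * g₃ x‖ ^ 2) (q _ (by fun_prop))
    (-(Real.pi / 2)) (hh r s) (r + s)
  rw [← e0] at F3
  rw [F1, F2, F3, ← intervalIntegral.integral_const_mul, ← intervalIntegral.integral_const_mul,
    ← intervalIntegral.integral_const_mul, ← intervalIntegral.integral_add (q _ (by fun_prop) _ _)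
    (q _ (by fun_prop) _ _), ← intervalIntegral.integral_add (q _ (by fun_prop) _ _)
    (q _ (by fun_prop) _ _)]
  refine intervalIntegral.integral_mono_on (by linarith) (q _ (by fun_prop) _ _)
    (q _ (by fun_prop) _ _) fun y hy => ?_
  have hy1 : |y| ≤ Real.pi := by
    have hhp : hh r s ≤ Real.pi := by
      rw [← hh_mul (s := s) hr]
      have : (1 : ℝ) ≤ r := by exact_mod_cast hr
      have : (0 : ℝ) ≤ s := by positivity
      nlinarith
    rw [abs_le]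
    constructor <;> linarith [hy.1, hy.2, Real.pi_pos]
  have h1 := hcc y hy1 (fun i => g₁ (y + i * hh r s)) (fun i => g₂ (y + i * hh r s)) (g₃ y) (hz y)
  have e1 : ∀ j : ℕ, vec r s y (hh r s) (fun i => g₁ (y + i * hh r s))
      (fun i => g₂ (y + i * hh r s)) (g₃ y) j
      = g₁ (y + j * hh r s) + g₂ (y + j * hh r s)
        + ((y + j * hh r s : ℝ) : ℂ) * g₃ (y + j * hh r s) := by
    intro j
    unfold vec
    rw [per_mod p₁ j y, per_mod p₂ j y, per_nat p₃ j y]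
  simp_rw [e1] at h1
  linarith

theorem fold_per {g : ℝ → ℂ} (hg : Continuous g) {T : ℝ}
    (hp : ∀ x, g (x + T) = g x) (c : ℝ) {L : ℕ} {b : ℝ} (hb : c ≤ b) (hb' : b ≤ c + L * T) :
    ∫ x in c..b, ‖g x‖ ^ 2 ≤ L * ∫ x in c..c + T, ‖g x‖ ^ 2 := by
  have q : ∀ g : ℝ → ℝ, Continuous g → ∀ a b : ℝ, IntervalIntegrable g volume a b :=
    fun g hg a b => hg.intervalIntegrable a b
  have h1 := fold (fun x => ‖g x‖ ^ 2) (q _ (by fun_prop)) c T L
  have h2 : ∀ y, ∑ l ∈ Finset.range L, ‖g (y + l * T)‖ ^ 2 = L * ‖g y‖ ^ 2 := by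
    intro y
    simp_rw [per_nat hp]
    rw [Finset.sum_const, Finset.card_range, nsmul_eq_mul]
  simp_rw [h2] at h1
  rw [intervalIntegral.integral_const_mul] at h1
  rw [← h1]
  exact intervalIntegral.integral_mono_interval le_rfl hb hb'
    (Filter.Eventually.of_forall fun x => by positivity) (q _ (by fun_prop) _ _)

theorem upper (hr : 0 < r) (hs : 0 < s) : ∀ g₁ g₂ g₃ : ℝ → ℂ, Continuous g₁ → Continuous g₂ →
    Continuous g₃ →
    (∀ x, g₁ (x + r * hh r s) = g₁ x) → (∀ x, g₂ (x + s * hh r s) = g₂ x) →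
    (∀ x, g₃ (x + hh r s) = g₃ x) →
    ∫ x in (-(Real.pi / 2))..(Real.pi / 2), ‖g₁ x + g₂ x + x * g₃ x‖ ^ 2 ≤
    3 * ((r + s : ℕ) : ℝ) * (∫ x in (-(Real.pi / 2))..(-(Real.pi / 2) + r * hh r s), ‖g₁ x‖ ^ 2)
      + 3 * ((r + s : ℕ) : ℝ)
        * (∫ x in (-(Real.pi / 2))..(-(Real.pi / 2) + s * hh r s), ‖g₂ x‖ ^ 2)
      + 3 * ((r + s : ℕ) : ℝ) * Real.pi ^ 2
        * (∫ x in (-(Real.pi / 2))..(-(Real.pi / 2) + hh r s), ‖g₃ x‖ ^ 2) := by
  intro g₁ g₂ g₃ k₁ k₂ k₃ p₁ p₂ p₃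
  have hh0 := hh_pos (s := s) hr
  have hmul := hh_mul (s := s) hr
  have hr1 : (1 : ℝ) ≤ r := by exact_mod_cast hr
  have hs1 : (1 : ℝ) ≤ s := by exact_mod_cast hs
  have q : ∀ g : ℝ → ℝ, Continuous g → ∀ a b : ℝ, IntervalIntegrable g volume a b :=
    fun g hg a b => hg.intervalIntegrable a b
  have f1 := fold_per k₁ (T := r * hh r s) p₁ (-(Real.pi / 2)) (L := r + s)
    (b := Real.pi / 2) (by linarith [Real.pi_pos]) (by
      push_cast
      nlinarith [mul_nonneg (sub_nonneg.2 hr1) Real.pi_pos.le])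
  have f2 := fold_per k₂ (T := s * hh r s) p₂ (-(Real.pi / 2)) (L := r + s)
    (b := Real.pi / 2) (by linarith [Real.pi_pos]) (by
      push_cast
      nlinarith [mul_nonneg (sub_nonneg.2 hs1) Real.pi_pos.le])
  have f3 := fold_per k₃ (T := hh r s) p₃ (-(Real.pi / 2)) (L := r + s)
    (b := Real.pi / 2) (by linarith [Real.pi_pos]) (by push_cast; linarith)
  have h1 : ∫ x in (-(Real.pi / 2))..(Real.pi / 2), ‖g₁ x + g₂ x + x * g₃ x‖ ^ 2
      ≤ ∫ x in (-(Real.pi / 2))..(Real.pi / 2),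
        (3 * ‖g₁ x‖ ^ 2 + 3 * ‖g₂ x‖ ^ 2 + 3 * Real.pi ^ 2 * ‖g₃ x‖ ^ 2) := by
    refine intervalIntegral.integral_mono_on (by linarith [Real.pi_pos]) (q _ (by fun_prop) _ _)
      (q _ (by fun_prop) _ _) fun x hx => ?_
    have hx1 : |x| ≤ Real.pi := by
      rw [abs_le]
      constructor <;> linarith [hx.1, hx.2, Real.pi_pos]
    have e1 : ‖g₁ x + g₂ x + x * g₃ x‖ ≤ ‖g₁ x‖ + ‖g₂ x‖ + Real.pi * ‖g₃ x‖ := by
      refine (norm_add₃_le).trans ?_
      rw [norm_mul, Complex.norm_real, Real.norm_eq_abs]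
      have := mul_le_mul_of_nonneg_right hx1 (norm_nonneg (g₃ x))
      linarith
    have e2 := pow_le_pow_left₀ (norm_nonneg _) e1 2
    nlinarith [sq_nonneg (‖g₁ x‖ - ‖g₂ x‖), sq_nonneg (‖g₁ x‖ - Real.pi * ‖g₃ x‖),
      sq_nonneg (‖g₂ x‖ - Real.pi * ‖g₃ x‖)]
  refine h1.trans ?_
  rw [intervalIntegral.integral_add (q _ (by fun_prop) _ _) (q _ (by fun_prop) _ _),
    intervalIntegral.integral_add (q _ (by fun_prop) _ _) (q _ (by fun_prop) _ _),
    intervalIntegral.integral_const_mul, intervalIntegral.integral_const_mul,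
    intervalIntegral.integral_const_mul]
  have hπ : 0 ≤ 3 * Real.pi ^ 2 := by positivity
  have := mul_le_mul_of_nonneg_left f3 hπ
  push_cast at *
  nlinarith

end Pool.Agent.Q83.Rst
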