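import Mathlib

/-! The linear algebra: vectors `u_(j mod r) + v_(j mod s) + (x + j h) w`, `j < r + s`. -/

set_option autoImplicit false

open Finset

namespace Pool.Agent.Q83.Rst

/-- the vector -/
noncomputable def vec (r s : ℕ) (x h : ℝ) (u v : ℕ → ℂ) (w : ℂ) (j : ℕ) : ℂ :=
  u (j % r) + v (j % s) + ((x + j * h : ℝ) : ℂ) * w

theorem const_of_shift {s r : ℕ} (hs : 0 < s) (hc : Nat.Coprime r s) (v : ℕ → ℂ)
    (h : ∀ j, v ((j + r) % s) = v (j % s)) : ∀ j, v (j % s) = v 0 := by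
  have h2 : ∀ k j, v ((j + k * r) % s) = v (j % s) := by
    intro k
    induction k with
    | zero => intro j; simp
    | succ k ih =>
      intro j
      have : j + (k + 1) * r = (j + k * r) + r := by ring
      rw [this, h, ih]
  intro j
  obtain ⟨k, hk⟩ : ∃ k : ℕ, (k * r) % s = j % s := by
    rcases Nat.lt_or_ge 1 s with h1 | h1
    · obtain ⟨m, -, hm⟩ := Nat.exists_mul_mod_eq_one_of_coprime hc h1
      refine ⟨j * m, ?_⟩
      rw [mul_assoc, mul_comm m r, Nat.mul_mod, hm, Nat.mul_one, Nat.mod_mod]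
    · have : s = 1 := by omega
      subst this
      exact ⟨0, by simp [Nat.mod_one]⟩
  have := h2 k 0
  rw [zero_add, hk] at this
  simpa using this

/-- injectivity -/
theorem vec_inj {r s : ℕ} (hr : 0 < r) (hs : 0 < s) (hc : Nat.Coprime r s) {x h : ℝ} (hh : h ≠ 0)
    {u v : ℕ → ℂ} {w : ℂ} (h0 : ∀ j < r + s, vec r s x h u v w j = 0)
    (hv : ∑ i ∈ range s, v i = 0) : (∀ i < r, u i = 0) ∧ (∀ i < s, v i = 0) ∧ w = 0 := by
  have h1 : ∀ j < s, v ((j + r) % s) = v (j % s) - (r * h : ℝ) * w := by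
    intro j hj
    have e1 := h0 j (by omega)
    have e2 := h0 (j + r) (by omega)
    unfold vec at e1 e2
    rw [Nat.add_mod_right] at e2
    push_cast at e1 e2 ⊢
    linear_combination e2 - e1
  have h2 : ∀ j, v ((j + r) % s) = v (j % s) - (r * h : ℝ) * w := by
    intro j
    have := h1 (j % s) (Nat.mod_lt _ hs)
    rwa [Nat.mod_add_mod, Nat.mod_mod] at this
  have h3 : ∀ k j : ℕ, v ((j + k * r) % s) = v (j % s) - k * ((r * h : ℝ) * w) := by
    intro k
    induction k with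
    | zero => intro j; simp
    | succ k ih =>
      intro j
      have : j + (k + 1) * r = (j + k * r) + r := by ring
      rw [this, h2, ih]
      push_cast
      ring
  have hw : w = 0 := by
    have := h3 s 0
    rw [zero_add, mul_comm s r, Nat.mul_mod_left, Nat.zero_mod] at this
    have h4 : ((s : ℂ) * ((r * h : ℝ) * w)) = 0 := by linear_combination this
    rcases mul_eq_zero.1 h4 with h5 | h5
    · exact absurd h5 (by exact_mod_cast hs.ne')
    · rcases mul_eq_zero.1 h5 with h6 | h6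
      · have : (r : ℝ) * h = 0 := by exact_mod_cast h6
        rcases mul_eq_zero.1 this with h7 | h7
        · exact absurd h7 (by exact_mod_cast hr.ne')
        · exact absurd h7 hh
      · exact h6
  subst hw
  have h4 := const_of_shift hs hc v (fun j => by rw [h2 j]; simp)
  have h5 : v 0 = 0 := by
    have : ∑ i ∈ range s, v i = s * v 0 := by
      rw [Finset.sum_congr rfl (g := fun _ => v 0) (fun i hi => ?_), Finset.sum_const,
        Finset.card_range, nsmul_eq_mul]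
      have := h4 i
      rwa [Nat.mod_eq_of_lt (Finset.mem_range.1 hi)] at this
    rw [this] at hv
    rcases mul_eq_zero.1 hv with h6 | h6
    · exact absurd h6 (by exact_mod_cast hs.ne')
    · exact h6
  have h6 : ∀ j, v (j % s) = 0 := fun j => by rw [h4 j, h5]
  refine ⟨fun i hi => ?_, fun i hi => ?_, rfl⟩
  · have := h0 i (by omega)
    unfold vec at this
    rw [h6, Nat.mod_eq_of_lt hi] at this
    simpa using this
  · have := h6 i
    rwa [Nat.mod_eq_of_lt hi] at this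

/-- extension by zero of a vector on `Fin n` -/
noncomputable def ext {n : ℕ} (u : Fin n → ℂ) (j : ℕ) : ℂ := if h : j < n then u ⟨j, h⟩ else 0

/-- the square linear map -/
noncomputable def Lmap (r s : ℕ) (x h : ℝ) :
    ((Fin r → ℂ) × (Fin s → ℂ) × ℂ) →ₗ[ℂ] ((Fin (r + s) → ℂ) × ℂ) where
  toFun z := (fun j => vec r s x h (ext z.1) (ext z.2.1) z.2.2 j, ∑ i ∈ range s, ext z.2.1 i)
  map_add' z z' := by
    have e : ∀ {n : ℕ} (a b : Fin n → ℂ) (j : ℕ), ext (a + b) j = ext a j + ext b j := by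
      intro n a b j
      unfold ext
      split_ifs <;> simp
    ext j
    · simp only [Prod.fst_add, Prod.snd_add, Pi.add_apply, vec, e]
      ring
    · simp only [Prod.fst_add, Prod.snd_add, e, Finset.sum_add_distrib]
  map_smul' c z := by
    have e : ∀ {n : ℕ} (a : Fin n → ℂ) (j : ℕ), ext (c • a) j = c * ext a j := by
      intro n a j
      unfold ext
      split_ifs <;> simp
    ext j
    · simp only [Prod.smul_fst, Prod.smul_snd, Pi.smul_apply, vec, e, smul_eq_mul,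
        RingHom.id_apply]
      ring
    · simp only [Prod.smul_fst, Prod.smul_snd, e, smul_eq_mul, RingHom.id_apply,
        Finset.mul_sum]

theorem Lmap_inj {r s : ℕ} (hr : 0 < r) (hs : 0 < s) (hc : Nat.Coprime r s) {x h : ℝ}
    (hh : h ≠ 0) : Function.Injective (Lmap r s x h) := by
  rw [injective_iff_map_eq_zero]
  rintro ⟨a, b, w⟩ hz
  rw [Prod.ext_iff] at hz
  obtain ⟨h1, h2, h3⟩ := vec_inj hr hs hc hh (u := ext a) (v := ext b) (w := w) (x := x)
    (fun j hj => congrFun hz.1 ⟨j, hj⟩) hz.2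
  refine Prod.ext ?_ (Prod.ext ?_ h3)
  · funext i
    have := h1 i i.2
    simpa [ext] using this
  · funext i
    have := h2 i i.2
    simpa [ext] using this

theorem Lmap_surj {r s : ℕ} (hr : 0 < r) (hs : 0 < s) (hc : Nat.Coprime r s) {x h : ℝ}
    (hh : h ≠ 0) : Function.Surjective (Lmap r s x h) := by
  have : Module.finrank ℂ ((Fin r → ℂ) × (Fin s → ℂ) × ℂ)
      = Module.finrank ℂ ((Fin (r + s) → ℂ) × ℂ) := by
    simp [Module.finrank_prod]
    ring
  exact (LinearMap.injective_iff_surjective_of_finrank_eq_finrank this).1 (Lmap_inj hr hs hc hh)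

theorem vec_surj {r s : ℕ} (hr : 0 < r) (hs : 0 < s) (hc : Nat.Coprime r s) {x h : ℝ}
    (hh : h ≠ 0) (F : ℕ → ℂ) : ∃ (u v : ℕ → ℂ) (w : ℂ),
      (∀ j < r + s, vec r s x h u v w j = F j) := by
  obtain ⟨⟨a, b, w⟩, hz⟩ := Lmap_surj hr hs hc hh (x := x) ((fun j => F j), 0)
  exact ⟨ext a, ext b, w, fun j hj => congrFun (congrArg Prod.fst hz) ⟨j, hj⟩⟩

/-- the lower bound, uniformly for bounded `x` -/
theorem vec_lower {r s : ℕ} (hr : 0 < r) (hs : 0 < s) (hc : Nat.Coprime r s) {h : ℝ}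
    (hh : h ≠ 0) (R : ℝ) : ∃ c : ℝ, 0 < c ∧ ∀ x : ℝ, |x| ≤ R → ∀ (u v : ℕ → ℂ) (w : ℂ),
      ∑ i ∈ range s, v i = 0 →
      c * (∑ i ∈ range r, ‖u i‖ ^ 2 + ∑ i ∈ range s, ‖v i‖ ^ 2 + ‖w‖ ^ 2)
        ≤ ∑ j ∈ range (r + s), ‖vec r s x h u v w j‖ ^ 2 := by
  obtain ⟨K, hK0, hK⟩ := LinearMap.exists_antilipschitzWith (Lmap r s 0 h)
    (LinearMap.ker_eq_bot.2 (Lmap_inj hr hs hc hh))
  have hK' : ∀ z, ‖z‖ ≤ K * ‖Lmap r s 0 h z‖ := fun z => by
    have := hK.le_mul_dist z 0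
    simpa using this
  have key : ∀ (u v : ℕ → ℂ) (w : ℂ), ∑ i ∈ range s, v i = 0 → ∀ M : ℝ,
      M = ∑ j ∈ range (r + s), ‖vec r s 0 h u v w j‖ ^ 2 →
      (∀ i < r, ‖u i‖ ^ 2 ≤ K ^ 2 * M) ∧ (∀ i < s, ‖v i‖ ^ 2 ≤ K ^ 2 * M) ∧
        ‖w‖ ^ 2 ≤ K ^ 2 * M := by
    intro u v w hv M hM
    let z : (Fin r → ℂ) × (Fin s → ℂ) × ℂ := (fun i => u i, fun i => v i, w)
    have hM0 : 0 ≤ M := by rw [hM]; positivity
    have e1 : ∀ j, vec r s 0 h (ext z.1) (ext z.2.1) z.2.2 j = vec r s 0 h u v w j := by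
      intro j
      unfold vec ext
      rw [dif_pos (Nat.mod_lt j hr), dif_pos (Nat.mod_lt j hs)]
    have e2 : (Lmap r s 0 h z).2 = 0 := by
      change ∑ i ∈ range s, ext z.2.1 i = 0
      rw [← hv]
      refine Finset.sum_congr rfl fun i hi => ?_
      unfold ext
      rw [dif_pos (Finset.mem_range.1 hi)]
    have e3 : ‖Lmap r s 0 h z‖ ≤ Real.sqrt M := by
      rw [Prod.norm_def, e2, norm_zero]
      refine max_le ?_ (Real.sqrt_nonneg _)
      rw [pi_norm_le_iff_of_nonneg (Real.sqrt_nonneg _)]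
      intro j
      refine Real.le_sqrt_of_sq_le ?_
      rw [hM]
      change ‖vec r s 0 h (ext z.1) (ext z.2.1) z.2.2 j‖ ^ 2 ≤ _
      rw [e1]
      exact Finset.single_le_sum (f := fun j => ‖vec r s 0 h u v w j‖ ^ 2)
        (fun i _ => by positivity) (Finset.mem_range.2 j.2)
    have e4 : ‖z‖ ≤ K * Real.sqrt M := (hK' z).trans (mul_le_mul_of_nonneg_left e3 K.2)
    have e5 : ∀ t : ℝ, 0 ≤ t → t ≤ ‖z‖ → t ^ 2 ≤ K ^ 2 * M := by
      intro t ht0 ht
      have := pow_le_pow_left₀ ht0 (ht.trans e4) 2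
      rwa [mul_pow, Real.sq_sqrt hM0] at this
    refine ⟨fun i hi => e5 _ (norm_nonneg _) ?_, fun i hi => e5 _ (norm_nonneg _) ?_,
      e5 _ (norm_nonneg _) ?_⟩
    · exact (norm_le_pi_norm z.1 ⟨i, hi⟩).trans (norm_fst_le z)
    · exact (norm_le_pi_norm z.2.1 ⟨i, hi⟩).trans ((norm_fst_le z.2).trans (norm_snd_le z))
    · exact (norm_snd_le z.2).trans (norm_snd_le z)
  have hK1 : (0 : ℝ) < K ^ 2 := by positivity
  refine ⟨1 / (K ^ 2 * (2 * r + s + 1 + 2 * r * R ^ 2)), by positivity, ?_⟩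
  intro x hx u v w hv
  have hvec : ∀ j, vec r s x h u v w j = vec r s 0 h (fun i => u i + (x : ℂ) * w) v w j := by
    intro j
    unfold vec
    push_cast
    ring
  set M := ∑ j ∈ range (r + s), ‖vec r s x h u v w j‖ ^ 2 with hM
  have hM' : M = ∑ j ∈ range (r + s), ‖vec r s 0 h (fun i => u i + (x : ℂ) * w) v w j‖ ^ 2 := by
    rw [hM]; exact Finset.sum_congr rfl fun j _ => by rw [hvec]
  obtain ⟨k1, k2, k3⟩ := key _ v w hv M hM'
  have hx2 : x ^ 2 ≤ R ^ 2 := by
    rw [← sq_abs]; exact pow_le_pow_left₀ (abs_nonneg x) hx 2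
  have hM0 : 0 ≤ M := by rw [hM]; positivity
  have k4 : ∀ i < r, ‖u i‖ ^ 2 ≤ 2 * (K ^ 2 * M) + 2 * (R ^ 2 * (K ^ 2 * M)) := by
    intro i hi
    have e1 : ‖u i‖ ≤ ‖u i + (x : ℂ) * w‖ + |x| * ‖w‖ := by
      have : u i = (u i + (x : ℂ) * w) - (x : ℂ) * w := by ring
      calc ‖u i‖ = ‖(u i + (x : ℂ) * w) - (x : ℂ) * w‖ := by rw [← this]
        _ ≤ ‖u i + (x : ℂ) * w‖ + ‖(x : ℂ) * w‖ := norm_sub_le _ _
        _ = _ := by rw [norm_mul, Complex.norm_real, Real.norm_eq_abs]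
    have e2 := k1 i hi
    have e3 : ‖u i‖ ^ 2 ≤ (‖u i + (x : ℂ) * w‖ + |x| * ‖w‖) ^ 2 :=
      pow_le_pow_left₀ (norm_nonneg _) e1 2
    have e4 : (|x| * ‖w‖) ^ 2 ≤ R ^ 2 * (K ^ 2 * M) := by
      rw [mul_pow, sq_abs]
      exact mul_le_mul hx2 k3 (by positivity) (by positivity)
    nlinarith [sq_nonneg (‖u i + (x : ℂ) * w‖ - |x| * ‖w‖)]
  have s1 : ∑ i ∈ range r, ‖u i‖ ^ 2 ≤ r * (2 * (K ^ 2 * M) + 2 * (R ^ 2 * (K ^ 2 * M))) := by
    have := Finset.sum_le_card_nsmul (range r) (fun i => ‖u i‖ ^ 2) _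
      (fun i hi => k4 i (Finset.mem_range.1 hi))
    rw [Finset.card_range, nsmul_eq_mul] at this
    exact this
  have s2 : ∑ i ∈ range s, ‖v i‖ ^ 2 ≤ s * (K ^ 2 * M) := by
    have := Finset.sum_le_card_nsmul (range s) (fun i => ‖v i‖ ^ 2) _
      (fun i hi => k2 i (Finset.mem_range.1 hi))
    simpa using this
  rw [div_mul_eq_mul_div, one_mul, div_le_iff₀ (by positivity)]
  nlinarith [s1, s2, k3]

/-- regrouping by residues -/
theorem sum_residues (r L : ℕ) (G : ℕ → ℂ) :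
    ∑ j ∈ range (L * r), G j = ∑ i ∈ range r, ∑ l ∈ range L, G (i + l * r) := by
  induction L with
  | zero => simp
  | succ L ih =>
    rw [Nat.succ_mul, Finset.sum_range_add, ih]
    simp_rw [Finset.sum_range_succ]
    rw [Finset.sum_add_distrib]
    congr 1
    exact Finset.sum_congr rfl fun i _ => by rw [add_comm]

/-- a vector orthogonal to all the patterns vanishes -/
theorem orth_zero {r s : ℕ} (hr : 0 < r) (hs : 0 < s) (hc : Nat.Coprime r s) {x h : ℝ}
    (hh : h ≠ 0) {L : ℕ} (hL : r + s ≤ L) (F : ℕ → ℂ) (hF : ∀ j, r + s ≤ j → F j = 0)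
    (h1 : ∀ i < r, ∑ l ∈ range L, F (i + l * r) = 0)
    (h2 : ∀ i < s, ∑ l ∈ range L, F (i + l * s) = 0)
    (h3 : ∑ j ∈ range L, ((x + j * h : ℝ) : ℂ) * F j = 0) : ∀ j, F j = 0 := by
  obtain ⟨u, v, w, hz⟩ := vec_surj hr hs hc hh (x := x) (fun j => (starRingEnd ℂ) (F j))
  have ext0 : ∀ (G : ℕ → ℂ), (∀ j, r + s ≤ j → G j = 0) → ∀ n, r + s ≤ n →
      ∑ j ∈ range n, G j = ∑ j ∈ range (r + s), G j := by
    intro G hG n hn
    refine (Finset.sum_subset (Finset.range_mono hn) fun j _ hj => hG j ?_).symm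
    simpa using hj
  have hLr : r + s ≤ L * r := hL.trans (Nat.le_mul_of_pos_right _ hr)
  have hLs : r + s ≤ L * s := hL.trans (Nat.le_mul_of_pos_right _ hs)
  have a1 : ∑ j ∈ range (r + s), F j * u (j % r) = 0 := by
    rw [← ext0 (fun j => F j * u (j % r)) (fun j hj => by rw [hF j hj, zero_mul]) _ hLr,
      sum_residues]
    refine Finset.sum_eq_zero fun i hi => ?_
    have hi' := Finset.mem_range.1 hi
    have : ∀ l, F (i + l * r) * u ((i + l * r) % r) = F (i + l * r) * u i := fun l => by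
      rw [Nat.add_mul_mod_self_right, Nat.mod_eq_of_lt hi']
    simp_rw [this]
    rw [← Finset.sum_mul, h1 i hi', zero_mul]
  have a2 : ∑ j ∈ range (r + s), F j * v (j % s) = 0 := by
    rw [← ext0 (fun j => F j * v (j % s)) (fun j hj => by rw [hF j hj, zero_mul]) _ hLs,
      sum_residues]
    refine Finset.sum_eq_zero fun i hi => ?_
    have hi' := Finset.mem_range.1 hi
    have : ∀ l, F (i + l * s) * v ((i + l * s) % s) = F (i + l * s) * v i := fun l => by
      rw [Nat.add_mul_mod_self_right, Nat.mod_eq_of_lt hi']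
    simp_rw [this]
    rw [← Finset.sum_mul, h2 i hi', zero_mul]
  have a3 : ∑ j ∈ range (r + s), F j * (((x + j * h : ℝ) : ℂ) * w) = 0 := by
    rw [← ext0 (fun j => F j * (((x + j * h : ℝ) : ℂ) * w))
      (fun j hj => by rw [hF j hj, zero_mul]) _ hL]
    have : ∀ j : ℕ, F j * (((x + j * h : ℝ) : ℂ) * w) = ((x + j * h : ℝ) : ℂ) * F j * w :=
      fun j => by ring
    simp_rw [this]
    rw [← Finset.sum_mul, h3, zero_mul]
  have a4 : ∑ j ∈ range (r + s), F j * (starRingEnd ℂ) (F j) = 0 := by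
    rw [Finset.sum_congr rfl (g := fun j => F j * u (j % r) + F j * v (j % s)
      + F j * (((x + j * h : ℝ) : ℂ) * w)) (fun j hj => ?_), Finset.sum_add_distrib,
      Finset.sum_add_distrib, a1, a2, a3]
    · simp
    · rw [← hz j (Finset.mem_range.1 hj)]
      unfold vec
      ring
  have a5 : ∑ j ∈ range (r + s), ‖F j‖ ^ 2 = 0 := by
    have : ((∑ j ∈ range (r + s), ‖F j‖ ^ 2 : ℝ) : ℂ) = 0 := by
      rw [← a4]
      push_cast
      exact Finset.sum_congr rfl fun j _ => by rw [Complex.mul_conj']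
    exact_mod_cast this
  intro j
  rcases Nat.lt_or_ge j (r + s) with hj | hj
  · have := (Finset.sum_eq_zero_iff_of_nonneg (fun i _ => by positivity)).1 a5 j
      (Finset.mem_range.2 hj)
    simpa using this
  · exact hF j hj

end Pool.Agent.Q83.Rst
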