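import Pool.Agent.Q83.Rst.Compl

/-! The root system and the final theorem. -/

set_option autoImplicit false

open MeasureTheory Set Filter
open scoped Interval InnerProductSpace ENNReal

namespace Pool.Agent.Q83.Rst

variable {r s : ℕ}

theorem dC (T : ℝ) (m : ℕ) (x : ℝ) :
    HasDerivAt (C T m) (-(2 * Real.pi * m / T) * S T m x) x := by
  unfold C S
  have h2 : HasDerivAt (fun x : ℝ => 2 * Real.pi * m * x / T) (2 * Real.pi * m / T) x := by
    have := ((hasDerivAt_id x).const_mul (2 * Real.pi * m)).div_const T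
    simpa using this
  have := h2.cos
  convert this using 1
  ring

theorem dS (T : ℝ) (m : ℕ) (x : ℝ) :
    HasDerivAt (S T m) ((2 * Real.pi * m / T) * C T m x) x := by
  unfold C S
  have h2 : HasDerivAt (fun x : ℝ => 2 * Real.pi * m * x / T) (2 * Real.pi * m / T) x := by
    have := ((hasDerivAt_id x).const_mul (2 * Real.pi * m)).div_const T
    simpa using this
  have := h2.sin
  convert this using 1
  ring

/-- a real continuous function as a complex one -/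
noncomputable def RC (φ : ℝ → ℝ) (h : Continuous φ) : C(ℝ, ℂ) := ⟨fun x => (φ x : ℂ), ofReal_cont h⟩

theorem isH_real {a : ℝ} {φ φ₁ φ₂ : ℝ → ℝ} (hφ : Continuous φ) (hφ₂ : Continuous φ₂)
    (d1 : ∀ x, HasDerivAt φ (φ₁ x) x) (d2 : ∀ x, HasDerivAt φ₁ (-φ₂ x) x)
    (b1 : φ (-(Real.pi / 2)) = φ (Real.pi / 2 * a)) (b2 : φ (Real.pi / 2 * a) = φ (Real.pi / 2)) :
    IsH a (EE (RC φ hφ)) (EE (RC φ₂ hφ₂)) := by
  refine isH_of_deriv _ _ (fun x => (φ₁ x : ℂ)) (fun x => (d1 x).ofReal_comp) (fun x => ?_) ?_ ?_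
  · have h3 := (d2 x).ofReal_comp
    rw [Complex.ofReal_neg] at h3
    exact h3
  · change ((φ _ : ℝ) : ℂ) = ((φ _ : ℝ) : ℂ)
    rw [b1]
  · change ((φ _ : ℝ) : ℂ) = ((φ _ : ℝ) : ℂ)
    rw [b2]

theorem EE_RC_smul (c : ℝ) {φ : ℝ → ℝ} (hφ : Continuous φ) (h' : Continuous (fun x => c * φ x)) :
    EE (RC (fun x => c * φ x) h') = (c : ℂ) • EE (RC φ hφ) := by
  rw [← map_smul]
  congr 1
  ext x
  change ((c * φ x : ℝ) : ℂ) = (c : ℂ) * (φ x : ℂ)
  push_cast
  rfl

theorem pa1 (hr : 0 < r) : Real.pi / 2 * aa r s = Real.pi / 2 - r * hh r s := by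
  unfold aa hh
  have : (r : ℝ) + s ≠ 0 := by positivity
  field_simp
  ring

theorem pa2 (hr : 0 < r) : Real.pi / 2 * aa r s = -(Real.pi / 2) + s * hh r s := by
  unfold aa hh
  have : (r : ℝ) + s ≠ 0 := by positivity
  field_simp
  ring

/-- eigenvalues -/
noncomputable def lamR (r s : ℕ) : IX s → ℝ
  | Sum.inl (Sum.inl m) => (2 * Real.pi * m / (r * hh r s)) ^ 2
  | Sum.inl (Sum.inr m) => (2 * Real.pi * (m : ℕ) / (s * hh r s)) ^ 2
  | Sum.inr (Sum.inl n) => (2 * Real.pi * (n + 1 : ℕ) / hh r s) ^ 2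
  | Sum.inr (Sum.inr n) => (2 * Real.pi * (n + 1 : ℕ) / Real.pi) ^ 2

theorem lamR_nonneg (i : IX s) : 0 ≤ lamR r s i := by
  rcases i with (m | m) | (n | n) <;> exact sq_nonneg _

theorem Fam_eq (i : IX s) : Fam r s i = EE (RC (fam r s i) (fam_cont i)) := rfl

theorem eig1 (hr : 0 < r) (m : ℕ) : IsH (aa r s) (Fam r s (Sum.inl (Sum.inl m)))
    ((lamR r s (Sum.inl (Sum.inl m)) : ℂ) • Fam r s (Sum.inl (Sum.inl m))) := by
  have hrp : r * hh r s ≠ 0 := by
    have := hh_pos (s := s) hr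
    positivity
  rw [Fam_eq, ← EE_RC_smul _ _ ((fam_cont _).const_mul _)]
  refine isH_real (φ₁ := fun x => -(2 * Real.pi * m / (r * hh r s)) * S (r * hh r s) m x) _ _
    (fun x => dC _ _ x) (fun x => ?_) ?_ ?_
  · have := (dS (r * hh r s) m x).const_mul (-(2 * Real.pi * m / (r * hh r s)))
    refine this.congr_deriv ?_
    simp only [fam, lamR]
    ring
  · change C _ _ _ = C _ _ _
    rw [C_even, pa1 hr, ← C_per hrp m (Real.pi / 2 - r * hh r s), sub_add_cancel]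
  · change C _ _ _ = C _ _ _
    rw [pa1 hr, ← C_per hrp m (Real.pi / 2 - r * hh r s), sub_add_cancel]

theorem eig2 (hr : 0 < r) (hs : 0 < s) (m : {m : ℕ // ¬ s ∣ m}) :
    IsH (aa r s) (Fam r s (Sum.inl (Sum.inr m)))
    ((lamR r s (Sum.inl (Sum.inr m)) : ℂ) • Fam r s (Sum.inl (Sum.inr m))) := by
  have hsp : s * hh r s ≠ 0 := by
    have := hh_pos (s := s) hr
    positivity
  rw [Fam_eq, ← EE_RC_smul _ _ ((fam_cont _).const_mul _)]
  refine isH_real (φ₁ := fun x => -(2 * Real.pi * (m : ℕ) / (s * hh r s)) * S (s * hh r s) m x) _ _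
    (fun x => dC _ _ x) (fun x => ?_) ?_ ?_
  · have := (dS (s * hh r s) m x).const_mul (-(2 * Real.pi * (m : ℕ) / (s * hh r s)))
    refine this.congr_deriv ?_
    simp only [fam, lamR]
    ring
  · change C _ _ _ = C _ _ _
    rw [pa2 hr, C_per hsp]
  · change C _ _ _ = C _ _ _
    rw [pa2 hr, C_per hsp, C_even]

theorem BB_C (a : ℝ) (m : ℕ) : C Real.pi m (Real.pi / 2) = Real.cos (m * Real.pi) ∧
    S Real.pi m (Real.pi / 2) = 0 ∧ C Real.pi m (Real.pi / 2 * a) = Real.cos (m * Real.pi * a) ∧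
    S Real.pi m (Real.pi / 2 * a) = Real.sin (m * Real.pi * a) := by
  have hpi := Real.pi_ne_zero
  have e1 : 2 * Real.pi * m * (Real.pi / 2) / Real.pi = m * Real.pi := by field_simp
  have e2 : 2 * Real.pi * m * (Real.pi / 2 * a) / Real.pi = m * Real.pi * a := by field_simp
  unfold C S
  rw [e1, e2]
  exact ⟨rfl, Real.sin_nat_mul_pi m, rfl, rfl⟩

theorem eig4 (n : ℕ) : IsH (aa r s) (Fam r s (Sum.inr (Sum.inr n)))
    ((lamR r s (Sum.inr (Sum.inr n)) : ℂ) • Fam r s (Sum.inr (Sum.inr n))) := by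
  obtain ⟨q1, q2, q3, q4⟩ := BB_C (aa r s) (n + 1)
  have hrel := BB_rel (aa r s) (n + 1)
  rw [Fam_eq, ← EE_RC_smul _ _ ((fam_cont _).const_mul _)]
  refine isH_real (φ₁ := fun x => (2 * Real.pi * (n + 1 : ℕ) / Real.pi) * C Real.pi (n + 1) x
    + BB (aa r s) (n + 1) * (-(2 * Real.pi * (n + 1 : ℕ) / Real.pi) * S Real.pi (n + 1) x)) _ _
    (fun x => (dS _ _ x).add ((dC _ _ x).const_mul _)) (fun x => ?_) ?_ ?_
  · have := ((dC Real.pi (n + 1) x).const_mul (2 * Real.pi * (n + 1 : ℕ) / Real.pi)).add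
      (((dS Real.pi (n + 1) x).const_mul (-(2 * Real.pi * (n + 1 : ℕ) / Real.pi))).const_mul
        (BB (aa r s) (n + 1)))
    refine this.congr_deriv ?_
    simp only [fam, lamR]
    ring
  · change S _ _ _ + _ * C _ _ _ = S _ _ _ + _ * C _ _ _
    rw [S_odd, C_even, q1, q2, q3, q4, neg_zero, zero_add]
    exact hrel
  · change S _ _ _ + _ * C _ _ _ = S _ _ _ + _ * C _ _ _
    rw [q1, q2, q3, q4, zero_add]
    exact hrel.symm

theorem S_half {h : ℝ} (hh0 : h ≠ 0) (m : ℕ) (k : ℤ) : S h m (k * h / 2) = 0 := by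
  unfold S
  have : 2 * Real.pi * m * (k * h / 2) / h = ((m * k : ℤ) : ℝ) * Real.pi := by
    push_cast
    field_simp
  rw [this, Real.sin_int_mul_pi]

theorem eig3 (hr : 0 < r) (n : ℕ) : IsH (aa r s) (Fam r s (Sum.inr (Sum.inl n)))
    ((lamR r s (Sum.inr (Sum.inl n)) : ℂ) • Fam r s (Sum.inr (Sum.inl n))
      + ((-2 * (2 * Real.pi * (n + 1 : ℕ) / hh r s) : ℝ) : ℂ)
        • Fam r s (Sum.inl (Sum.inl (r * (n + 1))))) := by
  have hh0 := hh_pos (s := s) hr
  have hmul := hh_mul (s := s) hr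
  have hr0 : (r : ℝ) ≠ 0 := by positivity
  have e : (lamR r s (Sum.inr (Sum.inl n)) : ℂ) • Fam r s (Sum.inr (Sum.inl n))
      + ((-2 * (2 * Real.pi * (n + 1 : ℕ) / hh r s) : ℝ) : ℂ)
        • Fam r s (Sum.inl (Sum.inl (r * (n + 1))))
      = EE (RC (fun x => lamR r s (Sum.inr (Sum.inl n)) * (x * S (hh r s) (n + 1) x)
        + (-2 * (2 * Real.pi * (n + 1 : ℕ) / hh r s)) * C (hh r s) (n + 1) x)
        (((continuous_id.mul (S_cont _ _)).const_mul _).add ((C_cont _ _).const_mul _))) := by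
    unfold Fam
    rw [← map_smul, ← map_smul, ← map_add]
    congr 1
    ext x
    change (lamR r s (Sum.inr (Sum.inl n)) : ℂ) * ((x * S (hh r s) (n + 1) x : ℝ) : ℂ)
      + ((-2 * (2 * Real.pi * (n + 1 : ℕ) / hh r s) : ℝ) : ℂ)
        * ((C (r * hh r s) (r * (n + 1)) x : ℝ) : ℂ)
      = ((lamR r s (Sum.inr (Sum.inl n)) * (x * S (hh r s) (n + 1) x)
        + (-2 * (2 * Real.pi * (n + 1 : ℕ) / hh r s)) * C (hh r s) (n + 1) x : ℝ) : ℂ)
    have e1 : C (r * hh r s) (r * (n + 1)) x = C (hh r s) (n + 1) x := by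
      unfold C
      congr 1
      push_cast
      field_simp
    rw [e1]
    push_cast
    ring
  rw [e, Fam_eq]
  refine isH_real (φ₁ := fun x => 1 * S (hh r s) (n + 1) x
    + x * ((2 * Real.pi * (n + 1 : ℕ) / hh r s) * C (hh r s) (n + 1) x)) _ _
    (fun x => (hasDerivAt_id x).mul (dS _ _ x)) (fun x => ?_) ?_ ?_
  · have := ((dS (hh r s) (n + 1) x).const_mul 1).add
      ((hasDerivAt_id x).mul ((dC (hh r s) (n + 1) x).const_mul
        (2 * Real.pi * (n + 1 : ℕ) / hh r s)))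
    refine this.congr_deriv ?_
    simp only [lamR, id]
    ring
  · change _ * S _ _ _ = _ * S _ _ _
    have p1 : -(Real.pi / 2) = ((-((r : ℤ) + s) : ℤ) : ℝ) * hh r s / 2 := by
      push_cast; linarith
    have p2 : Real.pi / 2 * aa r s = (((s : ℤ) - r : ℤ) : ℝ) * hh r s / 2 := by
      rw [pa2 hr]; push_cast; linarith
    rw [p1, p2, S_half hh0.ne', S_half hh0.ne', mul_zero, mul_zero]
  · change _ * S _ _ _ = _ * S _ _ _
    have p1 : Real.pi / 2 = ((((r : ℤ) + s) : ℤ) : ℝ) * hh r s / 2 := by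
      push_cast; linarith
    have p2 : Real.pi / 2 * aa r s = (((s : ℤ) - r : ℤ) : ℝ) * hh r s / 2 := by
      rw [pa2 hr]; push_cast; linarith
    rw [p2, S_half hh0.ne', mul_zero]
    conv_rhs => rw [p1]
    rw [S_half hh0.ne', mul_zero]

/-- the spectral parameters -/
noncomputable def lam (r s : ℕ) (i : IX s) : ℂ := (lamR r s i : ℂ)

theorem lam_ne (i : IX s) : lam r s i + 1 ≠ 0 := by
  have := lamR_nonneg (r := r) i
  unfold lam
  exact_mod_cast (by linarith : (0 : ℝ) < lamR r s i + 1).ne'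

theorem rel (hr : 0 < r) (hs : 0 < s) (i : IX s) : ∃ (j : IX s) (d : ℂ),
    lam r s j = lam r s i ∧ IsH (aa r s) (Fam r s j) (lam r s j • Fam r s j) ∧
    IsH (aa r s) (Fam r s i) (lam r s i • Fam r s i + d • Fam r s j) := by
  rcases i with (m | m) | (n | n)
  · exact ⟨_, 0, rfl, eig1 hr m, by rw [zero_smul, add_zero]; exact eig1 hr m⟩
  · exact ⟨_, 0, rfl, eig2 hr hs m, by rw [zero_smul, add_zero]; exact eig2 hr hs m⟩
  · refine ⟨Sum.inl (Sum.inl (r * (n + 1))), _, ?_, eig1 hr _, eig3 hr n⟩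
    unfold lam
    congr 1
    simp only [lamR]
    have hh0 := hh_pos (s := s) hr
    have hr0 : (r : ℝ) ≠ 0 := by positivity
    congr 1
    push_cast
    field_simp
  · exact ⟨_, 0, rfl, eig4 n, by rw [zero_smul, add_zero]; exact eig4 n⟩

theorem aa_mem (hr : 0 < r) (hs : 0 < s) : -1 < aa r s ∧ aa r s < 1 := by
  have h1 : (0 : ℝ) < r := by exact_mod_cast hr
  have h2 : (0 : ℝ) < s := by exact_mod_cast hs
  unfold aa
  constructor
  · rw [lt_div_iff₀ (by positivity)]; linarith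
  · rw [div_lt_iff₀ (by positivity)]; linarith

theorem isH_SS_eig {a : ℝ} (h1 : -1 < a) (h2 : a < 1) {ψ : L2I} {μ : ℂ} (hμ : μ + 1 ≠ 0)
    (h : IsH a ψ (μ • ψ)) : SS h1 h2 ψ = (μ + 1)⁻¹ • ψ := by
  rw [isH_iff h1 h2] at h
  have e : μ • ψ + ψ = (μ + 1) • ψ := by rw [add_smul, one_smul]
  rw [e, map_smul] at h
  conv_rhs => rw [h]
  rw [smul_smul, inv_mul_cancel₀ hμ, one_smul]

theorem isH_SS_gen {a : ℝ} (h1 : -1 < a) (h2 : a < 1) {ψ ψ' : L2I} {μ d : ℂ} (hμ : μ + 1 ≠ 0)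
    (h' : IsH a ψ' (μ • ψ')) (h : IsH a ψ (μ • ψ + d • ψ')) :
    SS h1 h2 ψ = (μ + 1)⁻¹ • ψ - (d * ((μ + 1)⁻¹) ^ 2) • ψ' := by
  have e' := isH_SS_eig h1 h2 hμ h'
  rw [isH_iff h1 h2] at h
  have e : μ • ψ + d • ψ' + ψ = (μ + 1) • ψ + d • ψ' := by rw [add_smul, one_smul]; abel
  rw [e, map_add, map_smul, map_smul, e'] at h
  have h3 : SS h1 h2 ψ = (μ + 1)⁻¹ • ψ - (μ + 1)⁻¹ • (d • (μ + 1)⁻¹ • ψ') := by
    conv_rhs => rw [h]
    rw [smul_add, smul_smul, inv_mul_cancel₀ hμ, one_smul, add_sub_cancel_right]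
  rw [h3, smul_smul, smul_smul]
  congr 2
  ring

section main

variable (hr : 0 < r) (hs : 0 < s)
include hr hs

theorem coef_identity {κ : IX s → L2I →L[ℂ] ℂ}
    (k1 : ∀ i j, κ i (Fam r s j) = if i = j then 1 else 0)
    (k2 : ∀ f, HasSum (fun i => κ i f • Fam r s i) f) (i : IX s) (f : L2I) :
    κ i (SS (aa_mem hr hs).1 (aa_mem hr hs).2 (SS (aa_mem hr hs).1 (aa_mem hr hs).2 f))
      = 2 * (lam r s i + 1)⁻¹ * κ i (SS (aa_mem hr hs).1 (aa_mem hr hs).2 f)
        - ((lam r s i + 1)⁻¹) ^ 2 * κ i f := by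
  set h1 := (aa_mem hr hs).1
  set h2 := (aa_mem hr hs).2
  set c := (lam r s i + 1)⁻¹ with hc
  set L : L2I →L[ℂ] ℂ := ((κ i).comp (SS h1 h2)).comp (SS h1 h2)
    - (2 * c) • (κ i).comp (SS h1 h2) + (c ^ 2) • κ i with hL
  have hLv : ∀ f, L f = κ i (SS h1 h2 (SS h1 h2 f)) - 2 * c * κ i (SS h1 h2 f) + c ^ 2 * κ i f := by
    intro f; rfl
  have hLz : ∀ j, L (Fam r s j) = 0 := by
    intro j
    obtain ⟨p, d, e1, e2, e3⟩ := rel hr hs j
    rw [e1] at e2
    have s1 := isH_SS_eig h1 h2 (lam_ne j) e2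
    have s2 := isH_SS_gen h1 h2 (lam_ne j) e2 e3
    set e := (lam r s j + 1)⁻¹
    by_cases hij : lam r s j = lam r s i
    · have hec : e = c := by rw [hc, ← hij]
      rw [hLv, s2, map_sub, map_smul, map_smul, s2, s1, hec]
      simp only [map_sub, map_smul, smul_eq_mul]
      ring
    · have n1 : i ≠ j := fun h => hij (by rw [h])
      have n2 : i ≠ p := fun h => hij (by rw [h, e1])
      rw [hLv, s2, map_sub, map_smul, map_smul, s2, s1]
      simp only [map_sub, map_smul, smul_eq_mul, k1, if_neg n1, if_neg n2]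
      ring
  have h3 : HasSum (fun j => κ j f • L (Fam r s j)) (L f) := by
    have := (k2 f).mapL L
    simpa using this
  simp_rw [hLz, smul_zero] at h3
  have h4 : L f = 0 := h3.unique hasSum_zero
  rw [hLv] at h4
  linear_combination h4

theorem Fam_InKer (i : IX s) : InKer (aa r s) (lam r s i) 2 (Fam r s i) := by
  obtain ⟨p, d, e1, e2, e3⟩ := rel hr hs i
  rw [e1] at e2
  refine ⟨_, e3, ?_⟩
  rw [add_sub_cancel_left]
  refine InKer_smul (aa_mem hr hs).1 (aa_mem hr hs).2 d ?_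
  refine ⟨_, e2, ?_⟩
  rw [sub_self]
  rfl

end main

theorem om_inj {T : ℝ} (hT : 0 < T) {m m' : ℕ}
    (h : (2 * Real.pi * m / T) ^ 2 = (2 * Real.pi * m' / T) ^ 2) : m = m' := by
  have hpi := Real.pi_pos
  have h1 : 2 * Real.pi * m / T = 2 * Real.pi * m' / T := by
    rwa [sq_eq_sq₀ (by positivity) (by positivity)] at h
  rw [div_left_inj' hT.ne'] at h1
  have h2 : (m : ℝ) = m' := mul_left_cancel₀ (by positivity) h1
  exact_mod_cast h2

theorem fin_lam (hr : 0 < r) (hs : 0 < s) (μ : ℂ) : {i : IX s | lam r s i = μ}.Finite := by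
  have hh0 := hh_pos (s := s) hr
  have hrp : 0 < r * hh r s := by positivity
  have hsp : 0 < s * hh r s := by positivity
  have f1 : {m : ℕ | lam r s (Sum.inl (Sum.inl m)) = μ}.Finite := by
    refine Set.Subsingleton.finite fun m hm m' hm' => om_inj hrp ?_
    have : lam r s (Sum.inl (Sum.inl m)) = lam r s (Sum.inl (Sum.inl m')) := hm.trans hm'.symm
    exact Complex.ofReal_injective this
  have f2 : {m : {m : ℕ // ¬ s ∣ m} | lam r s (Sum.inl (Sum.inr m)) = μ}.Finite := by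
    refine Set.Subsingleton.finite fun m hm m' hm' => Subtype.ext (om_inj hsp ?_)
    have : lam r s (Sum.inl (Sum.inr m)) = lam r s (Sum.inl (Sum.inr m')) := hm.trans hm'.symm
    exact Complex.ofReal_injective this
  have f3 : {m : ℕ | lam r s (Sum.inr (Sum.inl m)) = μ}.Finite := by
    refine Set.Subsingleton.finite fun m hm m' hm' => ?_
    have : lam r s (Sum.inr (Sum.inl m)) = lam r s (Sum.inr (Sum.inl m')) := hm.trans hm'.symm
    have h3 := om_inj hh0 (m := m + 1) (m' := m' + 1) (Complex.ofReal_injective this)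
    omega
  have f4 : {m : ℕ | lam r s (Sum.inr (Sum.inr m)) = μ}.Finite := by
    refine Set.Subsingleton.finite fun m hm m' hm' => ?_
    have : lam r s (Sum.inr (Sum.inr m)) = lam r s (Sum.inr (Sum.inr m')) := hm.trans hm'.symm
    have h3 := om_inj Real.pi_pos (m := m + 1) (m' := m' + 1) (Complex.ofReal_injective this)
    omega
  refine (((f1.image (fun m => (Sum.inl (Sum.inl m) : IX s))).union
    (f2.image (fun m => (Sum.inl (Sum.inr m) : IX s)))).union
    ((f3.image (fun m => (Sum.inr (Sum.inl m) : IX s))).union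
    (f4.image (fun m => (Sum.inr (Sum.inr m) : IX s))))).subset ?_
  rintro ((m | m) | (n | n)) hi
  · exact Or.inl (Or.inl ⟨m, hi, rfl⟩)
  · exact Or.inl (Or.inr ⟨m, hi, rfl⟩)
  · exact Or.inr (Or.inl ⟨n, hi, rfl⟩)
  · exact Or.inr (Or.inr ⟨n, hi, rfl⟩)

/-- the root subspace of `H` for `μ` -/
def rootSpace (a : ℝ) (μ : ℂ) : Set L2I := {ψ | ∃ k, InKer a μ k ψ}

theorem root_eq (hr : 0 < r) (hs : 0 < s) {κ : IX s → L2I →L[ℂ] ℂ}
    (k1 : ∀ i j, κ i (Fam r s j) = if i = j then 1 else 0)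
    (k2 : ∀ f, HasSum (fun i => κ i f • Fam r s i) f) (μ : ℂ) :
    (Submodule.span ℂ (Fam r s '' {i | lam r s i = μ}) : Set L2I) = rootSpace (aa r s) μ := by
  have h1 := (aa_mem hr hs).1
  have h2 := (aa_mem hr hs).2
  apply Set.Subset.antisymm
  · intro ψ hψ
    refine ⟨2, ?_⟩
    refine Submodule.span_induction (p := fun ψ _ => InKer (aa r s) μ 2 ψ) ?_ ?_ ?_ ?_ hψ
    · rintro _ ⟨i, hi, rfl⟩
      have := Fam_InKer hr hs i
      rwa [hi] at this
    · exact InKer_zero h1 h2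
    · intro x y _ _ hx hy
      exact InKer_add h1 h2 hx hy
    · intro c x _ hx
      exact InKer_smul h1 h2 c hx
  · rintro ψ ⟨k, hk⟩
    have h3 : ∀ i, lam r s i ≠ μ → κ i ψ = 0 := by
      intro i hi
      refine (coef_zero h1 h2 (c := (lam r s i + 1)⁻¹) (coef_identity hr hs k1 k2 i) ?_ hk).1
      intro h4
      apply hi
      have h5 : μ + 1 = lam r s i + 1 := by
        have := lam_ne (r := r) i
        field_simp at h4
        exact h4
      exact (add_right_cancel h5).symm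
    have hfin := fin_lam hr hs μ
    have h4 : HasSum (fun i => κ i ψ • Fam r s i) (∑ i ∈ hfin.toFinset, κ i ψ • Fam r s i) := by
      refine hasSum_sum_of_ne_finset_zero fun i hi => ?_
      rw [h3 i (fun h => hi (hfin.mem_toFinset.2 h)), zero_smul]
    rw [(k2 ψ).unique h4]
    refine Submodule.sum_mem _ fun i hi => Submodule.smul_mem _ _ (Submodule.subset_span ?_)
    exact ⟨i, hfin.mem_toFinset.1 hi, rfl⟩

end Pool.Agent.Q83.Rst
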