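import Pool.Agent.Q83.Rst.Tri

/-! The operator, its resolvent at `-1`, and uniqueness. -/

set_option autoImplicit false

open MeasureTheory Set Filter
open scoped Interval InnerProductSpace ENNReal

namespace Pool.Agent.Q83.Rst

/-- `IsH a ψ φ`: the function `ψ` lies in the domain of the point-restart Laplacian and `H ψ = φ`.
`w` is the representative of `ψ` in `H²` and `v = w'`. -/
def IsH (a : ℝ) (ψ φ : L2I) : Prop :=
  ∃ w v : ℝ → ℂ,
    (∀ x ∈ Icc (-(Real.pi / 2)) (Real.pi / 2),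
      v x = v (-(Real.pi / 2)) - ∫ t in (-(Real.pi / 2))..x, φ t) ∧
    (∀ x ∈ Icc (-(Real.pi / 2)) (Real.pi / 2),
      w x = w (-(Real.pi / 2)) + ∫ t in (-(Real.pi / 2))..x, v t) ∧
    (ψ =ᵐ[volume.restrict II] w) ∧
    w (-(Real.pi / 2)) = w (Real.pi / 2 * a) ∧ w (Real.pi / 2 * a) = w (Real.pi / 2)

theorem f_int (f : L2I) : IntegrableOn (f : ℝ → ℂ) (Icc (-(Real.pi / 2)) (Real.pi / 2)) := by
  rw [integrableOn_Icc_iff_integrableOn_Ioc, IntegrableOn, restrict_Ioc_eq]
  exact (Lp.memLp f).integrable (by norm_num)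

theorem f_intv (f : L2I) {x y : ℝ} (hx : x ∈ Icc (-(Real.pi / 2)) (Real.pi / 2))
    (hy : y ∈ Icc (-(Real.pi / 2)) (Real.pi / 2)) : IntervalIntegrable (f : ℝ → ℂ) volume x y := by
  rw [intervalIntegrable_iff]
  exact (f_int f).mono_set (uIoc_subset_uIcc.trans (uIcc_subset_Icc hx hy))

theorem left_mem : -(Real.pi / 2) ∈ Icc (-(Real.pi / 2)) (Real.pi / 2) := left_mem_Icc.2 pi_le
theorem right_mem : Real.pi / 2 ∈ Icc (-(Real.pi / 2)) (Real.pi / 2) := right_mem_Icc.2 pi_le

theorem f_norm : ∃ M : ℝ, 0 ≤ M ∧ ∀ f : L2I, ∫ x, ‖f x‖ ∂(volume.restrict II) ≤ M * ‖f‖ := by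
  refine ⟨((volume.restrict II) Set.univ ^
    (1 / (1 : ℝ≥0∞).toReal - 1 / (2 : ℝ≥0∞).toReal)).toReal, by positivity, fun f => ?_⟩
  have h1 := eLpNorm_le_eLpNorm_mul_rpow_measure_univ (p := 1) (q := 2) (by norm_num)
    (Lp.aestronglyMeasurable f)
  rw [integral_norm_eq_lintegral_enorm (Lp.aestronglyMeasurable f),
    ← eLpNorm_one_eq_lintegral_enorm, Lp.norm_def, mul_comm, ← ENNReal.toReal_mul]
  refine ENNReal.toReal_mono ?_ h1
  refine ENNReal.mul_ne_top (Lp.eLpNorm_ne_top f) ?_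
  refine ENNReal.rpow_ne_top_of_nonneg (by norm_num) (measure_ne_top _ _)

/-- convolution on the half line -/
noncomputable def KK (κ : ℝ → ℝ) (f : L2I) (x : ℝ) : ℂ :=
  ∫ t in (-(Real.pi / 2))..x, (κ (x - t) : ℂ) * f t

/-- weighted primitive -/
noncomputable def PP (κ : ℝ → ℝ) (f : L2I) (x : ℝ) : ℂ :=
  ∫ t in (-(Real.pi / 2))..x, (κ t : ℂ) * f t

theorem mul_intv (f : L2I) {g : ℝ → ℝ} (hg : Continuous g) {x y : ℝ}
    (hx : x ∈ Icc (-(Real.pi / 2)) (Real.pi / 2))
    (hy : y ∈ Icc (-(Real.pi / 2)) (Real.pi / 2)) :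
    IntervalIntegrable (fun t => (g t : ℂ) * f t) volume x y :=
  (f_intv f hx hy).continuousOn_mul (Complex.continuous_ofReal.comp hg).continuousOn

theorem PP_cont {κ : ℝ → ℝ} (hκ : Continuous κ) (f : L2I) :
    ContinuousOn (PP κ f) (Icc (-(Real.pi / 2)) (Real.pi / 2)) := by
  have h := intervalIntegral.continuousOn_primitive_interval'
    (mul_intv f hκ left_mem right_mem) left_mem_uIcc
  rwa [uIcc_of_le pi_le] at h

theorem KK_sinh (f : L2I) {x : ℝ} (hx : x ∈ Icc (-(Real.pi / 2)) (Real.pi / 2)) :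
    KK Real.sinh f x = Real.sinh x * PP Real.cosh f x - Real.cosh x * PP Real.sinh f x := by
  unfold KK PP
  rw [← intervalIntegral.integral_const_mul, ← intervalIntegral.integral_const_mul,
    ← intervalIntegral.integral_sub ((mul_intv f Real.continuous_cosh left_mem hx).const_mul _)
      ((mul_intv f Real.continuous_sinh left_mem hx).const_mul _)]
  refine intervalIntegral.integral_congr fun t _ => ?_
  rw [Real.sinh_sub]
  push_cast
  ring

theorem KK_cosh (f : L2I) {x : ℝ} (hx : x ∈ Icc (-(Real.pi / 2)) (Real.pi / 2)) :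
    KK Real.cosh f x = Real.cosh x * PP Real.cosh f x - Real.sinh x * PP Real.sinh f x := by
  unfold KK PP
  rw [← intervalIntegral.integral_const_mul, ← intervalIntegral.integral_const_mul,
    ← intervalIntegral.integral_sub ((mul_intv f Real.continuous_cosh left_mem hx).const_mul _)
      ((mul_intv f Real.continuous_sinh left_mem hx).const_mul _)]
  refine intervalIntegral.integral_congr fun t _ => ?_
  rw [Real.cosh_sub]
  push_cast
  ring

theorem KKs_cont (f : L2I) :
    ContinuousOn (KK Real.sinh f) (Icc (-(Real.pi / 2)) (Real.pi / 2)) := by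
  refine ContinuousOn.congr ?_ fun x hx => KK_sinh f hx
  have h1 := PP_cont Real.continuous_cosh f
  have h2 := PP_cont Real.continuous_sinh f
  fun_prop

theorem KKc_cont (f : L2I) :
    ContinuousOn (KK Real.cosh f) (Icc (-(Real.pi / 2)) (Real.pi / 2)) := by
  refine ContinuousOn.congr ?_ fun x hx => KK_cosh f hx
  have h1 := PP_cont Real.continuous_cosh f
  have h2 := PP_cont Real.continuous_sinh f
  fun_prop

theorem ae_sub {P : ℝ → Prop} (h : ∀ᵐ x ∂(volume.restrict II), P x) {x y : ℝ}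
    (hx : x ∈ Icc (-(Real.pi / 2)) (Real.pi / 2))
    (hy : y ∈ Icc (-(Real.pi / 2)) (Real.pi / 2)) : ∀ᵐ t, t ∈ Ι x y → P t := by
  have h1 : ∀ᵐ x ∂(volume.restrict (Icc (-(Real.pi / 2)) (Real.pi / 2))), P x := by
    rwa [Measure.restrict_congr_set Ioc_ae_eq_Icc.symm, restrict_Ioc_eq]
  have h2 := (ae_restrict_iff' measurableSet_Icc).1 h1
  filter_upwards [h2] with t ht htt
  exact ht ((uIoc_subset_uIcc.trans (uIcc_subset_Icc hx hy)) htt)

theorem KK_add {κ : ℝ → ℝ} (hκ : Continuous κ) (f g : L2I) {x : ℝ}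
    (hx : x ∈ Icc (-(Real.pi / 2)) (Real.pi / 2)) : KK κ (f + g) x = KK κ f x + KK κ g x := by
  unfold KK
  have hc : Continuous (fun t => κ (x - t)) := hκ.comp (continuous_const.sub continuous_id)
  rw [← intervalIntegral.integral_add (mul_intv f hc left_mem hx) (mul_intv g hc left_mem hx)]
  refine intervalIntegral.integral_congr_ae ?_
  filter_upwards [ae_sub (Lp.coeFn_add f g) left_mem hx] with t ht htt
  rw [ht htt, Pi.add_apply, mul_add]

theorem KK_smul {κ : ℝ → ℝ} (c : ℂ) (f : L2I) {x : ℝ}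
    (hx : x ∈ Icc (-(Real.pi / 2)) (Real.pi / 2)) : KK κ (c • f) x = c * KK κ f x := by
  unfold KK
  rw [← intervalIntegral.integral_const_mul]
  refine intervalIntegral.integral_congr_ae ?_
  filter_upwards [ae_sub (Lp.coeFn_smul c f) left_mem hx] with t ht htt
  rw [ht htt, Pi.smul_apply, smul_eq_mul]
  ring

theorem KK_bound {κ : ℝ → ℝ} (hκ : Continuous κ) : ∃ M : ℝ, 0 ≤ M ∧ ∀ (f : L2I) (x : ℝ),
    x ∈ Icc (-(Real.pi / 2)) (Real.pi / 2) → ‖KK κ f x‖ ≤ M * ‖f‖ := by
  obtain ⟨M, hM⟩ := (isCompact_Icc (a := -Real.pi) (b := Real.pi)).exists_bound_of_continuousOn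
    hκ.continuousOn
  obtain ⟨M', hM'0, hM'⟩ := f_norm
  refine ⟨max M 0 * M', by positivity, fun f x hx => ?_⟩
  unfold KK
  have hc : Continuous (fun t => κ (x - t)) := hκ.comp (continuous_const.sub continuous_id)
  refine (intervalIntegral.norm_integral_le_integral_norm hx.1).trans ?_
  have h1 : ∫ t in (-(Real.pi / 2))..x, ‖(κ (x - t) : ℂ) * f t‖
      ≤ ∫ t in (-(Real.pi / 2))..x, max M 0 * ‖f t‖ := by
    refine intervalIntegral.integral_mono_on hx.1 (mul_intv f hc left_mem hx).norm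
      ((f_intv f left_mem hx).norm.const_mul _) fun t ht => ?_
    rw [norm_mul, Complex.norm_real]
    refine mul_le_mul_of_nonneg_right ?_ (norm_nonneg _)
    exact (hM _ ⟨by linarith [ht.2, Real.pi_pos], by linarith [ht.1, hx.2]⟩).trans (le_max_left _ _)
  refine h1.trans ?_
  rw [intervalIntegral.integral_const_mul, mul_assoc]
  refine mul_le_mul_of_nonneg_left ((le_trans ?_) (hM' f)) (le_max_right _ _)
  have h2 : ∫ x in II, ‖f x‖ = ∫ x in (-(Real.pi / 2))..(Real.pi / 2), ‖f x‖ := by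
    rw [intervalIntegral.integral_of_le pi_le]
    exact setIntegral_congr_set Ioo_ae_eq_Ioc
  rw [h2]
  exact intervalIntegral.integral_mono_interval le_rfl hx.1 hx.2
    (Eventually.of_forall fun x => norm_nonneg _) (f_intv f left_mem right_mem).norm

end Pool.Agent.Q83.Rst
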