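import Pool.Agent.Q83.Rst.Op

/-! The resolvent at `-1`. -/

set_option autoImplicit false

open MeasureTheory Set Filter
open scoped Interval InnerProductSpace ENNReal

namespace Pool.Agent.Q83.Rst

noncomputable def Bc (f : L2I) : ℂ :=
  KK Real.sinh f (Real.pi / 2) / ((2 * Real.sinh (Real.pi / 2) : ℝ) : ℂ)

noncomputable def Ac (a : ℝ) (f : L2I) : ℂ :=
  (-KK Real.sinh f (Real.pi / 2 * a)
    + Bc f * ((Real.sinh (Real.pi / 2 * a) + Real.sinh (Real.pi / 2) : ℝ) : ℂ))
    / ((Real.cosh (Real.pi / 2) - Real.cosh (Real.pi / 2 * a) : ℝ) : ℂ)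

noncomputable def wf (a : ℝ) (f : L2I) (x : ℝ) : ℂ :=
  -KK Real.sinh f x + Ac a f * (Real.cosh x : ℂ) + Bc f * (Real.sinh x : ℂ)

noncomputable def vf (a : ℝ) (f : L2I) (x : ℝ) : ℂ :=
  -KK Real.cosh f x + Ac a f * (Real.sinh x : ℂ) + Bc f * (Real.cosh x : ℂ)

theorem ofReal_cont {g : ℝ → ℝ} (h : Continuous g) : Continuous (fun x => (g x : ℂ)) :=
  Complex.continuous_ofReal.comp h

theorem wf_cont (a : ℝ) (f : L2I) :
    ContinuousOn (wf a f) (Icc (-(Real.pi / 2)) (Real.pi / 2)) := by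
  unfold wf
  have h1 := KKs_cont f
  have h2 := (ofReal_cont Real.continuous_cosh)
  have h3 := (ofReal_cont Real.continuous_sinh)
  fun_prop

theorem vf_cont (a : ℝ) (f : L2I) :
    ContinuousOn (vf a f) (Icc (-(Real.pi / 2)) (Real.pi / 2)) := by
  unfold vf
  have h1 := KKc_cont f
  have h2 := (ofReal_cont Real.continuous_cosh)
  have h3 := (ofReal_cont Real.continuous_sinh)
  fun_prop

theorem mem_a {a : ℝ} (h1 : -1 < a) (h2 : a < 1) :
    Real.pi / 2 * a ∈ Icc (-(Real.pi / 2)) (Real.pi / 2) := by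
  constructor <;> nlinarith [Real.pi_pos]

section lin

variable {a : ℝ} (h1 : -1 < a) (h2 : a < 1)
include h1 h2

theorem wf_add (f g : L2I) {x : ℝ} (hx : x ∈ Icc (-(Real.pi / 2)) (Real.pi / 2)) :
    wf a (f + g) x = wf a f x + wf a g x := by
  unfold wf Ac Bc
  rw [KK_add Real.continuous_sinh f g hx, KK_add Real.continuous_sinh f g right_mem,
    KK_add Real.continuous_sinh f g (mem_a h1 h2)]
  ring

theorem wf_smul (c : ℂ) (f : L2I) {x : ℝ} (hx : x ∈ Icc (-(Real.pi / 2)) (Real.pi / 2)) :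
    wf a (c • f) x = c * wf a f x := by
  unfold wf Ac Bc
  rw [KK_smul c f hx, KK_smul c f right_mem, KK_smul c f (mem_a h1 h2)]
  ring

theorem wf_bound : ∃ M : ℝ, 0 ≤ M ∧ ∀ (f : L2I) (x : ℝ),
    x ∈ Icc (-(Real.pi / 2)) (Real.pi / 2) → ‖wf a f x‖ ≤ M * ‖f‖ := by
  obtain ⟨M, hM0, hM⟩ := KK_bound Real.continuous_sinh
  obtain ⟨c1, hc1⟩ := (isCompact_Icc (a := -(Real.pi / 2)) (b := Real.pi / 2)
    ).exists_bound_of_continuousOn Real.continuous_cosh.continuousOn
  obtain ⟨c2, hc2⟩ := (isCompact_Icc (a := -(Real.pi / 2)) (b := Real.pi / 2)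
    ).exists_bound_of_continuousOn Real.continuous_sinh.continuousOn
  set β1 : ℝ := ‖((2 * Real.sinh (Real.pi / 2) : ℝ) : ℂ)‖
  set β2 : ℝ := ‖((Real.cosh (Real.pi / 2) - Real.cosh (Real.pi / 2 * a) : ℝ) : ℂ)‖
  set β3 : ℝ := ‖((Real.sinh (Real.pi / 2 * a) + Real.sinh (Real.pi / 2) : ℝ) : ℂ)‖
  have hβ1 : 0 ≤ β1 := norm_nonneg _
  have hβ2 : 0 ≤ β2 := norm_nonneg _
  have hβ3 : 0 ≤ β3 := norm_nonneg _
  have hB : ∀ f : L2I, ‖Bc f‖ ≤ (M / β1) * ‖f‖ := by
    intro f
    unfold Bc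
    rw [norm_div, div_mul_eq_mul_div M β1 ‖f‖]
    exact div_le_div_of_nonneg_right (hM f (Real.pi / 2) right_mem) (norm_nonneg _)
  have hA : ∀ f : L2I, ‖Ac a f‖ ≤ ((M + M / β1 * β3) / β2) * ‖f‖ := by
    intro f
    unfold Ac
    rw [norm_div, div_mul_eq_mul_div (M + M / β1 * β3) β2 ‖f‖]
    refine div_le_div_of_nonneg_right ?_ hβ2
    refine (norm_add_le _ _).trans ?_
    rw [norm_neg, norm_mul, add_mul]
    refine add_le_add (hM f _ (mem_a h1 h2)) ?_
    have := mul_le_mul_of_nonneg_right (hB f) (norm_nonneg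
      (((Real.sinh (Real.pi / 2 * a) + Real.sinh (Real.pi / 2) : ℝ)) : ℂ))
    linarith
  refine ⟨M + ((M + M / β1 * β3) / β2) * max c1 0 + (M / β1) * max c2 0, by positivity,
    fun f x hx => ?_⟩
  unfold wf
  refine (norm_add₃_le).trans ?_
  rw [norm_neg, norm_mul, norm_mul, add_mul, add_mul, Complex.norm_real, Complex.norm_real]
  refine add_le_add (add_le_add (hM f x hx) ?_) ?_
  · have := mul_le_mul (hA f) ((hc1 x hx).trans (le_max_left _ 0)) (norm_nonneg _) (by positivity)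
    linarith
  · have := mul_le_mul (hB f) ((hc2 x hx).trans (le_max_left _ 0)) (norm_nonneg _) (by positivity)
    linarith

/-- the resolvent as a linear map -/
noncomputable def SSlin : L2I →ₗ[ℂ] L2I where
  toFun f := (memLp_of_contOn (wf_cont a f)).toLp (wf a f)
  map_add' f g := by
    rw [← MemLp.toLp_add]
    refine MemLp.toLp_congr _ _ ?_
    refine (ae_restrict_iff' measurableSet_Ioo).2 (Eventually.of_forall fun x hx => ?_)
    exact wf_add h1 h2 f g (Ioo_subset_Icc_self hx)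
  map_smul' c f := by
    rw [RingHom.id_apply, ← MemLp.toLp_const_smul]
    refine MemLp.toLp_congr _ _ ?_
    refine (ae_restrict_iff' measurableSet_Ioo).2 (Eventually.of_forall fun x hx => ?_)
    exact wf_smul h1 h2 c f (Ioo_subset_Icc_self hx)

theorem SSlin_coe (f : L2I) : (SSlin h1 h2 f : ℝ → ℂ) =ᵐ[volume.restrict II] wf a f :=
  (memLp_of_contOn (wf_cont a f)).coeFn_toLp

theorem SSlin_bound : ∃ M : ℝ, ∀ f : L2I, ‖SSlin h1 h2 f‖ ≤ M * ‖f‖ := by
  obtain ⟨M, hM0, hM⟩ := wf_bound h1 h2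
  refine ⟨((volume.restrict II) Set.univ).toReal ^ ((2 : ℝ≥0∞).toReal⁻¹) * M, fun f => ?_⟩
  have hb : ∀ᵐ x ∂(volume.restrict II), ‖SSlin h1 h2 f x‖ ≤ M * ‖f‖ := by
    filter_upwards [SSlin_coe h1 h2 f, ae_restrict_mem (μ := volume) (s := II) measurableSet_Ioo]
      with x hx hx2
    rw [hx]
    exact hM f x (Ioo_subset_Icc_self hx2)
  have h := Lp.norm_le_of_ae_bound (C := M * ‖f‖) (by positivity) hb
  refine h.trans (le_of_eq ?_)
  rw [mul_assoc]
  rfl

/-- the resolvent -/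
noncomputable def SS : L2I →L[ℂ] L2I :=
  (SSlin h1 h2).mkContinuousOfExistsBound (SSlin_bound h1 h2)

theorem SS_coe (f : L2I) : (SS h1 h2 f : ℝ → ℂ) =ᵐ[volume.restrict II] wf a f :=
  SSlin_coe h1 h2 f

end lin

theorem int_KKs (f : L2I) {x : ℝ} (hx : x ∈ Icc (-(Real.pi / 2)) (Real.pi / 2)) :
    ∫ y in (-(Real.pi / 2))..x, KK Real.sinh f y
      = KK Real.cosh f x - ∫ t in (-(Real.pi / 2))..x, f t := by
  have h1 : IntegrableOn (f : ℝ → ℂ) (Ioc (-(Real.pi / 2)) x) :=
    (f_int f).mono_set (fun t ht => ⟨ht.1.le, ht.2.trans hx.2⟩)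
  have h2 := tri hx.1 h1 (κ := Real.cosh) (κ' := Real.sinh) (fun y => Real.hasDerivAt_cosh y)
    Real.continuous_sinh
  unfold KK
  rw [h2, ← intervalIntegral.integral_sub (mul_intv f (g := fun t => Real.cosh (x - t))
    (by fun_prop) left_mem hx) (f_intv f left_mem hx)]
  refine intervalIntegral.integral_congr fun t _ => ?_
  rw [Real.cosh_zero]
  push_cast
  ring

theorem int_KKc (f : L2I) {x : ℝ} (hx : x ∈ Icc (-(Real.pi / 2)) (Real.pi / 2)) :
    ∫ y in (-(Real.pi / 2))..x, KK Real.cosh f y = KK Real.sinh f x := by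
  have h1 : IntegrableOn (f : ℝ → ℂ) (Ioc (-(Real.pi / 2)) x) :=
    (f_int f).mono_set (fun t ht => ⟨ht.1.le, ht.2.trans hx.2⟩)
  have h2 := tri hx.1 h1 (κ := Real.sinh) (κ' := Real.cosh) (fun y => Real.hasDerivAt_sinh y)
    Real.continuous_cosh
  unfold KK
  rw [h2]
  refine intervalIntegral.integral_congr fun t _ => ?_
  rw [Real.sinh_zero, sub_zero]

theorem int_ch (x y : ℝ) : ∫ t in x..y, (Real.cosh t : ℂ) = Real.sinh y - Real.sinh x := by
  rw [intervalIntegral.integral_ofReal, intervalIntegral.integral_eq_sub_of_hasDerivAt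
    (fun t _ => Real.hasDerivAt_sinh t) (Real.continuous_cosh.intervalIntegrable _ _)]
  push_cast
  rfl

theorem int_sh (x y : ℝ) : ∫ t in x..y, (Real.sinh t : ℂ) = Real.cosh y - Real.cosh x := by
  rw [intervalIntegral.integral_ofReal, intervalIntegral.integral_eq_sub_of_hasDerivAt
    (fun t _ => Real.hasDerivAt_cosh t) (Real.continuous_sinh.intervalIntegrable _ _)]
  push_cast
  rfl

theorem contOn_intv {g : ℝ → ℂ} (hg : ContinuousOn g (Icc (-(Real.pi / 2)) (Real.pi / 2))) {x : ℝ}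
    (hx : x ∈ Icc (-(Real.pi / 2)) (Real.pi / 2)) :
    IntervalIntegrable g volume (-(Real.pi / 2)) x := by
  refine ContinuousOn.intervalIntegrable (hg.mono ?_)
  exact uIcc_subset_Icc left_mem hx

theorem int_wf (a : ℝ) (f : L2I) {x : ℝ} (hx : x ∈ Icc (-(Real.pi / 2)) (Real.pi / 2)) :
    vf a f x = vf a f (-(Real.pi / 2)) + ((∫ y in (-(Real.pi / 2))..x, wf a f y)
      - ∫ t in (-(Real.pi / 2))..x, f t) := by
  unfold wf vf
  rw [intervalIntegral.integral_add (contOn_intv (by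
      have h1 := KKs_cont f
      have h2 := (ofReal_cont Real.continuous_cosh)
      fun_prop) hx) (((ofReal_cont Real.continuous_sinh).const_mul _).intervalIntegrable _ _),
    intervalIntegral.integral_add (f := fun x => -KK Real.sinh f x)
      ((contOn_intv (KKs_cont f) hx).neg) (((ofReal_cont Real.continuous_cosh).const_mul _).intervalIntegrable _ _),
    intervalIntegral.integral_neg, int_KKs f hx, intervalIntegral.integral_const_mul,
    intervalIntegral.integral_const_mul, int_ch, int_sh]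
  have e : KK Real.cosh f (-(Real.pi / 2)) = 0 := by
    unfold KK; rw [intervalIntegral.integral_same]
  rw [e]
  ring

theorem int_vf (a : ℝ) (f : L2I) {x : ℝ} (hx : x ∈ Icc (-(Real.pi / 2)) (Real.pi / 2)) :
    wf a f x = wf a f (-(Real.pi / 2)) + ∫ y in (-(Real.pi / 2))..x, vf a f y := by
  unfold wf vf
  rw [intervalIntegral.integral_add (contOn_intv (by
      have h1 := KKc_cont f
      have h2 := (ofReal_cont Real.continuous_sinh)
      fun_prop) hx) (((ofReal_cont Real.continuous_cosh).const_mul _).intervalIntegrable _ _),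
    intervalIntegral.integral_add (f := fun x => -KK Real.cosh f x)
      ((contOn_intv (KKc_cont f) hx).neg) (((ofReal_cont Real.continuous_sinh).const_mul _).intervalIntegrable _ _),
    intervalIntegral.integral_neg, int_KKc f hx, intervalIntegral.integral_const_mul,
    intervalIntegral.integral_const_mul, int_ch, int_sh]
  have e : KK Real.sinh f (-(Real.pi / 2)) = 0 := by
    unfold KK; rw [intervalIntegral.integral_same]
  rw [e]
  ring

theorem wf_b {a : ℝ} (h1 : -1 < a) (h2 : a < 1) (f : L2I) :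
    wf a f (-(Real.pi / 2)) = wf a f (Real.pi / 2 * a) ∧
      wf a f (Real.pi / 2 * a) = wf a f (Real.pi / 2) := by
  have e : KK Real.sinh f (-(Real.pi / 2)) = 0 := by
    unfold KK; rw [intervalIntegral.integral_same]
  have hne : ((Real.cosh (Real.pi / 2) - Real.cosh (Real.pi / 2 * a) : ℝ) : ℂ) ≠ 0 := by
    have : Real.cosh (Real.pi / 2 * a) < Real.cosh (Real.pi / 2) := by
      rw [Real.cosh_lt_cosh, abs_mul, abs_of_pos (by positivity : 0 < Real.pi / 2)]
      have : |a| < 1 := abs_lt.2 ⟨h1, h2⟩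
      nlinarith [Real.pi_pos]
    exact_mod_cast (sub_pos.2 this).ne'
  have hA : Ac a f * ((Real.cosh (Real.pi / 2) - Real.cosh (Real.pi / 2 * a) : ℝ) : ℂ)
      = -KK Real.sinh f (Real.pi / 2 * a)
        + Bc f * ((Real.sinh (Real.pi / 2 * a) + Real.sinh (Real.pi / 2) : ℝ) : ℂ) := by
    rw [Ac, div_mul_cancel₀ _ hne]
  have hne2 : ((2 * Real.sinh (Real.pi / 2) : ℝ) : ℂ) ≠ 0 := by
    have : 0 < Real.sinh (Real.pi / 2) := Real.sinh_pos_iff.2 (by positivity)
    exact_mod_cast (by positivity : 0 < 2 * Real.sinh (Real.pi / 2)).ne'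
  have hB : Bc f * ((2 * Real.sinh (Real.pi / 2) : ℝ) : ℂ)
      = KK Real.sinh f (Real.pi / 2) := by
    rw [Bc, div_mul_cancel₀ _ hne2]
  constructor
  · unfold wf
    rw [e, Real.cosh_neg, Real.sinh_neg]
    push_cast at hA ⊢
    linear_combination hA
  · unfold wf
    push_cast at hA hB ⊢
    linear_combination -hA - hB

theorem isH_SS {a : ℝ} (h1 : -1 < a) (h2 : a < 1) (f : L2I) :
    IsH a (SS h1 h2 f) (f - SS h1 h2 f) := by
  refine ⟨wf a f, vf a f, fun x hx => ?_, fun x hx => int_vf a f hx, SS_coe h1 h2 f,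
    (wf_b h1 h2 f).1, (wf_b h1 h2 f).2⟩
  rw [int_wf a f hx]
  have e : ∫ t in (-(Real.pi / 2))..x, (f - SS h1 h2 f : L2I) t
      = (∫ t in (-(Real.pi / 2))..x, f t) - ∫ t in (-(Real.pi / 2))..x, wf a f t := by
    rw [← intervalIntegral.integral_sub (f_intv f left_mem hx) (contOn_intv (wf_cont a f) hx)]
    refine intervalIntegral.integral_congr_ae ?_
    filter_upwards [ae_sub (Lp.coeFn_sub f (SS h1 h2 f)) left_mem hx,
      ae_sub (SS_coe h1 h2 f) left_mem hx] with t ht ht2 htt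
    rw [ht htt, Pi.sub_apply, ht2 htt]
  rw [e]
  ring

end Pool.Agent.Q83.Rst
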