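import Mathlib

/-! Riesz systems: two-sided inequality plus completeness gives coefficient functionals and
unconditional expansions. -/

set_option autoImplicit false
set_option linter.unusedSectionVars false

open Filter Topology
open scoped InnerProductSpace ENNReal

namespace Pool.Agent.Q83.Rst

variable {ι H : Type*} [NormedAddCommGroup H] [InnerProductSpace ℂ H] [CompleteSpace H]

/-- two-sided inequality for finite sums -/
def TwoSided (ψ : ι → H) (A B : ℝ) : Prop :=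
  ∀ (s : Finset ι) (c : ι → ℂ), A * ∑ i ∈ s, ‖c i‖ ^ 2 ≤ ‖∑ i ∈ s, c i • ψ i‖ ^ 2 ∧
    ‖∑ i ∈ s, c i • ψ i‖ ^ 2 ≤ B * ∑ i ∈ s, ‖c i‖ ^ 2

variable {ψ : ι → H} {A B : ℝ}

noncomputable abbrev l2 (ι : Type*) := lp (fun _ : ι => ℂ) 2

theorem l2_hasSum (c : l2 ι) : HasSum (fun i => ‖c i‖ ^ 2) (‖c‖ ^ 2) := by
  have h := lp.hasSum_norm (p := 2) (by norm_num) c
  simpa using h

theorem summ (hB : TwoSided ψ A B) (c : l2 ι) : Summable (fun i => c i • ψ i) := by
  rw [summable_iff_vanishing_norm]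
  intro ε hε
  have hs := (l2_hasSum c).summable
  rw [summable_iff_vanishing_norm] at hs
  obtain ⟨s, hs⟩ := hs (ε ^ 2 / (|B| + 1)) (by positivity)
  refine ⟨s, fun t ht => ?_⟩
  have h1 := hs t ht
  have h2 := (hB t c).2
  rw [Real.norm_of_nonneg (Finset.sum_nonneg fun i _ => by positivity)] at h1
  have h0 : 0 ≤ ∑ i ∈ t, ‖c i‖ ^ 2 := Finset.sum_nonneg fun i _ => by positivity
  have h3 : B * ∑ i ∈ t, ‖c i‖ ^ 2 ≤ (|B| + 1) * ∑ i ∈ t, ‖c i‖ ^ 2 :=
    mul_le_mul_of_nonneg_right (by linarith [le_abs_self B]) h0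
  have h4 : (|B| + 1) * ∑ i ∈ t, ‖c i‖ ^ 2 < ε ^ 2 := by
    rw [lt_div_iff₀ (by positivity)] at h1
    linarith
  exact lt_of_pow_lt_pow_left₀ 2 hε.le (by linarith)

/-- the synthesis operator -/
noncomputable def synL (hB : TwoSided ψ A B) : l2 ι →ₗ[ℂ] H where
  toFun c := ∑' i, c i • ψ i
  map_add' c d := by
    rw [← Summable.tsum_add (summ hB c) (summ hB d)]
    refine tsum_congr fun i => ?_
    rw [lp.coeFn_add, Pi.add_apply, add_smul]
  map_smul' a c := by
    rw [RingHom.id_apply, ← Summable.tsum_const_smul a (summ hB c)]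
    refine tsum_congr fun i => ?_
    rw [lp.coeFn_smul, Pi.smul_apply, smul_eq_mul, mul_smul]

theorem synL_bounds (hB : TwoSided ψ A B) (c : l2 ι) :
    A * ‖c‖ ^ 2 ≤ ‖synL hB c‖ ^ 2 ∧ ‖synL hB c‖ ^ 2 ≤ B * ‖c‖ ^ 2 := by
  have h1 : Tendsto (fun s : Finset ι => ∑ i ∈ s, ‖c i‖ ^ 2) atTop (𝓝 (‖c‖ ^ 2)) := l2_hasSum c
  have h2 : Tendsto (fun s : Finset ι => ‖∑ i ∈ s, c i • ψ i‖ ^ 2) atTop
      (𝓝 (‖synL hB c‖ ^ 2)) := ((summ hB c).hasSum.norm).pow 2
  exact ⟨le_of_tendsto_of_tendsto' (h1.const_mul A) h2 fun s => (hB s c).1,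
    le_of_tendsto_of_tendsto' h2 (h1.const_mul B) fun s => (hB s c).2⟩

theorem synL_norm_le (hB : TwoSided ψ A B) (c : l2 ι) :
    ‖synL hB c‖ ≤ Real.sqrt |B| * ‖c‖ := by
  have h := (synL_bounds hB c).2
  refine abs_le_of_sq_le_sq' ?_ (by positivity) |>.2
  rw [mul_pow, Real.sq_sqrt (abs_nonneg B)]
  nlinarith [le_abs_self B, sq_nonneg ‖c‖]

noncomputable def syn (hB : TwoSided ψ A B) : l2 ι →L[ℂ] H :=
  (synL hB).mkContinuous _ (synL_norm_le hB)

theorem syn_lower (hB : TwoSided ψ A B) (hA : 0 < A) (c : l2 ι) :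
    Real.sqrt A * ‖c‖ ≤ ‖syn hB c‖ := by
  have h := (synL_bounds hB c).1
  refine abs_le_of_sq_le_sq' ?_ (by positivity) |>.2
  rw [mul_pow, Real.sq_sqrt hA.le]
  exact h

theorem syn_hasSum (hB : TwoSided ψ A B) (c : l2 ι) :
    HasSum (fun i => c i • ψ i) (syn hB c) := (summ hB c).hasSum

theorem syn_single [DecidableEq ι] (hB : TwoSided ψ A B) (i : ι) :
    syn hB (lp.single 2 i (1 : ℂ)) = ψ i := by
  refine (syn_hasSum hB _).unique ?_
  have : HasSum (fun j => (lp.single 2 i (1 : ℂ) : l2 ι) j • ψ j)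
      ((lp.single 2 i (1 : ℂ) : l2 ι) i • ψ i) := by
    refine hasSum_single i fun j hj => ?_
    rw [lp.single_apply_ne _ _ _ hj, zero_smul]
  rwa [lp.single_apply_self, one_smul] at this

theorem syn_anti (hB : TwoSided ψ A B) (hA : 0 < A) :
    AntilipschitzWith (Real.toNNReal (1 / Real.sqrt A)) (syn hB) := by
  refine AntilipschitzWith.of_le_mul_dist fun x y => ?_
  rw [dist_eq_norm, dist_eq_norm, ← map_sub, Real.coe_toNNReal _ (by positivity)]
  have h := syn_lower hB hA (x - y)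
  have hs : 0 < Real.sqrt A := Real.sqrt_pos.2 hA
  rw [div_mul_eq_mul_div, one_mul, le_div_iff₀ hs]
  linarith

theorem syn_bij (hB : TwoSided ψ A B) (hA : 0 < A)
    (hc : ∀ f : H, (∀ i, ⟪ψ i, f⟫_ℂ = 0) → f = 0) : Function.Bijective (syn hB) := by
  classical
  refine ⟨(syn_anti hB hA).injective, ?_⟩
  have hcl : IsClosed (Set.range (syn hB)) :=
    (syn_anti hB hA).isClosed_range (syn hB).uniformContinuous
  have h1 : (LinearMap.range (syn hB : l2 ι →ₗ[ℂ] H))ᗮ = ⊥ := by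
    rw [Submodule.eq_bot_iff]
    intro f hf
    refine hc f fun i => ?_
    rw [Submodule.mem_orthogonal] at hf
    exact hf (ψ i) ⟨lp.single 2 i (1 : ℂ), syn_single hB i⟩
  have h2 : (LinearMap.range (syn hB : l2 ι →ₗ[ℂ] H)).topologicalClosure = ⊤ :=
    (Submodule.topologicalClosure_eq_top_iff).2 h1
  have h3 : (LinearMap.range (syn hB : l2 ι →ₗ[ℂ] H)).topologicalClosure
      = LinearMap.range (syn hB : l2 ι →ₗ[ℂ] H) := by
    refine IsClosed.submodule_topologicalClosure_eq ?_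
    have : ((LinearMap.range (syn hB : l2 ι →ₗ[ℂ] H) : Submodule ℂ H) : Set H)
        = Set.range (syn hB) := by
      rw [LinearMap.coe_range]; rfl
    rw [this]
    exact hcl
  rw [h3] at h2
  intro f
  have : f ∈ LinearMap.range (syn hB : l2 ι →ₗ[ℂ] H) := by rw [h2]; trivial
  exact this

/-- Riesz systems have coefficient functionals -/
theorem exists_coef [DecidableEq ι] (hB : TwoSided ψ A B) (hA : 0 < A)
    (hc : ∀ f : H, (∀ i, ⟪ψ i, f⟫_ℂ = 0) → f = 0) :
    ∃ κ : ι → H →L[ℂ] ℂ, (∀ i j, κ i (ψ j) = if i = j then 1 else 0) ∧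
      ∀ f, HasSum (fun i => κ i f • ψ i) f := by
  let T : l2 ι ≃L[ℂ] H := ContinuousLinearEquiv.ofBijective (syn hB)
    (LinearMap.ker_eq_bot.2 (syn_bij hB hA hc).1)
    (LinearMap.range_eq_top.2 (syn_bij hB hA hc).2)
  have hT : ∀ c, T c = syn hB c := fun c => rfl
  let ev : ι → l2 ι →L[ℂ] ℂ := fun i =>
    LinearMap.mkContinuous
      { toFun := fun c : l2 ι => (c i : ℂ)
        map_add' := fun c d => by rw [lp.coeFn_add, Pi.add_apply]
        map_smul' := fun a c => by rw [lp.coeFn_smul, Pi.smul_apply]; rfl } 1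
      (fun c => by rw [one_mul]; exact lp.norm_apply_le_norm (by norm_num) c i)
  refine ⟨fun i => (ev i).comp (T.symm : H →L[ℂ] l2 ι), fun i j => ?_, fun f => ?_⟩
  · have : T.symm (ψ j) = lp.single 2 j (1 : ℂ) := by
      rw [ContinuousLinearEquiv.symm_apply_eq, hT, syn_single hB j]
    change (T.symm (ψ j)) i = _
    rw [this]
    by_cases h : i = j
    · subst h; rw [if_pos rfl, lp.single_apply_self]
    · rw [if_neg h, lp.single_apply_ne _ _ _ h]
  · have h := syn_hasSum hB (T.symm f)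
    rw [← hT, ContinuousLinearEquiv.apply_symm_apply] at h
    exact h

/-- Schauder basis: every vector has a unique expansion with convergence of the partial sums in
the given order -/
def IsSchauder (ψ : ℕ → H) : Prop :=
  ∀ f : H, ∃! c : ℕ → ℂ, Tendsto (fun n => ∑ j ∈ Finset.range n, c j • ψ j) atTop (𝓝 f)

theorem schauder_of_coef [DecidableEq ι] (κ : ι → H →L[ℂ] ℂ)
    (h1 : ∀ i j, κ i (ψ j) = if i = j then 1 else 0)
    (h2 : ∀ f, HasSum (fun i => κ i f • ψ i) f) (e : ℕ ≃ ι) :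
    IsSchauder (fun n => ψ (e n)) := by
  intro f
  refine ⟨fun n => κ (e n) f, ?_, fun c hc => ?_⟩
  · have := (e.hasSum_iff (f := fun i => κ i f • ψ i)).2 (h2 f)
    exact this.tendsto_sum_nat
  · funext k
    have h3 : Tendsto (fun n => κ (e k) (∑ j ∈ Finset.range n, c j • ψ (e j))) atTop
        (𝓝 (κ (e k) f)) := ((κ (e k)).continuous.tendsto f).comp hc
    have h4 : ∀ᶠ n in atTop, κ (e k) (∑ j ∈ Finset.range n, c j • ψ (e j)) = c k := by
      filter_upwards [eventually_gt_atTop k] with n hn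
      rw [map_sum, Finset.sum_eq_single k]
      · rw [map_smul, h1, if_pos rfl, smul_eq_mul, mul_one]
      · intro j _ hj
        rw [map_smul, h1, if_neg (fun h => hj (e.injective h).symm), smul_zero]
      · intro h
        exact absurd (Finset.mem_range.2 hn) h
    exact tendsto_nhds_unique (tendsto_const_nhds.congr' (h4.mono fun n hn => hn.symm)) h3

end Pool.Agent.Q83.Rst
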