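import Mathlib

/-! The space `L²((-π/2, π/2))` and continuous functions in it. -/

set_option autoImplicit false

open MeasureTheory Set Filter
open scoped Interval InnerProductSpace

namespace Pool.Agent.Q83.Rst

/-- the interval -/
def II : Set ℝ := Ioo (-(Real.pi / 2)) (Real.pi / 2)

/-- the Hilbert space `L²((-π/2, π/2))` -/
noncomputable abbrev L2I := Lp ℂ 2 (volume.restrict II)

instance : IsFiniteMeasure (volume.restrict II) := by
  refine ⟨?_⟩
  rw [Measure.restrict_apply_univ, II, Real.volume_Ioo]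
  exact ENNReal.ofReal_lt_top

theorem pi_le : -(Real.pi / 2) ≤ Real.pi / 2 := by linarith [Real.pi_pos]
theorem pi_lt : -(Real.pi / 2) < Real.pi / 2 := by linarith [Real.pi_pos]

theorem restrict_Ioc_eq : volume.restrict (Ioc (-(Real.pi / 2)) (Real.pi / 2))
    = volume.restrict II := by
  rw [II]
  exact Measure.restrict_congr_set Ioo_ae_eq_Ioc.symm

theorem memLp_of_contOn {φ : ℝ → ℂ} (h : ContinuousOn φ (Icc (-(Real.pi / 2)) (Real.pi / 2))) :
    MemLp φ 2 (volume.restrict II) := by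
  obtain ⟨M, hM⟩ := isCompact_Icc.exists_bound_of_continuousOn h
  have hm : AEStronglyMeasurable φ (volume.restrict II) :=
    (h.mono Ioo_subset_Icc_self).aestronglyMeasurable measurableSet_Ioo
  refine MemLp.of_bound hm M ?_
  refine (ae_restrict_iff' measurableSet_Ioo).2 (Eventually.of_forall fun x hx => ?_)
  exact hM x (Ioo_subset_Icc_self hx)

theorem memLp_cont (φ : C(ℝ, ℂ)) : MemLp φ 2 (volume.restrict II) :=
  memLp_of_contOn φ.continuous.continuousOn

/-- continuous functions as elements of `L²` -/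
noncomputable def EE : C(ℝ, ℂ) →ₗ[ℂ] L2I where
  toFun φ := (memLp_cont φ).toLp φ
  map_add' φ φ' := rfl
  map_smul' a φ := rfl

theorem EE_coe (φ : C(ℝ, ℂ)) : (EE φ : ℝ → ℂ) =ᵐ[volume.restrict II] φ :=
  (memLp_cont φ).coeFn_toLp

theorem EE_inner (φ : C(ℝ, ℂ)) (f : L2I) :
    ⟪EE φ, f⟫_ℂ = ∫ x in (-(Real.pi / 2))..(Real.pi / 2), (starRingEnd ℂ) (φ x) * f x := by
  rw [L2.inner_def, intervalIntegral.integral_of_le pi_le, restrict_Ioc_eq]
  refine integral_congr_ae ?_
  filter_upwards [EE_coe φ] with x hx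
  rw [hx]
  simp [mul_comm]

theorem EE_norm_sq (φ : C(ℝ, ℂ)) :
    ‖EE φ‖ ^ 2 = ∫ x in (-(Real.pi / 2))..(Real.pi / 2), ‖φ x‖ ^ 2 := by
  have h1 : ((‖EE φ‖ ^ 2 : ℝ) : ℂ)
      = ((∫ x in (-(Real.pi / 2))..(Real.pi / 2), ‖φ x‖ ^ 2 : ℝ) : ℂ) := by
    have h2 := inner_self_eq_norm_sq_to_K (𝕜 := ℂ) (EE φ)
    rw [EE_inner] at h2
    rw [← intervalIntegral.integral_ofReal]
    push_cast
    refine (h2.symm).trans ?_
    rw [intervalIntegral.integral_of_le pi_le, intervalIntegral.integral_of_le pi_le,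
      restrict_Ioc_eq]
    refine integral_congr_ae ?_
    filter_upwards [EE_coe φ] with x hx
    rw [hx, Complex.conj_mul']
  exact_mod_cast h1

end Pool.Agent.Q83.Rst
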