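import Pool.Agent.Q83.Rst.Res

/-! Uniqueness, root subspaces. -/

set_option autoImplicit false

open MeasureTheory Set Filter
open scoped Interval InnerProductSpace ENNReal

namespace Pool.Agent.Q83.Rst

theorem uniq {a : ℝ} (h1 : -1 < a) (h2 : a < 1) {u z : ℝ → ℂ}
    (huc : ContinuousOn u (Icc (-(Real.pi / 2)) (Real.pi / 2)))
    (hzc : ContinuousOn z (Icc (-(Real.pi / 2)) (Real.pi / 2)))
    (hz : ∀ x ∈ Icc (-(Real.pi / 2)) (Real.pi / 2),
      z x = z (-(Real.pi / 2)) + ∫ t in (-(Real.pi / 2))..x, u t)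
    (hu : ∀ x ∈ Icc (-(Real.pi / 2)) (Real.pi / 2),
      u x = u (-(Real.pi / 2)) + ∫ t in (-(Real.pi / 2))..x, z t)
    (b1 : u (-(Real.pi / 2)) = u (Real.pi / 2 * a)) (b2 : u (Real.pi / 2 * a) = u (Real.pi / 2)) :
    ∀ x ∈ Icc (-(Real.pi / 2)) (Real.pi / 2), u x = 0 := by
  have hp : ∀ x, max (-(Real.pi / 2)) (min x (Real.pi / 2))
      ∈ Icc (-(Real.pi / 2)) (Real.pi / 2) := fun x =>
    ⟨le_max_left _ _, max_le pi_le (min_le_right _ _)⟩
  have hpe : ∀ x ∈ Icc (-(Real.pi / 2)) (Real.pi / 2),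
      max (-(Real.pi / 2)) (min x (Real.pi / 2)) = x := fun x hx => by
    rw [min_eq_left hx.2, max_eq_right hx.1]
  set Z : ℝ → ℂ := fun x => z (max (-(Real.pi / 2)) (min x (Real.pi / 2))) with hZ
  set U : ℝ → ℂ := fun x => u (max (-(Real.pi / 2)) (min x (Real.pi / 2))) with hU
  have hZC : Continuous Z := hzc.comp_continuous (by fun_prop) hp
  have hUC : Continuous U := huc.comp_continuous (by fun_prop) hp
  set F : ℝ → ℂ := fun x => u (-(Real.pi / 2)) + ∫ t in (-(Real.pi / 2))..x, Z t with hF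
  set G : ℝ → ℂ := fun x => z (-(Real.pi / 2)) + ∫ t in (-(Real.pi / 2))..x, U t with hG
  have dF : ∀ x, HasDerivAt F (Z x) x := fun x =>
    ((hZC.integral_hasStrictDerivAt (-(Real.pi / 2)) x).hasDerivAt).const_add _
  have dG : ∀ x, HasDerivAt G (U x) x := fun x =>
    ((hUC.integral_hasStrictDerivAt (-(Real.pi / 2)) x).hasDerivAt).const_add _
  have eF : ∀ x ∈ Icc (-(Real.pi / 2)) (Real.pi / 2), F x = u x := by
    intro x hx
    rw [hu x hx, hF]
    beta_reduce
    congr 1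
    refine intervalIntegral.integral_congr fun t ht => ?_
    rw [uIcc_of_le hx.1] at ht
    simp only [hZ]
    rw [hpe t ⟨ht.1, ht.2.trans hx.2⟩]
  have eG : ∀ x ∈ Icc (-(Real.pi / 2)) (Real.pi / 2), G x = z x := by
    intro x hx
    rw [hz x hx, hG]
    beta_reduce
    congr 1
    refine intervalIntegral.integral_congr fun t ht => ?_
    rw [uIcc_of_le hx.1] at ht
    simp only [hU]
    rw [hpe t ⟨ht.1, ht.2.trans hx.2⟩]
  have ZG : ∀ x ∈ Icc (-(Real.pi / 2)) (Real.pi / 2), Z x = G x := fun x hx => by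
    rw [eG x hx]; simp only [hZ]; rw [hpe x hx]
  have UF : ∀ x ∈ Icc (-(Real.pi / 2)) (Real.pi / 2), U x = F x := fun x hx => by
    rw [eF x hx]; simp only [hU]; rw [hpe x hx]
  have ex1 : ∀ x : ℝ, HasDerivAt (fun x : ℝ => (Real.exp x : ℂ)) (Real.exp x : ℂ) x := fun x =>
    (Real.hasDerivAt_exp x).ofReal_comp
  have ex2 : ∀ x : ℝ, HasDerivAt (fun x : ℝ => (Real.exp (-x) : ℂ)) (-(Real.exp (-x)) : ℂ) x :=
    fun x => by
      have h : HasDerivAt (fun x : ℝ => Real.exp (-x)) (-Real.exp (-x)) x := by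
        have := (hasDerivAt_neg x).exp
        simpa using this
      have := h.ofReal_comp
      simpa using this
  have k1 : ∀ x ∈ Icc (-(Real.pi / 2)) (Real.pi / 2),
      (Real.exp (-x) : ℂ) * (F x + G x) = (Real.exp (-(-(Real.pi / 2))) : ℂ)
        * (F (-(Real.pi / 2)) + G (-(Real.pi / 2))) := by
    refine constant_of_has_deriv_right_zero (f := fun x => (Real.exp (-x) : ℂ) * (F x + G x)) ?_ ?_
    · intro x _
      exact (((ex2 x).mul ((dF x).add (dG x))).continuousAt).continuousWithinAt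
    · intro x hx
      have h := ((ex2 x).mul ((dF x).add (dG x))).hasDerivWithinAt (s := Ici x)
      have hx' : x ∈ Icc (-(Real.pi / 2)) (Real.pi / 2) := ⟨hx.1, hx.2.le⟩
      rw [ZG x hx', UF x hx'] at h
      have e : -(Real.exp (-x) : ℂ) * (F + G) x + (Real.exp (-x) : ℂ) * (G x + F x) = 0 := by
        rw [Pi.add_apply]; ring
      rw [e] at h
      exact h
  have k2 : ∀ x ∈ Icc (-(Real.pi / 2)) (Real.pi / 2),
      (Real.exp x : ℂ) * (F x - G x) = (Real.exp (-(Real.pi / 2)) : ℂ)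
        * (F (-(Real.pi / 2)) - G (-(Real.pi / 2))) := by
    refine constant_of_has_deriv_right_zero (f := fun x => (Real.exp x : ℂ) * (F x - G x)) ?_ ?_
    · intro x _
      exact (((ex1 x).mul ((dF x).sub (dG x))).continuousAt).continuousWithinAt
    · intro x hx
      have h := ((ex1 x).mul ((dF x).sub (dG x))).hasDerivWithinAt (s := Ici x)
      have hx' : x ∈ Icc (-(Real.pi / 2)) (Real.pi / 2) := ⟨hx.1, hx.2.le⟩
      rw [ZG x hx', UF x hx'] at h
      have e : (Real.exp x : ℂ) * (F - G) x + (Real.exp x : ℂ) * (G x - F x) = 0 := by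
        rw [Pi.sub_apply]; ring
      rw [e] at h
      exact h
  set c1 := (Real.exp (-(-(Real.pi / 2))) : ℂ) * (F (-(Real.pi / 2)) + G (-(Real.pi / 2)))
  set c2 := (Real.exp (-(Real.pi / 2)) : ℂ) * (F (-(Real.pi / 2)) - G (-(Real.pi / 2)))
  have ee : ∀ x : ℝ, (Real.exp x : ℂ) * (Real.exp (-x) : ℂ) = 1 := fun x => by
    rw [← Complex.ofReal_mul, ← Real.exp_add]
    simp
  have k3 : ∀ x ∈ Icc (-(Real.pi / 2)) (Real.pi / 2),
      2 * u x = c1 * (Real.exp x : ℂ) + c2 * (Real.exp (-x) : ℂ) := by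
    intro x hx
    have q1 := k1 x hx
    have q2 := k2 x hx
    rw [← q1, ← q2, ← eF x hx]
    linear_combination (-2 * F x) * ee x
  have hsinh : (Real.exp (Real.pi / 2) : ℂ) - (Real.exp (-(Real.pi / 2)) : ℂ) ≠ 0 := by
    have : 0 < Real.exp (Real.pi / 2) - Real.exp (-(Real.pi / 2)) := by
      rw [sub_pos, Real.exp_lt_exp]
      exact pi_lt
    exact_mod_cast this.ne'
  have hcosh : (Real.exp (Real.pi / 2) : ℂ) + (Real.exp (-(Real.pi / 2)) : ℂ)
      - ((Real.exp (Real.pi / 2 * a) : ℂ) + (Real.exp (-(Real.pi / 2 * a)) : ℂ)) ≠ 0 := by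
    have : Real.cosh (Real.pi / 2 * a) < Real.cosh (Real.pi / 2) := by
      rw [Real.cosh_lt_cosh, abs_mul, abs_of_pos (by positivity : 0 < Real.pi / 2)]
      have : |a| < 1 := abs_lt.2 ⟨h1, h2⟩
      nlinarith [Real.pi_pos]
    rw [Real.cosh_eq, Real.cosh_eq] at this
    have h3 : 0 < Real.exp (Real.pi / 2) + Real.exp (-(Real.pi / 2))
      - (Real.exp (Real.pi / 2 * a) + Real.exp (-(Real.pi / 2 * a))) := by linarith
    exact_mod_cast h3.ne'
  have q1 := k3 _ left_mem
  have q2 := k3 _ right_mem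
  have q3 := k3 _ (mem_a h1 h2)
  rw [neg_neg] at q1
  have c12 : c1 = c2 := by
    have : (c1 - c2) * ((Real.exp (Real.pi / 2) : ℂ) - (Real.exp (-(Real.pi / 2)) : ℂ)) = 0 := by
      linear_combination q1 - q2 - 2 * b1 - 2 * b2
    rcases mul_eq_zero.1 this with h | h
    · exact sub_eq_zero.1 h
    · exact absurd h hsinh
  have c10 : c1 = 0 := by
    have : c1 * ((Real.exp (Real.pi / 2) : ℂ) + (Real.exp (-(Real.pi / 2)) : ℂ)
      - ((Real.exp (Real.pi / 2 * a) : ℂ) + (Real.exp (-(Real.pi / 2 * a)) : ℂ))) = 0 := by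
      rw [← c12] at q1 q3
      linear_combination q3 - q1 + 2 * b1
    rcases mul_eq_zero.1 this with h | h
    · exact h
    · exact absurd h hcosh
  intro x hx
  have := k3 x hx
  rw [← c12, c10] at this
  have h2 : (2 : ℂ) * u x = 0 := by rw [this]; ring
  simpa using h2

theorem isH_iff {a : ℝ} (h1 : -1 < a) (h2 : a < 1) {ψ φ : L2I} :
    IsH a ψ φ ↔ ψ = SS h1 h2 (φ + ψ) := by
  constructor
  · rintro ⟨w, v, hv, hw, hψ, b1, b2⟩
    set f := φ + ψ with hf
    have hvc : ContinuousOn v (Icc (-(Real.pi / 2)) (Real.pi / 2)) := by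
      refine ContinuousOn.congr ?_ hv
      have h := intervalIntegral.continuousOn_primitive_interval'
        (f_intv φ left_mem right_mem) left_mem_uIcc
      rw [uIcc_of_le pi_le] at h
      exact continuousOn_const.sub h
    have hwc : ContinuousOn w (Icc (-(Real.pi / 2)) (Real.pi / 2)) := by
      refine ContinuousOn.congr ?_ hw
      have h := intervalIntegral.continuousOn_primitive_interval'
        (contOn_intv hvc right_mem) left_mem_uIcc
      rw [uIcc_of_le pi_le] at h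
      exact continuousOn_const.add h
    obtain ⟨c1, c2⟩ := wf_b h1 h2 f
    have hu : ∀ x ∈ Icc (-(Real.pi / 2)) (Real.pi / 2), w x - wf a f x = 0 := by
      refine uniq h1 h2 (u := fun x => w x - wf a f x) (z := fun x => v x - vf a f x)
        (hwc.sub (wf_cont a f)) (hvc.sub (vf_cont a f)) ?_ ?_ ?_ ?_
      · intro x hx
        rw [intervalIntegral.integral_sub (contOn_intv hwc hx) (contOn_intv (wf_cont a f) hx),
          hv x hx, int_wf a f hx]
        have e1 : ∫ t in (-(Real.pi / 2))..x, f t = (∫ t in (-(Real.pi / 2))..x, φ t)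
            + ∫ t in (-(Real.pi / 2))..x, w t := by
          rw [← intervalIntegral.integral_add (f_intv φ left_mem hx) (contOn_intv hwc hx)]
          refine intervalIntegral.integral_congr_ae ?_
          filter_upwards [ae_sub (Lp.coeFn_add φ ψ) left_mem hx,
            ae_sub hψ left_mem hx] with t ht ht2 htt
          rw [hf, ht htt, Pi.add_apply, ht2 htt]
        rw [e1]
        ring
      · intro x hx
        rw [intervalIntegral.integral_sub (contOn_intv hvc hx) (contOn_intv (vf_cont a f) hx),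
          hw x hx, int_vf a f hx]
        ring
      · rw [b1, c1]
      · rw [b2, c2]
    refine Lp.ext ?_
    filter_upwards [hψ, SS_coe h1 h2 f, ae_restrict_mem (μ := volume) (s := II) measurableSet_Ioo]
      with x hx hx2 hx3
    rw [hx, hx2]
    exact sub_eq_zero.1 (hu x (Ioo_subset_Icc_self hx3))
  · intro h
    have h3 := isH_SS h1 h2 (φ + ψ)
    rw [← h] at h3
    simpa using h3

theorem isH_of_deriv {a : ℝ} (Φ Φ₂ : C(ℝ, ℂ)) (φ₁ : ℝ → ℂ) (d1 : ∀ x, HasDerivAt Φ (φ₁ x) x)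
    (d2 : ∀ x, HasDerivAt φ₁ (-Φ₂ x) x) (b1 : Φ (-(Real.pi / 2)) = Φ (Real.pi / 2 * a))
    (b2 : Φ (Real.pi / 2 * a) = Φ (Real.pi / 2)) : IsH a (EE Φ) (EE Φ₂) := by
  have hc : Continuous φ₁ := continuous_iff_continuousAt.2 fun x => (d2 x).continuousAt
  refine ⟨Φ, φ₁, fun x hx => ?_, fun x hx => ?_, EE_coe Φ, b1, b2⟩
  · have e : ∫ t in (-(Real.pi / 2))..x, EE Φ₂ t = ∫ t in (-(Real.pi / 2))..x, Φ₂ t := by
      refine intervalIntegral.integral_congr_ae ?_
      filter_upwards [ae_sub (EE_coe Φ₂) left_mem hx] with t ht htt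
      exact ht htt
    rw [e]
    have h := intervalIntegral.integral_eq_sub_of_hasDerivAt
      (a := -(Real.pi / 2)) (b := x) (fun t _ => d2 t)
      ((Φ₂.continuous.neg).intervalIntegrable _ _)
    rw [intervalIntegral.integral_neg] at h
    linear_combination -h
  · rw [intervalIntegral.integral_eq_sub_of_hasDerivAt (fun t _ => d1 t)
      (hc.intervalIntegrable _ _)]
    ring

/-- membership in `ker (H - μ)^k` -/
def InKer (a : ℝ) (μ : ℂ) : ℕ → L2I → Prop
  | 0, ψ => ψ = 0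
  | k + 1, ψ => ∃ φ : L2I, IsH a ψ φ ∧ InKer a μ k (φ - μ • ψ)

section

variable {a : ℝ} (h1 : -1 < a) (h2 : a < 1)
include h1 h2

theorem InKer_add {μ : ℂ} {k : ℕ} : ∀ {ψ ψ' : L2I}, InKer a μ k ψ → InKer a μ k ψ' →
    InKer a μ k (ψ + ψ') := by
  induction k with
  | zero =>
    intro ψ ψ' h h'
    have e : ψ = 0 := h
    have e' : ψ' = 0 := h'
    change ψ + ψ' = 0
    rw [e, e', add_zero]
  | succ k ih =>
    rintro ψ ψ' ⟨φ, h3, h4⟩ ⟨φ', h3', h4'⟩
    refine ⟨φ + φ', ?_, ?_⟩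
    · rw [isH_iff h1 h2] at h3 h3' ⊢
      have : φ + φ' + (ψ + ψ') = (φ + ψ) + (φ' + ψ') := by abel
      rw [this, map_add, ← h3, ← h3']
    · have := ih h4 h4'
      have e : φ + φ' - μ • (ψ + ψ') = (φ - μ • ψ) + (φ' - μ • ψ') := by
        rw [smul_add]; abel
      rw [e]
      exact this

theorem InKer_smul {μ : ℂ} {k : ℕ} (c : ℂ) : ∀ {ψ : L2I}, InKer a μ k ψ →
    InKer a μ k (c • ψ) := by
  induction k with
  | zero =>
    intro ψ h
    have e : ψ = 0 := h
    change c • ψ = 0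
    rw [e, smul_zero]
  | succ k ih =>
    rintro ψ ⟨φ, h3, h4⟩
    refine ⟨c • φ, ?_, ?_⟩
    · rw [isH_iff h1 h2] at h3 ⊢
      rw [← smul_add, map_smul, ← h3]
    · have := ih h4
      have e : c • φ - μ • (c • ψ) = c • (φ - μ • ψ) := by
        rw [smul_sub, smul_comm]
      rw [e]
      exact this

theorem isH_zero : IsH a 0 0 := by
  rw [isH_iff h1 h2, add_zero, map_zero]

theorem InKer_zero {μ : ℂ} {k : ℕ} : InKer a μ k 0 := by
  induction k with
  | zero => rfl
  | succ k ih =>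
    refine ⟨0, isH_zero h1 h2, ?_⟩
    rw [smul_zero, sub_zero]
    exact ih

/-- coefficient functionals kill the other root subspaces -/
theorem coef_zero {κ : L2I →L[ℂ] ℂ} {c μ : ℂ}
    (hκ : ∀ f, κ (SS h1 h2 (SS h1 h2 f)) = 2 * c * κ (SS h1 h2 f) - c ^ 2 * κ f)
    (hμ : (μ + 1) * c ≠ 1) {k : ℕ} : ∀ {ψ : L2I}, InKer a μ k ψ → κ ψ = 0 ∧
      κ (SS h1 h2 ψ) = 0 := by
  induction k with
  | zero =>
    intro ψ h
    have e : ψ = 0 := h
    rw [e, map_zero, map_zero, map_zero]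
    exact ⟨rfl, rfl⟩
  | succ k ih =>
    rintro ψ ⟨φ, h3, h4⟩
    obtain ⟨i1, i2⟩ := ih h4
    rw [isH_iff h1 h2] at h3
    set χ := φ - μ • ψ with hχ
    have e1 : ψ = SS h1 h2 χ + (μ + 1) • SS h1 h2 ψ := by
      rw [← map_smul, ← map_add, hχ, add_smul, one_smul]
      have : φ - μ • ψ + (μ • ψ + ψ) = φ + ψ := by abel
      rw [this]
      exact h3
    have e2 : κ ψ = (μ + 1) * κ (SS h1 h2 ψ) := by
      conv_lhs => rw [e1]
      rw [map_add, i2, map_smul, zero_add, smul_eq_mul]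
    have e3 : κ (SS h1 h2 ψ) = (μ + 1) * κ (SS h1 h2 (SS h1 h2 ψ)) := by
      conv_lhs => rw [e1]
      rw [map_add, map_add, hκ χ, i1, i2, map_smul, map_smul, smul_eq_mul]
      ring
    have e4 : κ (SS h1 h2 ψ) * (1 - (μ + 1) * c) ^ 2 = 0 := by
      rw [hκ ψ, e2] at e3
      linear_combination e3
    have e5 : κ (SS h1 h2 ψ) = 0 := by
      rcases mul_eq_zero.1 e4 with h | h
      · exact h
      · exact absurd (sub_eq_zero.1 (pow_eq_zero_iff (two_ne_zero) |>.1 h)).symm hμ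
    exact ⟨by rw [e2, e5, mul_zero], e5⟩

end

end Pool.Agent.Q83.Rst
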