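import Pool.Agent.Q83.Rst.Riesz
import Pool.Agent.Q83.Rst.Ineq
import Pool.Agent.Q83.Rst.Uniq

/-! The root system of the point-restart Laplacian and its two-sided inequality. -/

set_option autoImplicit false

open MeasureTheory Set Filter
open scoped Interval InnerProductSpace ENNReal

namespace Pool.Agent.Q83.Rst

variable {r s : ℕ}

/-- the restart parameter -/
noncomputable def aa (r s : ℕ) : ℝ := ((s : ℝ) - r) / (r + s)

/-- the coefficient in the odd family -/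
noncomputable def BB (a : ℝ) (m : ℕ) : ℝ :=
  if Real.cos (m * Real.pi) = Real.cos (m * Real.pi * a) then 0
  else Real.sin (m * Real.pi * a) / (Real.cos (m * Real.pi) - Real.cos (m * Real.pi * a))

theorem BB_rel (a : ℝ) (m : ℕ) :
    BB a m * Real.cos (m * Real.pi) = Real.sin (m * Real.pi * a)
      + BB a m * Real.cos (m * Real.pi * a) := by
  unfold BB
  split_ifs with h
  · have h1 : Real.cos (m * Real.pi) ^ 2 = 1 := by
      have := Real.sin_sq_add_cos_sq (m * Real.pi)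
      rw [Real.sin_nat_mul_pi] at this
      linarith
    have h2 : Real.sin (m * Real.pi * a) ^ 2 = 0 := by
      have := Real.sin_sq_add_cos_sq (m * Real.pi * a)
      rw [← h, h1] at this
      linarith
    have h3 : Real.sin (m * Real.pi * a) = 0 := by simpa using h2
    rw [h3]
    ring
  · have : Real.cos (m * Real.pi) - Real.cos (m * Real.pi * a) ≠ 0 := sub_ne_zero.2 h
    field_simp
    ring

theorem BB_per (hr : 0 < r) (m : ℕ) : BB (aa r s) (m + 2 * (r + s)) = BB (aa r s) m := by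
  have e1 : ((m + 2 * (r + s) : ℕ) : ℝ) * Real.pi
      = m * Real.pi + ((r + s : ℕ) : ℝ) * (2 * Real.pi) := by
    push_cast; ring
  have e2 : ((m + 2 * (r + s) : ℕ) : ℝ) * Real.pi * aa r s
      = m * Real.pi * aa r s + (((s : ℤ) - r : ℤ) : ℝ) * (2 * Real.pi) := by
    unfold aa
    have : (r : ℝ) + s ≠ 0 := by positivity
    push_cast
    field_simp
  unfold BB
  rw [e2, Real.cos_add_int_mul_two_pi, Real.sin_add_int_mul_two_pi, e1,
    Real.cos_add_nat_mul_two_pi]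

theorem BB_bound (hr : 0 < r) : ∃ K : ℝ, 0 ≤ K ∧ ∀ m, |BB (aa r s) m| ≤ K := by
  refine ⟨∑ j ∈ Finset.range (2 * (r + s)), |BB (aa r s) j|,
    Finset.sum_nonneg fun _ _ => abs_nonneg _, fun m => ?_⟩
  have h1 : ∀ k m, BB (aa r s) (m + k * (2 * (r + s))) = BB (aa r s) m := by
    intro k
    induction k with
    | zero => intro m; simp
    | succ k ih =>
      intro m
      have : m + (k + 1) * (2 * (r + s)) = (m + k * (2 * (r + s))) + 2 * (r + s) := by ring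
      rw [this, BB_per hr, ih]
  have h2 : BB (aa r s) m = BB (aa r s) (m % (2 * (r + s))) := by
    conv_lhs => rw [← Nat.mod_add_div m (2 * (r + s)), mul_comm (2 * (r + s))]
    exact h1 _ _
  rw [h2]
  exact Finset.single_le_sum (f := fun j => |BB (aa r s) j|) (fun _ _ => abs_nonneg _)
    (Finset.mem_range.2 (Nat.mod_lt _ (by omega)))

/-- index type -/
abbrev IX (s : ℕ) := (ℕ ⊕ {m : ℕ // ¬ s ∣ m}) ⊕ (ℕ ⊕ ℕ)

/-- the four families -/
noncomputable def fam (r s : ℕ) : IX s → ℝ → ℝ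
  | Sum.inl (Sum.inl m) => fun x => C (r * hh r s) m x
  | Sum.inl (Sum.inr m) => fun x => C (s * hh r s) m x
  | Sum.inr (Sum.inl n) => fun x => x * S (hh r s) (n + 1) x
  | Sum.inr (Sum.inr n) => fun x => S Real.pi (n + 1) x + BB (aa r s) (n + 1) * C Real.pi (n + 1) x

theorem fam_cont (i : IX s) : Continuous (fam r s i) := by
  rcases i with (m | m) | (n | n)
  · exact C_cont _ _
  · exact C_cont _ _
  · exact continuous_id.mul (S_cont _ _)
  · exact (S_cont _ _).add ((C_cont _ _).const_mul _)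

/-- as continuous complex functions -/
noncomputable def famC (r s : ℕ) (i : IX s) : C(ℝ, ℂ) := ⟨fun x => (fam r s i x : ℂ),
  ofReal_cont (fam_cont i)⟩

/-- as elements of `L²` -/
noncomputable def Fam (r s : ℕ) (i : IX s) : L2I := EE (famC r s i)

theorem C_per {T : ℝ} (hT : T ≠ 0) (m : ℕ) (x : ℝ) : C T m (x + T) = C T m x := by
  unfold C
  have : 2 * Real.pi * m * (x + T) / T = 2 * Real.pi * m * x / T + m * (2 * Real.pi) := by
    field_simp
  rw [this, Real.cos_add_nat_mul_two_pi]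

theorem S_per {T : ℝ} (hT : T ≠ 0) (m : ℕ) (x : ℝ) : S T m (x + T) = S T m x := by
  unfold S
  have : 2 * Real.pi * m * (x + T) / T = 2 * Real.pi * m * x / T + m * (2 * Real.pi) := by
    field_simp
  rw [this, Real.sin_add_nat_mul_two_pi]

theorem C_even (T : ℝ) (m : ℕ) (x : ℝ) : C T m (-x) = C T m x := by
  unfold C
  rw [mul_neg, neg_div, Real.cos_neg]

theorem S_odd (T : ℝ) (m : ℕ) (x : ℝ) : S T m (-x) = -S T m x := by
  unfold S
  rw [mul_neg, neg_div, Real.sin_neg]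

theorem sum_C {h : ℝ} (hh0 : h ≠ 0) (hs : 0 < s) {m : ℕ} (hm : ¬ s ∣ m) (x : ℝ) :
    ∑ i ∈ Finset.range s, C (s * h) m (x + i * h) = 0 := by
  set ω : ℂ := Complex.exp (2 * Real.pi * Complex.I * m / s) with hω
  have hs0 : (s : ℂ) ≠ 0 := by exact_mod_cast hs.ne'
  have hs1 : (s : ℝ) ≠ 0 := by exact_mod_cast hs.ne'
  have h1 : ω ^ s = 1 := by
    rw [hω, ← Complex.exp_nat_mul]
    have : (s : ℂ) * (2 * Real.pi * Complex.I * m / s) = m * (2 * Real.pi * Complex.I) := by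
      field_simp
    rw [this]
    exact Complex.exp_nat_mul_two_pi_mul_I m
  have h2 : ω ≠ 1 := by
    intro h
    rw [hω, Complex.exp_eq_one_iff] at h
    obtain ⟨n, hn⟩ := h
    have h3 : (m : ℂ) = n * s := by
      have hpi : (2 * Real.pi * Complex.I : ℂ) ≠ 0 := Complex.two_pi_I_ne_zero
      have h4 : (2 * Real.pi * Complex.I : ℂ) * (m / s) = (2 * Real.pi * Complex.I) * n := by
        linear_combination hn
      have h5 := mul_left_cancel₀ hpi h4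
      rw [div_eq_iff hs0] at h5
      exact h5
    have h4 : (m : ℤ) = n * s := by exact_mod_cast h3
    apply hm
    have : (s : ℤ) ∣ (m : ℤ) := ⟨n, by rw [h4]; ring⟩
    exact_mod_cast this
  have h3 : ∑ i ∈ Finset.range s, ω ^ i = 0 := by
    have := geom_sum_eq h2 s
    rw [this, h1, sub_self, zero_div]
  have h4 : ∀ i : ℕ, C (s * h) m (x + i * h)
      = (Complex.exp ((2 * Real.pi * m * x / (s * h) : ℝ) * Complex.I) * ω ^ i).re := by
    intro i
    rw [hω, ← Complex.exp_nat_mul, ← Complex.exp_add]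
    have : ((2 * Real.pi * m * x / (s * h) : ℝ) * Complex.I
        + (i : ℂ) * (2 * Real.pi * Complex.I * m / s))
        = ((2 * Real.pi * m * (x + i * h) / (s * h) : ℝ) : ℂ) * Complex.I := by
      have hh1 : (h : ℂ) ≠ 0 := by exact_mod_cast hh0
      push_cast
      field_simp
    rw [this, Complex.exp_ofReal_mul_I_re]
    rfl
  simp_rw [h4]
  rw [← Complex.re_sum, ← Finset.mul_sum, h3, mul_zero, Complex.zero_re]

/-- norm of a combination -/
theorem norm_comb (t : Finset (IX s)) (c : IX s → ℂ) :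
    ‖∑ i ∈ t, c i • Fam r s i‖ ^ 2
      = ∫ x in (-(Real.pi / 2))..(Real.pi / 2), ‖∑ i ∈ t, c i * (fam r s i x : ℂ)‖ ^ 2 := by
  have e : ∑ i ∈ t, c i • Fam r s i = EE (∑ i ∈ t, c i • famC r s i) := by
    rw [map_sum]
    exact Finset.sum_congr rfl fun i _ => by rw [map_smul]; rfl
  rw [e, EE_norm_sq]
  refine intervalIntegral.integral_congr fun x _ => ?_
  rw [ContinuousMap.sum_apply]
  rfl

theorem parity {E O : ℝ → ℂ} (hE : Continuous E) (hO : Continuous O) (e : ∀ x, E (-x) = E x)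
    (o : ∀ x, O (-x) = -O x) :
    ∫ x in (-(Real.pi / 2))..(Real.pi / 2), ‖E x + O x‖ ^ 2
      = (∫ x in (-(Real.pi / 2))..(Real.pi / 2), ‖E x‖ ^ 2)
        + ∫ x in (-(Real.pi / 2))..(Real.pi / 2), ‖O x‖ ^ 2 := by
  have h1 : ∫ x in (-(Real.pi / 2))..(Real.pi / 2), ‖E x + O x‖ ^ 2
      = ∫ x in (-(Real.pi / 2))..(Real.pi / 2), ‖E x - O x‖ ^ 2 := by
    have h2 := intervalIntegral.integral_comp_neg (a := -(Real.pi / 2)) (b := Real.pi / 2)
      (fun x => ‖E x + O x‖ ^ 2)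
    rw [neg_neg] at h2
    rw [← h2]
    refine intervalIntegral.integral_congr fun x _ => ?_
    rw [e, o, ← sub_eq_add_neg]
  have h3 : (∫ x in (-(Real.pi / 2))..(Real.pi / 2), ‖E x + O x‖ ^ 2)
      + ∫ x in (-(Real.pi / 2))..(Real.pi / 2), ‖E x - O x‖ ^ 2
      = 2 * ((∫ x in (-(Real.pi / 2))..(Real.pi / 2), ‖E x‖ ^ 2)
        + ∫ x in (-(Real.pi / 2))..(Real.pi / 2), ‖O x‖ ^ 2) := by
    rw [← intervalIntegral.integral_add (Continuous.intervalIntegrable (by fun_prop) _ _)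
      (Continuous.intervalIntegrable (by fun_prop) _ _),
      ← intervalIntegral.integral_add (Continuous.intervalIntegrable (by fun_prop) _ _)
      (Continuous.intervalIntegrable (by fun_prop) _ _), ← intervalIntegral.integral_const_mul]
    refine intervalIntegral.integral_congr fun x _ => ?_
    have := parallelogram_law_with_norm ℝ (E x) (O x)
    nlinarith
  linarith

theorem orth_bounds {ι : Type*} (t : Finset ι) (φ : ι → ℝ → ℝ) (hφ : ∀ i, Continuous (φ i))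
    {a b p q : ℝ} (horth : ∀ i ∈ t, ∀ j ∈ t, i ≠ j → ∫ x in a..b, φ i x * φ j x = 0)
    (hb : ∀ i ∈ t, p ≤ ∫ x in a..b, φ i x ^ 2 ∧ ∫ x in a..b, φ i x ^ 2 ≤ q) (c : ι → ℂ) :
    p * ∑ i ∈ t, ‖c i‖ ^ 2 ≤ ∫ x in a..b, ‖∑ i ∈ t, c i * (φ i x : ℂ)‖ ^ 2 ∧
    ∫ x in a..b, ‖∑ i ∈ t, c i * (φ i x : ℂ)‖ ^ 2 ≤ q * ∑ i ∈ t, ‖c i‖ ^ 2 := by
  rw [orth_sum t φ hφ horth c, Finset.mul_sum, Finset.mul_sum]
  constructor
  · refine Finset.sum_le_sum fun i hi => ?_
    have := mul_le_mul_of_nonneg_left (hb i hi).1 (sq_nonneg ‖c i‖)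
    linarith
  · refine Finset.sum_le_sum fun i hi => ?_
    have := mul_le_mul_of_nonneg_left (hb i hi).2 (sq_nonneg ‖c i‖)
    linarith

theorem sum_cont {ι : Type*} (t : Finset ι) (φ : ι → ℝ → ℝ) (hφ : ∀ i, Continuous (φ i))
    (c : ι → ℂ) : Continuous (fun x => ∑ i ∈ t, c i * (φ i x : ℂ)) :=
  continuous_finsetSum t fun i _ => (ofReal_cont (hφ i)).const_mul _

theorem sum_per {ι : Type*} (t : Finset ι) (φ : ι → ℝ → ℝ) {T : ℝ}
    (hφ : ∀ i x, φ i (x + T) = φ i x) (c : ι → ℂ) (x : ℝ) :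
    ∑ i ∈ t, c i * (φ i (x + T) : ℂ) = ∑ i ∈ t, c i * (φ i x : ℂ) :=
  Finset.sum_congr rfl fun i _ => by rw [hφ]

theorem arith {δ h K N π r s N1 N2 N3 N4 I1 I2 I3 J4 J5 JG JE : ℝ} (hδ : 0 < δ) (hh0 : 0 < h)
    (hN0 : 0 < N) (hpi : 0 < π) (hr1 : 1 ≤ r) (hs1 : 1 ≤ s) (hmul : (r + s) * h = π)
    (hN1 : 0 ≤ N1) (hN2 : 0 ≤ N2) (hN3 : 0 ≤ N3) (hN4 : 0 ≤ N4)
    (a1 : r * h / 2 * N1 ≤ I1) (b1 : I1 ≤ r * h * N1) (a2 : s * h / 2 * N2 ≤ I2)
    (b2 : I2 ≤ s * h * N2) (a3 : h / 2 * N3 ≤ I3) (b3 : I3 ≤ h / 2 * N3)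
    (a4 : π / 2 * N4 ≤ J4) (b4 : J4 ≤ π / 2 * N4) (hJ5 : J5 ≤ π * (K ^ 2 * N4))
    (hl : δ * I1 + δ * I2 + δ * I3 ≤ JG)
    (hu : JG ≤ 3 * N * I1 + 3 * N * I2 + 3 * N * π ^ 2 * I3)
    (hG1 : JG ≤ 2 * JE + 2 * J5) (hG2 : JE ≤ 2 * JG + 2 * J5) (hJE : 0 ≤ JE) :
    1 / ((2 / (δ * (h / 2))) * (1 + 2 * K ^ 2) + 2 / π) * (N1 + N2 + (N3 + N4)) ≤ JE + J4 ∧
    JE + J4 ≤ (6 * N * π + 6 * N * π ^ 3 + 2 * K ^ 2 * π + π) * (N1 + N2 + (N3 + N4)) := by
  have hrh : h ≤ r * h := by nlinarith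
  have hsh : h ≤ s * h := by nlinarith
  have hrh' : r * h ≤ π := by nlinarith
  have hsh' : s * h ≤ π := by nlinarith
  have hhp : h ≤ π := hrh.trans hrh'
  have hJ4 : 0 ≤ J4 := le_trans (by positivity) a4
  have hI1 : 0 ≤ I1 := le_trans (mul_nonneg (by linarith) hN1) a1
  have hI2 : 0 ≤ I2 := le_trans (mul_nonneg (by linarith) hN2) a2
  have hI3 : 0 ≤ I3 := le_trans (by positivity) a3
  constructor
  · rw [div_mul_eq_mul_div, one_mul, div_le_iff₀ (by positivity)]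
    have s1 : δ * (h / 2) * (N1 + N2 + N3) ≤ JG := by
      have t1 : h / 2 * N1 ≤ I1 := le_trans (mul_le_mul_of_nonneg_right (by linarith) hN1) a1
      have t2 : h / 2 * N2 ≤ I2 := le_trans (mul_le_mul_of_nonneg_right (by linarith) hN2) a2
      have t3 : δ * (h / 2 * N1 + h / 2 * N2 + h / 2 * N3) ≤ δ * (I1 + I2 + I3) :=
        mul_le_mul_of_nonneg_left (by linarith) hδ.le
      linarith
    have s2 : JG ≤ 2 * (1 + 2 * K ^ 2) * (JE + J4) := by
      have t1 : J5 ≤ 2 * K ^ 2 * J4 := by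
        refine hJ5.trans ?_
        have := mul_le_mul_of_nonneg_left a4 (by positivity : 0 ≤ 2 * K ^ 2)
        linarith
      nlinarith [mul_nonneg (sq_nonneg K) hJE]
    have s3 : N1 + N2 + N3 ≤ 2 / (δ * (h / 2)) * (1 + 2 * K ^ 2) * (JE + J4) := by
      have hd : 0 < δ * (h / 2) := by positivity
      have : N1 + N2 + N3 ≤ (2 * (1 + 2 * K ^ 2) * (JE + J4)) / (δ * (h / 2)) := by
        rw [le_div_iff₀ hd]
        linarith
      refine this.trans (le_of_eq ?_)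
      field_simp
    have s4 : N4 ≤ 2 / π * (JE + J4) := by
      have : N4 ≤ (2 * (JE + J4)) / π := by
        rw [le_div_iff₀ hpi]
        linarith
      refine this.trans (le_of_eq ?_)
      field_simp
    linarith
  · have u1 : I1 ≤ π * N1 := b1.trans (mul_le_mul_of_nonneg_right hrh' hN1)
    have u2 : I2 ≤ π * N2 := b2.trans (mul_le_mul_of_nonneg_right hsh' hN2)
    have u3 : I3 ≤ π * N3 := b3.trans (mul_le_mul_of_nonneg_right (by linarith) hN3)
    have v1 : 6 * N * I1 ≤ 6 * N * (π * N1) := mul_le_mul_of_nonneg_left u1 (by positivity)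
    have v2 : 6 * N * I2 ≤ 6 * N * (π * N2) := mul_le_mul_of_nonneg_left u2 (by positivity)
    have v3 : 6 * N * π ^ 2 * I3 ≤ 6 * N * π ^ 2 * (π * N3) :=
      mul_le_mul_of_nonneg_left u3 (by positivity)
    have w : JE ≤ 6 * N * (π * N1) + 6 * N * (π * N2)
        + 6 * N * π ^ 2 * (π * N3) + 2 * (π * (K ^ 2 * N4)) := by
      linarith
    have z1 : (6 * N * π + 6 * N * π ^ 3 + 2 * K ^ 2 * π + π)
        * (N1 + N2 + (N3 + N4)) = 6 * N * (π * N1) + 6 * N * (π * N2)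
        + 6 * N * π ^ 2 * (π * N3) + 2 * (π * (K ^ 2 * N4)) + π * N4
        + ((6 * N * π ^ 3 + 2 * K ^ 2 * π + π) * (N1 + N2)
          + (6 * N * π + 2 * K ^ 2 * π + π) * N3
          + (6 * N * π + 6 * N * π ^ 3) * N4) := by ring
    rw [z1]
    have z2 : 0 ≤ ((6 * N * π ^ 3 + 2 * K ^ 2 * π + π) * (N1 + N2)
          + (6 * N * π + 2 * K ^ 2 * π + π) * N3
          + (6 * N * π + 6 * N * π ^ 3) * N4) := by positivity
    have z3 : 0 ≤ π * N4 := by positivity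
    linarith

theorem two_sided (hr : 0 < r) (hs : 0 < s) (hc : Nat.Coprime r s) :
    ∃ A B : ℝ, 0 < A ∧ TwoSided (Fam r s) A B := by
  obtain ⟨δ, hδ, hlow⟩ := lower hr hs hc
  have hup := upper hr hs
  obtain ⟨K, hK0, hK⟩ := BB_bound (s := s) hr
  have hh0 := hh_pos (s := s) hr
  have hmul := hh_mul (s := s) hr
  have hr1 : (1 : ℝ) ≤ r := by exact_mod_cast hr
  have hs1 : (1 : ℝ) ≤ s := by exact_mod_cast hs
  have hrp : 0 < r * hh r s := by positivity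
  have hsp : 0 < s * hh r s := by positivity
  have hpi := Real.pi_pos
  have epi : -(Real.pi / 2) + Real.pi = Real.pi / 2 := by ring
  set h := hh r s with hhdef
  set N : ℝ := ((r + s : ℕ) : ℝ) with hN
  have hN0 : 0 < N := by rw [hN]; positivity
  refine ⟨1 / ((2 / (δ * (h / 2))) * (1 + 2 * K ^ 2) + 2 / Real.pi), 
    6 * N * Real.pi + 6 * N * Real.pi ^ 3 + 2 * K ^ 2 * Real.pi + Real.pi, by positivity, ?_⟩
  intro t c
  rw [norm_comb]
  set t1 := t.toLeft.toLeft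
  set t2 := t.toLeft.toRight
  set t3 := t.toRight.toLeft
  set t4 := t.toRight.toRight
  set c1 : ℕ → ℂ := fun m => c (Sum.inl (Sum.inl m))
  set c2 : {m : ℕ // ¬ s ∣ m} → ℂ := fun m => c (Sum.inl (Sum.inr m))
  set c3 : ℕ → ℂ := fun m => c (Sum.inr (Sum.inl m))
  set c4 : ℕ → ℂ := fun m => c (Sum.inr (Sum.inr m))
  have hsplit : ∀ {M : Type} [AddCommMonoid M] (F : IX s → M), ∑ i ∈ t, F i
      = (∑ m ∈ t1, F (Sum.inl (Sum.inl m)) + ∑ m ∈ t2, F (Sum.inl (Sum.inr m)))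
        + (∑ m ∈ t3, F (Sum.inr (Sum.inl m)) + ∑ m ∈ t4, F (Sum.inr (Sum.inr m))) := by
    intro M _ F
    rw [Finset.sum_sum_eq_sum_toLeft_add_sum_toRight t F,
      Finset.sum_sum_eq_sum_toLeft_add_sum_toRight t.toLeft (fun i => F (Sum.inl i)),
      Finset.sum_sum_eq_sum_toLeft_add_sum_toRight t.toRight (fun i => F (Sum.inr i))]
  set g1 : ℝ → ℂ := fun x => ∑ m ∈ t1, c1 m * (C (r * h) m x : ℂ) with hg1
  set g2 : ℝ → ℂ := fun x => ∑ m ∈ t2, c2 m * (C (s * h) m x : ℂ) with hg2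
  set g3 : ℝ → ℂ := fun x => ∑ m ∈ t3, c3 m * (S h (m + 1) x : ℂ) with hg3
  set g4 : ℝ → ℂ := fun x => ∑ m ∈ t4, c4 m * (S Real.pi (m + 1) x : ℂ) with hg4
  set g5 : ℝ → ℂ := fun x => ∑ m ∈ t4, (c4 m * (BB (aa r s) (m + 1) : ℂ))
    * (C Real.pi (m + 1) x : ℂ) with hg5
  have k1 : Continuous g1 := sum_cont t1 _ (fun m => C_cont _ _) c1
  have k2 : Continuous g2 := sum_cont t2 _ (fun m => C_cont _ _) c2
  have k3 : Continuous g3 := sum_cont t3 (fun m => S h (m + 1)) (fun m => S_cont _ _) c3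
  have k4 : Continuous g4 := sum_cont t4 (fun m => S Real.pi (m + 1)) (fun m => S_cont _ _) c4
  have k5 : Continuous g5 := sum_cont t4 (fun m => C Real.pi (m + 1)) (fun m => C_cont _ _)
    (fun m => c4 m * (BB (aa r s) (m + 1) : ℂ))
  have e3 : ∀ x : ℝ, ∑ m ∈ t3, c3 m * ((x * S h (m + 1) x : ℝ) : ℂ) = x * g3 x := by
    intro x
    rw [hg3, Finset.mul_sum]
    refine Finset.sum_congr rfl fun m _ => ?_
    push_cast
    ring
  have e4 : ∀ x : ℝ, ∑ m ∈ t4, c4 m * ((S Real.pi (m + 1) x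
      + BB (aa r s) (m + 1) * C Real.pi (m + 1) x : ℝ) : ℂ) = g5 x + g4 x := by
    intro x
    rw [hg4, hg5, ← Finset.sum_add_distrib]
    refine Finset.sum_congr rfl fun m _ => ?_
    push_cast
    ring
  have hF : ∀ x, ∑ i ∈ t, c i * (fam r s i x : ℂ) = ((g1 x + g2 x + x * g3 x) + g5 x) + g4 x := by
    intro x
    rw [hsplit (fun i => c i * (fam r s i x : ℂ))]
    have q1 : ∑ m ∈ t1, c (Sum.inl (Sum.inl m)) * (fam r s (Sum.inl (Sum.inl m)) x : ℂ)
      = g1 x := rfl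
    have q2 : ∑ m ∈ t2, c (Sum.inl (Sum.inr m)) * (fam r s (Sum.inl (Sum.inr m)) x : ℂ)
      = g2 x := rfl
    have q3 : ∑ m ∈ t3, c (Sum.inr (Sum.inl m)) * (fam r s (Sum.inr (Sum.inl m)) x : ℂ)
      = x * g3 x := e3 x
    have q4 : ∑ m ∈ t4, c (Sum.inr (Sum.inr m)) * (fam r s (Sum.inr (Sum.inr m)) x : ℂ)
      = g5 x + g4 x := e4 x
    rw [q1, q2, q3, q4]
    ring
  have hnorm := hsplit (fun i => ‖c i‖ ^ 2)
  change ∑ i ∈ t, ‖c i‖ ^ 2 = (∑ m ∈ t1, ‖c1 m‖ ^ 2 + ∑ m ∈ t2, ‖c2 m‖ ^ 2)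
        + (∑ m ∈ t3, ‖c3 m‖ ^ 2 + ∑ m ∈ t4, ‖c4 m‖ ^ 2) at hnorm
  rw [hnorm]
  set N1 := ∑ m ∈ t1, ‖c1 m‖ ^ 2
  set N2 := ∑ m ∈ t2, ‖c2 m‖ ^ 2
  set N3 := ∑ m ∈ t3, ‖c3 m‖ ^ 2
  set N4 := ∑ m ∈ t4, ‖c4 m‖ ^ 2
  have hN1 : 0 ≤ N1 := Finset.sum_nonneg fun _ _ => by positivity
  have hN2 : 0 ≤ N2 := Finset.sum_nonneg fun _ _ => by positivity
  have hN3 : 0 ≤ N3 := Finset.sum_nonneg fun _ _ => by positivity
  have hN4 : 0 ≤ N4 := Finset.sum_nonneg fun _ _ => by positivity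
  -- orthogonality
  obtain ⟨a1, b1⟩ := orth_bounds t1 (fun m => C (r * h) m) (fun m => C_cont _ _)
    (a := -(Real.pi / 2)) (b := -(Real.pi / 2) + r * h) (p := r * h / 2) (q := r * h)
    (fun i _ j _ hij => int_CC hrp _ hij) (fun i _ => int_C2 hrp _ i) c1
  obtain ⟨a2, b2⟩ := orth_bounds t2 (fun m : {m : ℕ // ¬ s ∣ m} => C (s * h) m)
    (fun m => C_cont _ _)
    (a := -(Real.pi / 2)) (b := -(Real.pi / 2) + s * h) (p := s * h / 2) (q := s * h)
    (fun i _ j _ hij => int_CC hsp _ (fun h' => hij (Subtype.ext h')))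
    (fun i _ => int_C2 hsp _ i) c2
  obtain ⟨a3, b3⟩ := orth_bounds t3 (fun m => S h (m + 1)) (fun m => S_cont _ _)
    (a := -(Real.pi / 2)) (b := -(Real.pi / 2) + h) (p := h / 2) (q := h / 2)
    (fun i _ j _ hij => int_SS hh0 _ (by omega))
    (fun i _ => ⟨(int_S2 hh0 _ (Nat.succ_pos i)).ge, (int_S2 hh0 _ (Nat.succ_pos i)).le⟩) c3
  obtain ⟨a4, b4⟩ := orth_bounds t4 (fun m => S Real.pi (m + 1)) (fun m => S_cont _ _)
    (a := -(Real.pi / 2)) (b := -(Real.pi / 2) + Real.pi) (p := Real.pi / 2) (q := Real.pi / 2)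
    (fun i _ j _ hij => int_SS hpi _ (by omega))
    (fun i _ => ⟨(int_S2 hpi _ (Nat.succ_pos i)).ge, (int_S2 hpi _ (Nat.succ_pos i)).le⟩) c4
  obtain ⟨-, b5⟩ := orth_bounds t4 (fun m => C Real.pi (m + 1)) (fun m => C_cont _ _)
    (a := -(Real.pi / 2)) (b := -(Real.pi / 2) + Real.pi) (p := Real.pi / 2) (q := Real.pi)
    (fun i _ j _ hij => int_CC hpi _ (by omega))
    (fun i _ => int_C2 hpi _ (i + 1)) (fun m => c4 m * (BB (aa r s) (m + 1) : ℂ))
  have b5' : ∑ m ∈ t4, ‖c4 m * (BB (aa r s) (m + 1) : ℂ)‖ ^ 2 ≤ K ^ 2 * N4 := by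
    rw [Finset.mul_sum]
    refine Finset.sum_le_sum fun m _ => ?_
    rw [norm_mul, mul_pow, Complex.norm_real, Real.norm_eq_abs, mul_comm]
    exact mul_le_mul_of_nonneg_right (pow_le_pow_left₀ (abs_nonneg _) (hK _) 2) (by positivity)
  rw [epi] at a4 b4 b5
  have hl := hlow g1 g2 g3 k1 k2 k3
    (fun x => sum_per t1 (fun m => C (r * h) m) (fun m x => C_per hrp.ne' m x) c1 x)
    (fun x => sum_per t2 (fun m => C (s * h) m) (fun m x => C_per hsp.ne' m x) c2 x)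
    (fun x => sum_per t3 (fun m => S h (m + 1)) (fun m x => S_per hh0.ne' _ x) c3 x)
    (fun x => by
      simp only [hg2]
      rw [Finset.sum_comm]
      refine Finset.sum_eq_zero fun m _ => ?_
      rw [← Finset.mul_sum, ← Complex.ofReal_sum, sum_C hh0.ne' hs m.2, Complex.ofReal_zero,
        mul_zero])
  have hu := hup g1 g2 g3 k1 k2 k3
    (fun x => sum_per t1 (fun m => C (r * h) m) (fun m x => C_per hrp.ne' m x) c1 x)
    (fun x => sum_per t2 (fun m => C (s * h) m) (fun m x => C_per hsp.ne' m x) c2 x)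
    (fun x => sum_per t3 (fun m => S h (m + 1)) (fun m x => S_per hh0.ne' _ x) c3 x)
  have hpar := parity (E := fun x => (g1 x + g2 x + x * g3 x) + g5 x) (O := g4)
    (by fun_prop) k4
    (fun x => by
      simp only [hg1, hg2, hg3, hg5, C_even, S_odd]
      push_cast
      simp only [mul_neg, Finset.sum_neg_distrib, neg_mul, neg_neg])
    (fun x => by
      simp only [hg4, S_odd]
      push_cast
      simp only [mul_neg, Finset.sum_neg_distrib])
  simp_rw [hF]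
  rw [hpar]
  have q : ∀ g : ℝ → ℝ, Continuous g → ∀ a b : ℝ, IntervalIntegrable g volume a b :=
    fun g hg a b => hg.intervalIntegrable a b
  -- G ≤ 2 E + 2 Q
  have hG1 : ∫ x in (-(Real.pi / 2))..(Real.pi / 2), ‖g1 x + g2 x + x * g3 x‖ ^ 2
      ≤ 2 * (∫ x in (-(Real.pi / 2))..(Real.pi / 2), ‖(g1 x + g2 x + x * g3 x) + g5 x‖ ^ 2)
        + 2 * ∫ x in (-(Real.pi / 2))..(Real.pi / 2), ‖g5 x‖ ^ 2 := by
    rw [← intervalIntegral.integral_const_mul, ← intervalIntegral.integral_const_mul,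
      ← intervalIntegral.integral_add (q _ (by fun_prop) _ _) (q _ (by fun_prop) _ _)]
    refine intervalIntegral.integral_mono_on pi_le (q _ (by fun_prop) _ _)
      (q _ (by fun_prop) _ _) fun x _ => ?_
    have e1 : ‖g1 x + g2 x + x * g3 x‖ ≤ ‖(g1 x + g2 x + x * g3 x) + g5 x‖ + ‖g5 x‖ := by
      have := norm_sub_le ((g1 x + g2 x + x * g3 x) + g5 x) (g5 x)
      rwa [add_sub_cancel_right] at this
    have e2 := pow_le_pow_left₀ (norm_nonneg _) e1 2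
    nlinarith [sq_nonneg (‖(g1 x + g2 x + x * g3 x) + g5 x‖ - ‖g5 x‖)]
  have hG2 : ∫ x in (-(Real.pi / 2))..(Real.pi / 2), ‖(g1 x + g2 x + x * g3 x) + g5 x‖ ^ 2
      ≤ 2 * (∫ x in (-(Real.pi / 2))..(Real.pi / 2), ‖g1 x + g2 x + x * g3 x‖ ^ 2)
        + 2 * ∫ x in (-(Real.pi / 2))..(Real.pi / 2), ‖g5 x‖ ^ 2 := by
    rw [← intervalIntegral.integral_const_mul, ← intervalIntegral.integral_const_mul,
      ← intervalIntegral.integral_add (q _ (by fun_prop) _ _) (q _ (by fun_prop) _ _)]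
    refine intervalIntegral.integral_mono_on pi_le (q _ (by fun_prop) _ _)
      (q _ (by fun_prop) _ _) fun x _ => ?_
    have e1 := norm_add_le (g1 x + g2 x + x * g3 x) (g5 x)
    have e2 := pow_le_pow_left₀ (norm_nonneg _) e1 2
    nlinarith [sq_nonneg (‖(g1 x + g2 x + x * g3 x)‖ - ‖g5 x‖)]
  set I1 := ∫ x in (-(Real.pi / 2))..(-(Real.pi / 2) + r * h), ‖g1 x‖ ^ 2
  set I2 := ∫ x in (-(Real.pi / 2))..(-(Real.pi / 2) + s * h), ‖g2 x‖ ^ 2
  set I3 := ∫ x in (-(Real.pi / 2))..(-(Real.pi / 2) + h), ‖g3 x‖ ^ 2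
  set J4 := ∫ x in (-(Real.pi / 2))..(Real.pi / 2), ‖g4 x‖ ^ 2
  set J5 := ∫ x in (-(Real.pi / 2))..(Real.pi / 2), ‖g5 x‖ ^ 2
  set JG := ∫ x in (-(Real.pi / 2))..(Real.pi / 2), ‖g1 x + g2 x + x * g3 x‖ ^ 2
  set JE := ∫ x in (-(Real.pi / 2))..(Real.pi / 2), ‖(g1 x + g2 x + x * g3 x) + g5 x‖ ^ 2
  change r * h / 2 * N1 ≤ I1 at a1
  change I1 ≤ r * h * N1 at b1
  change s * h / 2 * N2 ≤ I2 at a2
  change I2 ≤ s * h * N2 at b2
  change h / 2 * N3 ≤ I3 at a3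
  change I3 ≤ h / 2 * N3 at b3
  change Real.pi / 2 * N4 ≤ J4 at a4
  change J4 ≤ Real.pi / 2 * N4 at b4
  change J5 ≤ Real.pi * _ at b5
  have hJ5 : J5 ≤ Real.pi * (K ^ 2 * N4) :=
    b5.trans (mul_le_mul_of_nonneg_left b5' hpi.le)
  have hJE : 0 ≤ JE := intervalIntegral.integral_nonneg pi_le fun x _ => by positivity
  exact arith hδ hh0 hN0 hpi hr1 hs1 hmul hN1 hN2 hN3 hN4 a1 b1 a2 b2 a3 b3 a4 b4 hJ5 hl hu
    hG1 hG2 hJE

end Pool.Agent.Q83.Rst
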