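import Pool.Agent.Q83.Rst.Space

/-! Fubini on a triangle for convolution kernels. -/

set_option autoImplicit false

open MeasureTheory Set Filter
open scoped Interval

namespace Pool.Agent.Q83.Rst

theorem tri {a x : ℝ} (hax : a ≤ x) {f : ℝ → ℂ} (hf : IntegrableOn f (Ioc a x))
    {κ κ' : ℝ → ℝ} (hκ : ∀ y, HasDerivAt κ (κ' y) y) (hc : Continuous κ') :
    ∫ y in a..x, ∫ t in a..y, (κ' (y - t) : ℂ) * f t
      = ∫ t in a..x, ((κ (x - t) - κ 0 : ℝ) : ℂ) * f t := by
  set μ := volume.restrict (Ioc a x) with hμ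
  let G : ℝ → ℝ → ℂ := fun y t => (Ioc a y).indicator (fun t => (κ' (y - t) : ℂ) * f t) t
  -- left side
  have h1 : ∀ y ∈ Ioc a x, ∫ t in a..y, (κ' (y - t) : ℂ) * f t = ∫ t, G y t ∂μ := by
    intro y hy
    rw [intervalIntegral.integral_of_le hy.1.le, hμ]
    change _ = ∫ t in Ioc a x, (Ioc a y).indicator (fun t => (κ' (y - t) : ℂ) * f t) t
    rw [setIntegral_indicator measurableSet_Ioc, Ioc_inter_Ioc, sup_idem, inf_eq_right.2 hy.2]
  have h2 : ∫ y in a..x, ∫ t in a..y, (κ' (y - t) : ℂ) * f t = ∫ y, ∫ t, G y t ∂μ ∂μ := by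
    rw [intervalIntegral.integral_of_le hax]
    exact setIntegral_congr_fun measurableSet_Ioc h1
  obtain ⟨M, hM⟩ := (isCompact_Icc (a := (a - x)) (b := (x - a))).exists_bound_of_continuousOn
    hc.continuousOn
  have hint : Integrable (Function.uncurry G) (μ.prod μ) := by
    have e : Function.uncurry G = fun z : ℝ × ℝ =>
        ({z : ℝ × ℝ | a < z.2 ∧ z.2 ≤ z.1}.indicator (fun z => (κ' (z.1 - z.2) : ℂ)) z) * f z.2 := by
      funext z
      obtain ⟨y, t⟩ := z
      change (Ioc a y).indicator (fun t => (κ' (y - t) : ℂ) * f t) t = _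
      by_cases h : t ∈ Ioc a y
      · rw [indicator_of_mem h, indicator_of_mem (show (y, t) ∈ {z : ℝ × ℝ | a < z.2 ∧ z.2 ≤ z.1}
          from h)]
      · rw [indicator_of_notMem h, indicator_of_notMem
          (show (y, t) ∉ {z : ℝ × ℝ | a < z.2 ∧ z.2 ≤ z.1} from h), zero_mul]
    rw [e]
    have hms : MeasurableSet {z : ℝ × ℝ | a < z.2 ∧ z.2 ≤ z.1} :=
      (measurableSet_lt measurable_const measurable_snd).inter
        (measurableSet_le measurable_snd measurable_fst)
    refine Integrable.bdd_mul (c := max M 0) ?_ ?_ ?_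
    · exact (hf : Integrable f μ).comp_snd μ
    · refine Measurable.aestronglyMeasurable ?_
      refine Measurable.indicator ?_ hms
      exact (Complex.continuous_ofReal.comp (hc.comp (continuous_fst.sub continuous_snd))).measurable
    · have : ∀ᵐ z ∂(μ.prod μ), z ∈ Ioc a x ×ˢ Ioc a x := by
        rw [hμ, Measure.prod_restrict]
        exact ae_restrict_mem (measurableSet_Ioc.prod measurableSet_Ioc)
      filter_upwards [this] with z hz
      by_cases h : z ∈ {z : ℝ × ℝ | a < z.2 ∧ z.2 ≤ z.1}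
      · rw [indicator_of_mem h]
        have h3 := hM (z.1 - z.2) ⟨by linarith [hz.1.1, hz.2.2], by linarith [hz.1.2, hz.2.1]⟩
        rw [Complex.norm_real]
        exact h3.trans (le_max_left _ _)
      · rw [indicator_of_notMem h, norm_zero]
        exact le_max_right _ _
  rw [h2, integral_integral_swap hint]
  have h3 : ∀ t ∈ Ioc a x, ∫ y, G y t ∂μ = ((κ (x - t) - κ 0 : ℝ) : ℂ) * f t := by
    intro t ht
    have e1 : ∀ y, G y t = (Ici t).indicator (fun y => (κ' (y - t) : ℂ) * f t) y := by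
      intro y
      change (Ioc a y).indicator (fun t => (κ' (y - t) : ℂ) * f t) t = _
      by_cases h : t ≤ y
      · rw [indicator_of_mem (show t ∈ Ioc a y from ⟨ht.1, h⟩), indicator_of_mem (mem_Ici.2 h)]
      · have n1 : t ∉ Ioc a y := fun h' => h h'.2
        have n2 : y ∉ Ici t := fun h' => h (mem_Ici.1 h')
        rw [indicator_of_notMem n1, indicator_of_notMem n2]
    simp_rw [e1]
    rw [hμ, setIntegral_indicator measurableSet_Ici]
    have e2 : Ioc a x ∩ Ici t = Icc t x := by
      ext y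
      simp only [mem_inter_iff, mem_Ioc, mem_Ici, mem_Icc]
      constructor
      · rintro ⟨⟨_, h2⟩, h3⟩; exact ⟨h3, h2⟩
      · rintro ⟨h1, h2⟩; exact ⟨⟨lt_of_lt_of_le ht.1 h1, h2⟩, h1⟩
    rw [e2, integral_Icc_eq_integral_Ioc, ← intervalIntegral.integral_of_le ht.2,
      intervalIntegral.integral_mul_const, intervalIntegral.integral_ofReal]
    congr 2
    have e3 : ∀ y ∈ uIcc t x, HasDerivAt (fun y => κ (y - t)) (κ' (y - t)) y := by
      intro y _
      exact (hκ (y - t)).comp_sub_const y t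
    rw [intervalIntegral.integral_eq_sub_of_hasDerivAt e3
      ((hc.comp (continuous_id.sub continuous_const)).intervalIntegrable _ _)]
    simp
  rw [intervalIntegral.integral_of_le hax]
  exact setIntegral_congr_fun measurableSet_Ioc h3

end Pool.Agent.Q83.Rst
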